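import Pool.Agent.ECU.Walk
import Pool.Agent.ECB.Shuf

/-!
# From proper shuffles in `𝔽₂⟨x, s⟩` to the insertion operators

Words over `Fin 2`: `0` is `x` and `1` is `s`.  `iotaU` is the map of `𝔽₂⟨c₁, c₂, …⟩` to
`𝔽₂⟨x, s⟩` with `c₁ ↦ s`, `c_{k+2} ↦ d(x^{k+2} + x^{k+1})`, where `d` is the derivation with
`x ↦ s`, `s ↦ 0`.  If the coefficients of `iotaU P` are killed by all proper shuffles, then
`I_m (P c₂)` is a multiple of `c₂`, and `0` unless `m` is the length of `P`.
-/

set_option autoImplicit false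

namespace Pool.Agent.ECU.PL

open Finset Pool.Agent.ECB

noncomputable section

/-- Combinations of words in `x` and `s`. -/
abbrev U := List (Fin 2) →₀ ZMod 2

/-- The word `w`. -/
def eu (w : List (Fin 2)) : U := Finsupp.single w 1

/-- Left multiplication by a letter. -/
def cu (a : Fin 2) : U →ₗ[ZMod 2] U := Finsupp.lmapDomain (ZMod 2) (ZMod 2) (List.cons a)

@[simp] theorem cu_eu (a : Fin 2) (w : List (Fin 2)) : cu a (eu w) = eu (a :: w) := by
  simp [cu, eu, Finsupp.mapDomain_single]

theorem cu_apply_cons (a b : Fin 2) (p : U) (w : List (Fin 2)) :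
    (cu a p) (b :: w) = if b = a then p w else 0 := by
  by_cases h : b = a
  · subst h
    rw [if_pos rfl]
    simp only [cu, Finsupp.lmapDomain_apply]
    exact Finsupp.mapDomain_apply (List.cons_injective) _ _
  · rw [if_neg h]
    simp only [cu, Finsupp.lmapDomain_apply]
    apply Finsupp.mapDomain_of_notMem_range
    rintro ⟨v, hv⟩
    exact h (List.cons.inj hv).1.symm

theorem cu_apply_nil (a : Fin 2) (p : U) : (cu a p) [] = 0 := by
  simp only [cu, Finsupp.lmapDomain_apply]
  apply Finsupp.mapDomain_of_notMem_range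
  rintro ⟨v, hv⟩
  exact absurd hv (by simp)

theorem U_ext {M : Type*} [AddCommGroup M] [Module (ZMod 2) M] {f g : U →ₗ[ZMod 2] M}
    (h : ∀ w, f (eu w) = g (eu w)) : f = g := by
  apply Finsupp.lhom_ext'
  intro w
  apply LinearMap.ext_ring
  exact h w

/-- The evaluation on words: `[] ↦ c₂`, `x` acts as `X`, `s` as left multiplication by `c₁`. -/
def evw : List (Fin 2) → T (ZMod 2)
  | [] => e [1]
  | a :: w => if a = 0 then X 1 0 (evw w) else C 0 (evw w)

/-- The evaluation. -/
def ev : U →ₗ[ZMod 2] T (ZMod 2) := Finsupp.linearCombination (ZMod 2) evw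

theorem ev_eu (w : List (Fin 2)) : ev (eu w) = evw w := by
  simp [ev, eu]

theorem ev_cu0 (Z : U) : ev (cu 0 Z) = X 1 0 (ev Z) := by
  have : ev ∘ₗ cu 0 = (X 1 0) ∘ₗ ev := by
    apply U_ext
    intro w
    rw [LinearMap.comp_apply, LinearMap.comp_apply, cu_eu, ev_eu, ev_eu, evw, if_pos rfl]
  exact LinearMap.congr_fun this Z

theorem ev_cu1 (Z : U) : ev (cu 1 Z) = C 0 (ev Z) := by
  have : ev ∘ₗ cu 1 = (C 0) ∘ₗ ev := by
    apply U_ext
    intro w
    rw [LinearMap.comp_apply, LinearMap.comp_apply, cu_eu, ev_eu, ev_eu, evw, if_neg (by decide)]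
  exact LinearMap.congr_fun this Z

/-- Left multiplication by `d(x^j) = ∑ x^i s x^{j-1-i}`. -/
def du : ℕ → Module.End (ZMod 2) U
  | 0 => 0
  | j + 1 => cu 1 ∘ₗ ((cu 0 : Module.End (ZMod 2) U) ^ j) + cu 0 ∘ₗ du j

theorem du_zero (Z : U) : du 0 Z = 0 := rfl

theorem du_succ (j : ℕ) (Z : U) : du (j + 1) Z =
    cu 1 (((cu 0 : Module.End (ZMod 2) U) ^ j) Z) + cu 0 (du j Z) := rfl

theorem ev_pow (j : ℕ) (Z : U) :
    ev (((cu 0 : Module.End (ZMod 2) U) ^ j) Z) = ((X (1 : ZMod 2) 0) ^ j) (ev Z) := by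
  induction j with
  | zero => rfl
  | succ j ih =>
    rw [pow_succ', Module.End.mul_apply, ev_cu0, ih, pow_succ', Module.End.mul_apply]

theorem ev_du (k : ℕ) (Z : U) : ev (du (k + 2) Z + du (k + 1) Z) = C (k + 1) (ev Z) := by
  induction k with
  | zero =>
    rw [du_succ, du_succ, du_zero, map_zero, add_zero, pow_zero, Module.End.one_apply, pow_one,
      map_add, map_add, ev_cu1, ev_cu0, ev_cu0, ev_cu1, X_C0, one_smul, map_add]
    have a1 := add_self_T (C 0 (X 1 0 (ev Z)))
    have a2 := add_self_T (C 0 (ev Z))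
    have : C 0 ((X 1 0) (ev Z)) + ((C 0) ((X 1 0) (ev Z)) + (C 0) (ev Z) + (C 1) (ev Z)) +
        (C 0) (ev Z) = (C 0 ((X 1 0) (ev Z)) + (C 0) ((X 1 0) (ev Z))) +
        ((C 0) (ev Z) + (C 0) (ev Z)) + (C 1) (ev Z) := by abel
    rw [this, a1, a2, zero_add, zero_add]
  | succ k ih =>
    have d1 := du_succ (k + 2) Z
    have d2 := du_succ (k + 1) Z
    have h1 : du (k + 1 + 2) Z + du (k + 1 + 1) Z =
        (cu 1 (((cu 0 : Module.End (ZMod 2) U) ^ (k + 2)) Z) + cu 0 (du (k + 2) Z)) +
        (cu 1 (((cu 0 : Module.End (ZMod 2) U) ^ (k + 1)) Z) + cu 0 (du (k + 1) Z)) :=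
      congrArg₂ (· + ·) d1 d2
    rw [h1]
    clear h1 d1 d2
    generalize du (k + 2) Z = A at ih ⊢
    generalize du (k + 1) Z = B at ih ⊢
    rw [map_add] at ih
    rw [map_add, map_add, map_add, ev_cu0, ev_cu0, ev_cu1, ev_cu1, ev_pow, ev_pow]
    have h2 : X 1 0 (ev A) + X 1 0 (ev B) = C (k + 2) (ev Z) +
        C 0 (X 1 0 (((X (1 : ZMod 2) 0) ^ (k + 1)) (ev Z)) +
          ((X (1 : ZMod 2) 0) ^ (k + 1)) (ev Z)) := by
      rw [← map_add, ih, X_C, one_smul]
    have h3 : ((X (1 : ZMod 2) 0) ^ (k + 2)) (ev Z) =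
        X 1 0 (((X (1 : ZMod 2) 0) ^ (k + 1)) (ev Z)) := by
      rw [pow_succ' (X (1 : ZMod 2) 0) (k + 1), Module.End.mul_apply]
    rw [h3]
    rw [map_add] at h2
    generalize X 1 0 (ev A) = x1 at h2 ⊢
    generalize X 1 0 (ev B) = x2 at h2 ⊢
    have a1 := add_self_T (C 0 (X 1 0 (((X (1 : ZMod 2) 0) ^ (k + 1)) (ev Z))))
    have a2 := add_self_T (C 0 (((X (1 : ZMod 2) 0) ^ (k + 1)) (ev Z)))
    generalize C 0 (X 1 0 (((X (1 : ZMod 2) 0) ^ (k + 1)) (ev Z))) = t1 at a1 h2 ⊢
    generalize C 0 (((X (1 : ZMod 2) 0) ^ (k + 1)) (ev Z)) = t2 at a2 h2 ⊢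
    have : t1 + x1 + (t2 + x2) = t1 + t2 + (x1 + x2) := by abel
    rw [this, h2]
    have : t1 + t2 + (C (k + 2) (ev Z) + (t1 + t2)) = (t1 + t1) + (t2 + t2) + C (k + 2) (ev Z) := by
      abel
    rw [this, a1, a2, zero_add, zero_add]

/-- The image of a word of `𝔽₂⟨c₁, c₂, …⟩`. -/
def iw : List ℕ → U
  | [] => eu []
  | 0 :: w => cu 1 (iw w)
  | (k + 1) :: w => du (k + 2) (iw w) + du (k + 1) (iw w)

/-- `c₁ ↦ s`, `c_{k+2} ↦ d(x^{k+2} + x^{k+1})`. -/
def iotaU : T (ZMod 2) →ₗ[ZMod 2] U := Finsupp.linearCombination (ZMod 2) iw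

theorem iotaU_e (w : List ℕ) : iotaU (e w) = iw w := by
  simp [iotaU, e]

theorem ev_iw (w : List ℕ) : ev (iw w) = e (w ++ [1]) := by
  induction w with
  | nil => rw [iw, ev_eu]; rfl
  | cons k w ih =>
    rcases k with _ | k
    · rw [iw, ev_cu1, ih, C_e]; rfl
    · rw [iw, ev_du, ih, C_e]; rfl

theorem ev_iotaU (p : T (ZMod 2)) : ev (iotaU p) = rc 1 p := by
  have : ev ∘ₗ iotaU = rc 1 := by
    apply hom_ext
    intro w
    rw [LinearMap.comp_apply, iotaU_e, ev_iw, rc_e]
  exact LinearMap.congr_fun this p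

/-- The previous term of a sequence. -/
def prv (f : ℕ → U) : ℕ → U
  | 0 => 0
  | m + 1 => f m

/-- The insertion operators on words in `x` and `s`. -/
def Phw : List (Fin 2) → ℕ → U
  | [], m => if m = 0 then eu [] else 0
  | a :: w, m => cu a (Phw w m) + (if a = 0 then (m : ZMod 2) • Phw w m else prv (Phw w) m)

/-- The insertion operators on `𝔽₂⟨x, s⟩`. -/
def Ph (m : ℕ) : U →ₗ[ZMod 2] U := Finsupp.linearCombination (ZMod 2) (fun w => Phw w m)

theorem Ph_eu (m : ℕ) (w : List (Fin 2)) : Ph m (eu w) = Phw w m := by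
  simp [Ph, eu]

theorem In_evw (w : List (Fin 2)) : ∀ m, In 1 0 m (evw w) = ev (Phw w m) := by
  induction w with
  | nil =>
    intro m
    rcases m with _ | m
    · rw [Phw, if_pos rfl, ev_eu, In_zero]; rfl
    · rw [Phw, if_neg (by omega), map_zero, evw, ← C_e, In_C1, In_nil, map_zero]
  | cons a w ih =>
    intro m
    rw [Phw, evw]
    by_cases ha : a = 0
    · subst ha
      rw [if_pos rfl, if_pos rfl, In_X, ih m, map_add, ev_cu0, map_smul]
    · have ha1 : a = 1 := by omega
      subst ha1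
      rw [if_neg ha, if_neg ha, map_add, ev_cu1]
      rcases m with _ | m
      · rw [In_zero, prv, map_zero, add_zero, ← ih 0, In_zero]; rfl
      · rw [In_C0, ih (m + 1), ih m, prv]

theorem In_ev (m : ℕ) (Z : U) : In 1 0 m (ev Z) = ev (Ph m Z) := by
  have : (In 1 0 m) ∘ₗ ev = ev ∘ₗ (Ph m) := by
    apply U_ext
    intro w
    rw [LinearMap.comp_apply, LinearMap.comp_apply, ev_eu, Ph_eu, In_evw]
  exact LinearMap.congr_fun this Z

theorem Ph_cu (m : ℕ) (a : Fin 2) (Z : U) : Ph m (cu a Z) =
    cu a (Ph m Z) + (if a = 0 then (m : ZMod 2) • Ph m Z else prv (fun m => Ph m Z) m) := by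
  by_cases ha : a = 0
  · have : (Ph m) ∘ₗ (cu a) = (cu a) ∘ₗ (Ph m) + (m : ZMod 2) • Ph m := by
      apply U_ext
      intro w
      simp only [LinearMap.comp_apply, LinearMap.add_apply, LinearMap.smul_apply, cu_eu, Ph_eu]
      rw [Phw, if_pos ha]
    have h := LinearMap.congr_fun this Z
    simp only [LinearMap.comp_apply, LinearMap.add_apply, LinearMap.smul_apply] at h
    rw [h, if_pos ha]
  · rcases m with _ | m
    · have : (Ph 0) ∘ₗ (cu a) = (cu a) ∘ₗ (Ph 0) := by
        apply U_ext
        intro w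
        simp only [LinearMap.comp_apply, cu_eu, Ph_eu]
        rw [Phw, if_neg ha, prv, add_zero]
      have h := LinearMap.congr_fun this Z
      simp only [LinearMap.comp_apply] at h
      rw [h, if_neg ha, prv, add_zero]
    · have : (Ph (m + 1)) ∘ₗ (cu a) = (cu a) ∘ₗ (Ph (m + 1)) + Ph m := by
        apply U_ext
        intro w
        simp only [LinearMap.comp_apply, LinearMap.add_apply, cu_eu, Ph_eu]
        rw [Phw, if_neg ha, prv]
      have h := LinearMap.congr_fun this Z
      simp only [LinearMap.comp_apply, LinearMap.add_apply] at h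
      rw [h, if_neg ha, prv]

/-- Left derivative. -/
def ld (a : Fin 2) (Z : U) : U :=
  Z.comapDomain (List.cons a) (List.cons_injective.injOn)

theorem ld_apply (a : Fin 2) (Z : U) (w : List (Fin 2)) : (ld a Z) w = Z (a :: w) := rfl

theorem decomp (Z : U) : Z = (Z []) • eu [] + cu 0 (ld 0 Z) + cu 1 (ld 1 Z) := by
  ext w
  rw [Finsupp.add_apply, Finsupp.add_apply, Finsupp.smul_apply]
  rcases w with _ | ⟨a, w⟩
  · rw [cu_apply_nil, cu_apply_nil]; simp [eu]
  · rw [cu_apply_cons, cu_apply_cons, ld_apply, ld_apply]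
    have h2 : (eu [] : U) (a :: w) = 0 := by simp [eu]
    rw [h2, smul_zero, zero_add]
    by_cases ha : a = 0
    · subst ha; simp
    · have ha1 : a = 1 := by omega
      subst ha1; simp

/-- The words with `m` letters `s` and length `l` which have no `x` with an even number of
letters `s` to the right. -/
def WW : ℕ → ℕ → List (List (Fin 2))
  | 0, 0 => [[]]
  | _ + 1, 0 => []
  | 0, _ + 1 => []
  | m + 1, l + 1 => (if Even m then (WW (m + 1) l).map (0 :: ·) else []) ++
      (WW m l).map (1 :: ·)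

theorem WW_zero (l : ℕ) : WW 0 l = if l = 0 then [[]] else [] := by
  cases l <;> simp [WW]

theorem mem_WW {m l : ℕ} {w : List (Fin 2)} (h : w ∈ WW m l) :
    w.length = l ∧ w.count 1 = m := by
  induction l generalizing m w with
  | zero =>
    rcases m with _ | m
    · simp only [WW, List.mem_singleton] at h; subst h; simp
    · simp [WW] at h
  | succ l ih =>
    rcases m with _ | m
    · simp [WW] at h
    · rw [WW, List.mem_append] at h
      rcases h with h | h
      · by_cases hm : Even m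
        · rw [if_pos hm, List.mem_map] at h
          obtain ⟨v, hv, rfl⟩ := h
          obtain ⟨h1, h2⟩ := ih hv
          refine ⟨by simp [h1], ?_⟩
          rw [List.count_cons_of_ne (by decide), h2]
        · rw [if_neg hm] at h; simp at h
      · rw [List.mem_map] at h
        obtain ⟨v, hv, rfl⟩ := h
        obtain ⟨h1, h2⟩ := ih hv
        refine ⟨by simp [h1], ?_⟩
        rw [List.count_cons_self, h2]

/-- The sum of `sh z w v` over the words `v` in `WW m l`, `l < N`. -/
def GG (N m : ℕ) (z : List (Fin 2) → ZMod 2) (w : List (Fin 2)) : ZMod 2 :=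
  ∑ l ∈ range N, ((WW m l).map (fun v => sh z w v)).sum

theorem sh_eq_zero_of_len {z : List (Fin 2) → ZMod 2} {u v : List (Fin 2)}
    (h : ∀ t : List (Fin 2), t.length = u.length + v.length → z t = 0) : sh z u v = 0 := by
  rw [sh_congr (c' := fun _ => 0) u v (fun t ht => h t (length_of_mem_shf ht))]
  rw [sh]
  simp

theorem sum_map_zero' {l : List (List (Fin 2))} {f : List (Fin 2) → ZMod 2}
    (h : ∀ v ∈ l, f v = 0) : (l.map f).sum = 0 := by
  apply List.sum_eq_zero
  intro x hx
  rw [List.mem_map] at hx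
  obtain ⟨v, hv, rfl⟩ := hx
  exact h v hv

/-- The recursion for `GG` with empty word. -/
theorem GG_nil (N m : ℕ) (z : List (Fin 2) → ZMod 2) :
    GG (N + 1) m z [] = (if m = 0 then z [] else 0) +
      (m : ZMod 2) * GG N m (fun t => z (0 :: t)) [] +
      (if m = 0 then 0 else GG N (m - 1) (fun t => z (1 :: t)) []) := by
  rw [GG, Finset.sum_range_succ']
  rcases m with _ | m
  · simp [WW]
  · have h0 : ((WW (m + 1) 0).map (fun v => sh z [] v)).sum = 0 := by simp [WW]
    rw [h0, add_zero, if_neg (by omega), if_neg (by omega), zero_add, Nat.add_sub_cancel, GG, GG,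
      Finset.mul_sum, ← Finset.sum_add_distrib]
    apply Finset.sum_congr rfl
    intro l _
    rw [WW, List.map_append, List.sum_append, List.map_map]
    congr 1
    · by_cases hm : Even m
      · rw [if_pos hm, List.map_map]
        have : ((m + 1 : ℕ) : ZMod 2) = 1 := by
          rw [Nat.cast_succ, (ZMod.natCast_eq_zero_iff_even).2 hm, zero_add]
        rw [this, one_mul]
        congr 1
        apply List.map_congr_left
        intro v _
        simp
      · rw [if_neg hm]
        have : ((m + 1 : ℕ) : ZMod 2) = 0 := by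
          rw [ZMod.natCast_eq_zero_iff_even]
          exact (Nat.not_even_iff_odd.1 hm).add_one
        rw [this, zero_mul]
        simp
    · congr 1
      apply List.map_congr_left
      intro v _
      simp

/-- The recursion for `GG` with a nonempty word. -/
theorem GG_cons (N m : ℕ) (z : List (Fin 2) → ZMod 2) (b : Fin 2) (w : List (Fin 2)) :
    GG (N + 1) m z (b :: w) = GG (N + 1) m (fun t => z (b :: t)) w +
      (m : ZMod 2) * GG N m (fun t => z (0 :: t)) (b :: w) +
      (if m = 0 then 0 else GG N (m - 1) (fun t => z (1 :: t)) (b :: w)) := by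
  rw [GG, Finset.sum_range_succ', GG, Finset.sum_range_succ']
  rcases m with _ | m
  · simp [WW]
  · have h0 : ((WW (m + 1) 0).map (fun v => sh z (b :: w) v)).sum = 0 := by simp [WW]
    have h1 : ((WW (m + 1) 0).map (fun v => sh (fun t => z (b :: t)) w v)).sum = 0 := by simp [WW]
    rw [h0, h1, add_zero, add_zero, if_neg (by omega), Nat.add_sub_cancel, GG, GG,
      Finset.mul_sum, ← Finset.sum_add_distrib, ← Finset.sum_add_distrib]
    apply Finset.sum_congr rfl
    intro l _
    rw [WW, List.map_append, List.sum_append, List.map_append, List.sum_append, List.map_map,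
      List.map_map]
    have e1 : ((WW m l).map ((fun v => sh z (b :: w) v) ∘ fun x => 1 :: x)).sum =
        ((WW m l).map ((fun v => sh (fun t => z (b :: t)) w v) ∘ fun x => 1 :: x)).sum +
        ((WW m l).map (fun v => sh (fun t => z (1 :: t)) (b :: w) v)).sum := by
      rw [← List.sum_map_add]
      congr 1
      apply List.map_congr_left
      intro v _
      exact sh_cons_cons z b 1 w v
    rw [e1]
    by_cases hm : Even m
    · have hc : ((m + 1 : ℕ) : ZMod 2) = 1 := by
        rw [Nat.cast_succ, (ZMod.natCast_eq_zero_iff_even).2 hm, zero_add]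
      rw [if_pos hm, List.map_map, List.map_map, hc, one_mul]
      have e2 : ((WW (m + 1) l).map ((fun v => sh z (b :: w) v) ∘ fun x => 0 :: x)).sum =
          ((WW (m + 1) l).map ((fun v => sh (fun t => z (b :: t)) w v) ∘ fun x => 0 :: x)).sum +
          ((WW (m + 1) l).map (fun v => sh (fun t => z (0 :: t)) (b :: w) v)).sum := by
        rw [← List.sum_map_add]
        congr 1
        apply List.map_congr_left
        intro v _
        exact sh_cons_cons z b 0 w v
      rw [e2]
      ring
    · have hc : ((m + 1 : ℕ) : ZMod 2) = 0 := by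
        rw [ZMod.natCast_eq_zero_iff_even]
        exact (Nat.not_even_iff_odd.1 hm).add_one
      rw [if_neg hm, hc]
      simp only [List.map_nil, List.sum_nil]
      ring

theorem GG_last {N m : ℕ} {z : List (Fin 2) → ZMod 2}
    (h : ∀ t : List (Fin 2), N ≤ t.length → z t = 0) (w : List (Fin 2)) :
    GG (N + 1) m z w = GG N m z w := by
  rw [GG, Finset.sum_range_succ, ← GG]
  have : ((WW m N).map (fun v => sh z w v)).sum = 0 := by
    apply sum_map_zero'
    intro v hv
    apply sh_eq_zero_of_len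
    intro t ht
    apply h
    rw [ht, (mem_WW hv).1]
    omega
  rw [this, add_zero]

theorem Ph_eq_GG (N : ℕ) : ∀ (m : ℕ) (Z : U), (∀ t : List (Fin 2), N ≤ t.length → Z t = 0) →
    ∀ w, (Ph m Z) w = GG N m Z w := by
  induction N with
  | zero =>
    intro m Z hZ w
    have : Z = 0 := by
      ext t; exact hZ t (Nat.zero_le _)
    subst this
    simp [GG]
  | succ N ih =>
    intro m Z hZ w
    have hl : ∀ a : Fin 2, ∀ t : List (Fin 2), N ≤ t.length → (ld a Z) t = 0 := by
      intro a t ht
      rw [ld_apply]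
      apply hZ
      rw [List.length_cons]
      omega
    have i0 := ih m (ld 0 Z) (hl 0)
    have i1 := ih m (ld 1 Z) (hl 1)
    have key : (Ph m Z) w = (if m = 0 then (Z [] • eu [] : U) w else 0) +
        (cu 0 (Ph m (ld 0 Z))) w + (cu 1 (Ph m (ld 1 Z))) w +
        (m : ZMod 2) * GG N m (fun t => Z (0 :: t)) w +
        (if m = 0 then 0 else GG N (m - 1) (fun t => Z (1 :: t)) w) := by
      conv_lhs => rw [decomp Z]
      rw [map_add, map_add, map_smul, Ph_eu, Ph_cu, Ph_cu, if_pos rfl, if_neg (by decide)]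
      simp only [Finsupp.add_apply, Finsupp.smul_apply]
      rw [i0 w, smul_eq_mul]
      rcases m with _ | m
      · simp only [Phw, prv]
        simp
      · rw [if_neg (by omega), if_neg (by omega), Nat.add_sub_cancel, prv, ih m (ld 1 Z) (hl 1) w]
        simp only [Phw]
        rw [if_neg (by omega)]
        simp only [Finsupp.coe_zero, Pi.zero_apply, zero_add]
        have e1 : (fun t => Z (0 :: t)) = (ld 0 Z : List (Fin 2) → ZMod 2) := rfl
        have e2 : (fun t => Z (1 :: t)) = (ld 1 Z : List (Fin 2) → ZMod 2) := rfl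
        rw [e1, e2]
        ring
    rw [key]
    rcases w with _ | ⟨b, w⟩
    · rw [GG_nil, cu_apply_nil, cu_apply_nil]
      by_cases hm : m = 0
      · simp [hm, eu]
      · simp [hm]
    · rw [GG_cons, cu_apply_cons, cu_apply_cons, i0 w, i1 w]
      have hb : GG (N + 1) m (fun t => Z (b :: t)) w = GG N m (fun t => Z (b :: t)) w := by
        apply GG_last
        intro t ht
        exact hl b t ht
      rw [hb]
      have h2 : (Z [] • eu [] : U) (b :: w) = 0 := by simp [eu]
      rw [h2]
      by_cases hb0 : b = 0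
      · subst hb0
        rw [if_pos rfl, if_neg (show ¬ (0 : Fin 2) = 1 by decide)]
        have e1 : (fun t => Z (0 :: t)) = (ld 0 Z : List (Fin 2) → ZMod 2) := rfl
        rw [e1]
        simp
      · have hb1 : b = 1 := by omega
        subst hb1
        rw [if_pos rfl, if_neg (show ¬ (1 : Fin 2) = 0 by decide)]
        have e2 : (fun t => Z (1 :: t)) = (ld 1 Z : List (Fin 2) → ZMod 2) := rfl
        rw [e2]
        simp

/-- Proper shuffles kill all insertions. -/
theorem Ph_of_sh {n : ℕ} {Z : U} (hn : ∀ w, Z w ≠ 0 → w.count 1 = n)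
    (h : ∀ u v : List (Fin 2), u ≠ [] → v ≠ [] → sh Z u v = 0) (m : ℕ) (hm : 1 ≤ m) :
    ∃ c : ZMod 2, Ph m Z = c • eu [] ∧ (m ≠ n → c = 0) := by
  obtain ⟨N, hN⟩ : ∃ N : ℕ, ∀ t : List (Fin 2), N ≤ t.length → Z t = 0 := by
    refine ⟨Z.support.sup List.length + 1, ?_⟩
    intro t ht
    by_contra hne
    have := Finset.le_sup (f := List.length) (Finsupp.mem_support_iff.2 hne)
    omega
  have hne : ∀ l, ∀ v ∈ WW m l, v ≠ [] := by
    intro l v hv h0
    subst h0
    have := (mem_WW hv).2
    simp at this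
    omega
  refine ⟨(Ph m Z) [], ?_, ?_⟩
  · ext w
    rw [Finsupp.smul_apply]
    rcases w with _ | ⟨b, w⟩
    · simp [eu]
    · have h2 : (eu [] : U) (b :: w) = 0 := by simp [eu]
      rw [h2, smul_zero, Ph_eq_GG N m Z hN, GG]
      apply Finset.sum_eq_zero
      intro l _
      apply sum_map_zero'
      intro v hv
      exact h _ _ (by simp) (hne l v hv)
  · intro hmn
    rw [Ph_eq_GG N m Z hN, GG]
    apply Finset.sum_eq_zero
    intro l _
    apply sum_map_zero'
    intro v hv
    rw [sh_nil_left]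
    by_contra hne
    exact hmn ((mem_WW hv).2.symm.trans (hn v hne))

/-- Combinations of words with `n` letters `s`. -/
def On (n : ℕ) : Submodule (ZMod 2) U :=
  Finsupp.supported (ZMod 2) (ZMod 2) {w : List (Fin 2) | w.count 1 = n}

theorem mem_On {n : ℕ} {p : U} : p ∈ On n ↔ ∀ w, p w ≠ 0 → w.count 1 = n := by
  constructor
  · intro h w hw
    exact h (Finsupp.mem_support_iff.mpr hw)
  · intro h w hw
    exact h w (Finsupp.mem_support_iff.mp hw)

theorem cu0_mem {n : ℕ} {p : U} (hp : p ∈ On n) : cu 0 p ∈ On n := by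
  rw [mem_On] at hp ⊢
  intro w hw
  rcases w with _ | ⟨b, w⟩
  · rw [cu_apply_nil] at hw; exact absurd rfl hw
  · rw [cu_apply_cons] at hw
    by_cases hb : b = 0
    · rw [if_pos hb] at hw
      subst hb
      rw [List.count_cons_of_ne (by decide)]
      exact hp w hw
    · rw [if_neg hb] at hw; exact absurd rfl hw

theorem cu1_mem {n : ℕ} {p : U} (hp : p ∈ On n) : cu 1 p ∈ On (n + 1) := by
  rw [mem_On] at hp ⊢
  intro w hw
  rcases w with _ | ⟨b, w⟩
  · rw [cu_apply_nil] at hw; exact absurd rfl hw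
  · rw [cu_apply_cons] at hw
    by_cases hb : b = 1
    · rw [if_pos hb] at hw
      subst hb
      rw [List.count_cons_self, hp w hw]
    · rw [if_neg hb] at hw; exact absurd rfl hw

theorem pow_mem {n : ℕ} {p : U} (hp : p ∈ On n) (j : ℕ) :
    ((cu 0 : Module.End (ZMod 2) U) ^ j) p ∈ On n := by
  induction j with
  | zero => exact hp
  | succ j ih => rw [pow_succ', Module.End.mul_apply]; exact cu0_mem ih

theorem du_mem {n : ℕ} {p : U} (hp : p ∈ On n) (j : ℕ) : du j p ∈ On (n + 1) := by
  induction j with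
  | zero => rw [du_zero]; exact Submodule.zero_mem _
  | succ j ih =>
    rw [du_succ]
    exact Submodule.add_mem _ (cu1_mem (pow_mem hp j)) (cu0_mem ih)

theorem iw_mem (w : List ℕ) : iw w ∈ On w.length := by
  induction w with
  | nil =>
    rw [mem_On]
    intro v hv
    rw [iw, eu, Finsupp.single_apply] at hv
    by_cases h : [] = v
    · subst h; rfl
    · rw [if_neg h] at hv; exact absurd rfl hv
  | cons k w ih =>
    rcases k with _ | k
    · exact cu1_mem ih
    · exact Submodule.add_mem _ (du_mem ih _) (du_mem ih _)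

theorem iotaU_mem {n : ℕ} {p : T (ZMod 2)} (hp : p ∈ L (ZMod 2) n) : iotaU p ∈ On n := by
  refine L_ind (P := fun p => iotaU p ∈ On n) ?_ ?_ ?_ p hp
  · simp
  · intro p q h1 h2
    rw [map_add]; exact Submodule.add_mem _ h1 h2
  · intro r w hw
    rw [map_smul, iotaU_e]
    apply Submodule.smul_mem
    have := iw_mem w
    rwa [hw] at this

/-- The interface: if the coefficients of `iotaU P` are killed by proper shuffles, then the
insertions into `P c₂` vanish up to a multiple of `c₂` in the top degree. -/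
theorem In_rc_of_lie {n : ℕ} {P : T (ZMod 2)} (hP : P ∈ L (ZMod 2) n)
    (h : ∀ u v : List (Fin 2), u ≠ [] → v ≠ [] → sh (iotaU P) u v = 0) (m : ℕ) (hm : 1 ≤ m) :
    ∃ c : ZMod 2, In 1 0 m (rc 1 P) = c • e [1] ∧ (m ≠ n → c = 0) := by
  obtain ⟨c, hc, hc0⟩ := Ph_of_sh (mem_On.1 (iotaU_mem hP)) h m hm
  refine ⟨c, ?_, hc0⟩
  rw [← ev_iotaU, In_ev, hc, map_smul, ev_eu]
  rfl

end

end Pool.Agent.ECU.PL
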