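import Pool.Agent.ECU.Defs2

/-!
# Intertwiners on the words with last letter at least one

The operators `S` (shift of the last letter) and `dL 1` (extraction of a last letter `1`)
commute with the insertion operators on the span `N0` of the words with last letter `≥ 1`.
-/

set_option autoImplicit false

namespace Pool.Agent.ECU

open Finset

noncomputable section

/-! ### Words with last letter `≥ 1` -/

theorem lastpos_cons_cons (i j : ℕ) (w : List ℕ) :
    lastpos (i :: j :: w) = lastpos (j :: w) := by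
  cases i <;> rfl

theorem lastpos_cons {w : List ℕ} (hw : w ≠ []) (i : ℕ) : lastpos (i :: w) = lastpos w := by
  cases w with
  | nil => exact absurd rfl hw
  | cons j w => exact lastpos_cons_cons i j w

theorem lastpos_append (v : List ℕ) (k : ℕ) : lastpos (v ++ [k + 1]) = true := by
  induction v with
  | nil => rfl
  | cons i v ih =>
    rw [List.cons_append, lastpos_cons (by simp)]
    exact ih

theorem lastpos_append_zero (v : List ℕ) : lastpos (v ++ [0]) = false := by
  induction v with
  | nil => rfl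
  | cons i v ih =>
    rw [List.cons_append, lastpos_cons (by simp)]
    exact ih

theorem lastpos_ne_nil {w : List ℕ} (h : lastpos w = true) : w ≠ [] := by
  rintro rfl
  exact absurd h (by simp [lastpos])

/-- A word with last letter `≥ 1` ends with a letter `k + 1`. -/
theorem lastpos_iff (w : List ℕ) : lastpos w = true ↔ ∃ v k, w = v ++ [k + 1] := by
  constructor
  · intro h
    have hne := lastpos_ne_nil h
    obtain ⟨v, a, rfl⟩ := (List.eq_nil_or_concat' w).resolve_left hne
    cases a with
    | zero => rw [lastpos_append_zero] at h; exact absurd h (by simp)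
    | succ k => exact ⟨v, k, rfl⟩
  · rintro ⟨v, k, rfl⟩
    exact lastpos_append v k

theorem mem_N0' {p : W} : p ∈ N0 ↔ ∀ w, p w ≠ 0 → lastpos w = true := by
  constructor
  · intro h w hw
    exact h (Finsupp.mem_support_iff.mpr hw)
  · intro h w hw
    exact h w (Finsupp.mem_support_iff.mp hw)

theorem e_mem_N0 {w : List ℕ} (h : lastpos w = true) : (e w : W) ∈ N0 :=
  Finsupp.single_mem_supported _ _ h

theorem zmod2_cases (r : ZMod 2) : r = 0 ∨ r = 1 := by
  revert r; decide

theorem C_mem_N0 (j : ℕ) {p : W} (hp : p ∈ N0) : C j p ∈ N0 := by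
  refine supp_ind (P := fun p => C j p ∈ N0) ?_ ?_ ?_ p hp
  · simp
  · intro p q h1 h2
    rw [map_add]; exact Submodule.add_mem _ h1 h2
  · intro r w hw
    rw [map_smul, C_e]
    apply Submodule.smul_mem
    apply e_mem_N0
    rw [lastpos_cons (lastpos_ne_nil hw)]
    exact hw

theorem N0_ind {P : W → Prop} (h0 : P 0) (hadd : ∀ p q, P p → P q → P (p + q))
    (hb : ∀ k, P (e [k + 1])) (hC : ∀ j, ∀ p ∈ N0, P p → P (C j p)) (p : W) (hp : p ∈ N0) :
    P p := by
  refine supp_ind (P := P) h0 hadd ?_ p hp
  intro r w hw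
  have key : ∀ w : List ℕ, lastpos w = true → P (e w) := by
    intro w
    induction w with
    | nil => intro h; exact absurd rfl (lastpos_ne_nil h)
    | cons i w ih =>
      intro h
      by_cases hne : w = []
      · subst hne
        cases i with
        | zero => exact absurd h (by simp [lastpos])
        | succ k => exact hb k
      · rw [lastpos_cons hne] at h
        have := hC i (e w) (e_mem_N0 h) (ih h)
        rwa [C_e] at this
  rcases zmod2_cases r with h | h
  · rw [h, zero_smul]; exact h0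
  · rw [h, one_smul]; exact key w hw

/-! ### The operators `X` and the insertions preserve `N0` -/

theorem sL_mem_N0 (b : ZMod 2) (k : ℕ) {p : W} (hp : p ∈ N0) : sL b k p ∈ N0 := by
  cases k with
  | zero => exact C_mem_N0 0 hp
  | succ k =>
    simp only [sL, LinearMap.sum_apply, LinearMap.smul_apply]
    exact Submodule.sum_mem _ (fun i _ => Submodule.smul_mem _ _ (C_mem_N0 _ hp))

theorem pow_nil (y : ZMod 2) (j : ℕ) : (X 1 y ^ j) (e []) = (y ^ j) • (e [] : W) := by
  induction j with
  | zero => simp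
  | succ j ih =>
    rw [pow_succ', Module.End.mul_apply, ih, map_smul, X_nil, smul_smul, pow_succ]

theorem X_single (y : ZMod 2) (k : ℕ) : X 1 y (e [k + 1]) = (e [k + 2] : W) := by
  have h : (e [k + 1] : W) = C (k + 1) (e []) := by rw [C_e]
  rw [h, X_C, C_e]
  have h2 : X 1 y ((X 1 y ^ (k + 1)) (e [])) + (1 : ZMod 2) • (X 1 y ^ (k + 1)) (e []) =
      (0 : W) := by
    rw [pow_nil, map_smul, X_nil, smul_smul, one_smul, ← add_smul]
    have : y ^ (k + 1) * y + y ^ (k + 1) = 0 := by
      rcases zmod2_cases y with h | h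
      · subst h; simp
      · subst h; simp; decide
    rw [this, zero_smul]
  rw [h2, map_zero, add_zero]

/-- Words of length `n` with last letter `≥ 1`. -/
def NL (n : ℕ) : Submodule (ZMod 2) W :=
  Finsupp.supported (ZMod 2) (ZMod 2) {w | lastpos w = true ∧ w.length = n}

theorem NL_le (n : ℕ) : NL n ≤ N0 := Finsupp.supported_mono (fun _ h => h.1)

theorem e_mem_NL {w : List ℕ} (h : lastpos w = true) : (e w : W) ∈ NL w.length :=
  Finsupp.single_mem_supported _ _ ⟨h, rfl⟩

theorem C_mem_NL (j : ℕ) {n : ℕ} {p : W} (hp : p ∈ NL n) : C j p ∈ NL (n + 1) := by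
  refine supp_ind (P := fun p => C j p ∈ NL (n + 1)) ?_ ?_ ?_ p hp
  · simp
  · intro p q h1 h2
    rw [map_add]; exact Submodule.add_mem _ h1 h2
  · intro r w hw
    rw [map_smul, C_e]
    apply Submodule.smul_mem
    have h := e_mem_NL (w := j :: w) (by rw [lastpos_cons (lastpos_ne_nil hw.1)]; exact hw.1)
    rwa [List.length_cons, hw.2] at h

theorem pow_mem_sub {f : Module.End (ZMod 2) W} {M : Submodule (ZMod 2) W}
    (h : ∀ p ∈ M, f p ∈ M) (j : ℕ) (p : W) (hp : p ∈ M) : (f ^ j) p ∈ M := by
  induction j with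
  | zero => simpa using hp
  | succ j ih => rw [pow_succ', Module.End.mul_apply]; exact h _ ih

theorem X_mem_NL (y : ZMod 2) (n : ℕ) : ∀ p ∈ NL n, X 1 y p ∈ NL n := by
  induction n with
  | zero =>
    intro p hp
    refine supp_ind (P := fun p => X 1 y p ∈ NL 0) (by simp) ?_ ?_ p hp
    · intro p q h1 h2
      rw [map_add]; exact Submodule.add_mem _ h1 h2
    · intro r w hw
      have : w = [] := List.length_eq_zero_iff.mp hw.2
      exact absurd this (lastpos_ne_nil hw.1)
  | succ n ih =>
    intro p hp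
    refine supp_ind (P := fun p => X 1 y p ∈ NL (n + 1)) (by simp) ?_ ?_ p hp
    · intro p q h1 h2
      rw [map_add]; exact Submodule.add_mem _ h1 h2
    · intro r w hw
      rw [map_smul]
      apply Submodule.smul_mem
      obtain ⟨h1, h2⟩ := hw
      rcases w with _ | ⟨k, w⟩
      · simp at h2
      · by_cases hne : w = []
        · subst hne
          cases k with
          | zero => exact absurd h1 (by simp [lastpos])
          | succ k =>
            rw [X_single]
            have := e_mem_NL (w := [k + 2]) rfl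
            rwa [show ([k + 2] : List ℕ).length = n + 1 from h2] at this
        · rw [lastpos_cons hne] at h1
          have hl : w.length = n := by simpa using h2
          have hw : (e w : W) ∈ NL n := hl ▸ e_mem_NL h1
          rw [← C_e]
          cases k with
          | zero =>
            rw [X_C0]
            refine Submodule.add_mem _ (C_mem_NL 0 (Submodule.add_mem _ (ih _ hw) ?_))
              (C_mem_NL 1 hw)
            exact Submodule.smul_mem _ _ hw
          | succ k =>
            rw [X_C]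
            have h3 := pow_mem_sub ih (k + 1) _ hw
            exact Submodule.add_mem _ (C_mem_NL _ hw) (C_mem_NL 0 (Submodule.add_mem _ (ih _ h3)
              (Submodule.smul_mem _ _ h3)))

theorem X_mem_N0 (y : ZMod 2) {p : W} (hp : p ∈ N0) : X 1 y p ∈ N0 := by
  refine supp_ind (P := fun p => X 1 y p ∈ N0) (by simp) ?_ ?_ p hp
  · intro p q h1 h2
    rw [map_add]; exact Submodule.add_mem _ h1 h2
  · intro r w hw
    rw [map_smul]
    exact Submodule.smul_mem _ _ (NL_le _ (X_mem_NL y _ _ (e_mem_NL hw)))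

theorem X0_mem_N0 {p : W} (hp : p ∈ N0) : X0 p ∈ N0 := X_mem_N0 0 hp

theorem aeval_mem_N0 (y : ZMod 2) (g : Polynomial (ZMod 2)) {p : W} (hp : p ∈ N0) :
    Polynomial.aeval (X 1 y) g p ∈ N0 := by
  induction g using Polynomial.induction_on' with
  | add g h hg hh =>
    rw [map_add, LinearMap.add_apply]; exact Submodule.add_mem _ hg hh
  | monomial n a =>
    rw [Polynomial.aeval_monomial, Module.End.mul_apply, Module.algebraMap_end_apply]
    exact Submodule.smul_mem _ _ (pow_mem_sub (fun p hp => X_mem_N0 y hp) n p hp)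

theorem aeval_nil (y : ZMod 2) (g : Polynomial (ZMod 2)) :
    Polynomial.aeval (X 1 y) g (e []) = (g.eval y) • (e [] : W) := by
  induction g using Polynomial.induction_on' with
  | add g h hg hh =>
    rw [map_add, LinearMap.add_apply, hg, hh, Polynomial.eval_add, add_smul]
  | monomial n a =>
    rw [Polynomial.aeval_monomial, Module.End.mul_apply, Module.algebraMap_end_apply, pow_nil,
      Polynomial.eval_monomial, smul_smul]

theorem iota_eval (y : ZMod 2) (k : ℕ) : (iota (1 : ZMod 2) (k + 1)).eval y = 0 := by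
  rw [iota, Polynomial.eval_mul, Polynomial.eval_mul, Polynomial.eval_X, Polynomial.eval_add,
    Polynomial.eval_X, Polynomial.eval_C]
  have : y * (y + 1) = 0 := by revert y; decide
  rw [this, zero_mul]

theorem In_single (y : ZMod 2) (m k : ℕ) : In 1 y (m + 1) (e [k + 1] : W) = 0 := by
  have h : (e [k + 1] : W) = C (k + 1) (e []) := by rw [C_e]
  rw [h, In_C, In_nil, map_zero, zero_add]
  cases m with
  | zero =>
    rw [In_zero, Module.End.one_apply, Io, aeval_nil, iota_eval, zero_smul]
  | succ m => rw [In_nil, map_zero]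

theorem In_mem_N0 (y : ZMod 2) (m : ℕ) {p : W} (hp : p ∈ N0) : In 1 y m p ∈ N0 := by
  have key : ∀ p ∈ N0, ∀ m, In 1 y m p ∈ N0 := by
    intro p hp
    refine N0_ind (P := fun p => ∀ m, In 1 y m p ∈ N0) ?_ ?_ ?_ ?_ p hp
    · intro m; simp
    · intro p q h1 h2 m
      rw [map_add]; exact Submodule.add_mem _ (h1 m) (h2 m)
    · intro k m
      cases m with
      | zero => rw [In_zero, Module.End.one_apply]; exact e_mem_N0 rfl
      | succ m => rw [In_single]; exact Submodule.zero_mem _
    · intro j p hp h m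
      cases m with
      | zero => rw [In_zero, Module.End.one_apply]; exact C_mem_N0 j hp
      | succ m =>
        rw [In_C]
        exact Submodule.add_mem _ (sL_mem_N0 _ _ (h _)) (aeval_mem_N0 y _ (h _))
  exact key p hp m

theorem I0_mem_N0 (m : ℕ) {p : W} (hp : p ∈ N0) : I0 m p ∈ N0 := In_mem_N0 0 m hp

/-! ### General intertwiners -/

theorem inter_X_NL (Φ : Module.End (ZMod 2) W) (y y' : ZMod 2)
    (hC : ∀ j, ∀ p ∈ N0, Φ (C j p) = C j (Φ p))
    (hX : ∀ k, X 1 y (Φ (e [k + 1])) = Φ (e [k + 2])) (n : ℕ) :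
    ∀ p ∈ NL n, Φ (X 1 y' p) = X 1 y (Φ p) := by
  induction n with
  | zero =>
    intro p hp
    refine supp_ind (P := fun p => Φ (X 1 y' p) = X 1 y (Φ p)) (by simp) ?_ ?_ p hp
    · intro p q h1 h2
      simp only [map_add, h1, h2]
    · intro r w hw
      have : w = [] := List.length_eq_zero_iff.mp hw.2
      exact absurd this (lastpos_ne_nil hw.1)
  | succ n ih =>
    intro p hp
    refine supp_ind (P := fun p => Φ (X 1 y' p) = X 1 y (Φ p)) (by simp) ?_ ?_ p hp
    · intro p q h1 h2
      simp only [map_add, h1, h2]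
    · intro r w hw
      simp only [map_smul]
      congr 1
      obtain ⟨h1, h2⟩ := hw
      rcases w with _ | ⟨k, w⟩
      · simp at h2
      · by_cases hne : w = []
        · subst hne
          cases k with
          | zero => exact absurd h1 (by simp [lastpos])
          | succ k => rw [X_single, hX]
        · rw [lastpos_cons hne] at h1
          have hl : w.length = n := by simpa using h2
          have hw : (e w : W) ∈ NL n := hl ▸ e_mem_NL h1
          have hpow : ∀ j, (X 1 y' ^ j) (e w) ∈ NL n ∧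
              Φ ((X 1 y' ^ j) (e w)) = (X 1 y ^ j) (Φ (e w)) := by
            intro j
            induction j with
            | zero => exact ⟨by simpa using hw, by simp⟩
            | succ j ihj =>
              refine ⟨pow_mem_sub (X_mem_NL y' n) _ _ hw, ?_⟩
              rw [pow_succ', pow_succ', Module.End.mul_apply, Module.End.mul_apply,
                ih _ ihj.1, ihj.2]
          rw [← C_e]
          cases k with
          | zero =>
            have hw0 := NL_le _ hw
            rw [X_C0, hC 0 _ hw0, X_C0, map_add, hC 1 _ hw0, hC 0 _ (Submodule.add_mem _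
              (X_mem_N0 y' hw0) (Submodule.smul_mem _ _ hw0)), map_add, map_smul, ih _ hw]
          | succ k =>
            have hw0 := NL_le _ hw
            have h3 := (hpow (k + 1)).1
            have h30 := NL_le _ h3
            rw [X_C, hC (k + 1) _ hw0, X_C, map_add, hC (k + 2) _ hw0, hC 0 _ (Submodule.add_mem _
              (X_mem_N0 y' h30) (Submodule.smul_mem _ _ h30)), map_add, map_smul, ih _ h3,
              (hpow (k + 1)).2]

/-- An operator commuting with the left letters on `N0` and with `X` on the one letter words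
intertwines `X` on `N0`. -/
theorem inter_X' (Φ : Module.End (ZMod 2) W) (y y' : ZMod 2)
    (hC : ∀ j, ∀ p ∈ N0, Φ (C j p) = C j (Φ p))
    (hX : ∀ k, X 1 y (Φ (e [k + 1])) = Φ (e [k + 2])) (p : W) (hp : p ∈ N0) :
    Φ (X 1 y' p) = X 1 y (Φ p) := by
  refine supp_ind (P := fun p => Φ (X 1 y' p) = X 1 y (Φ p)) (by simp) ?_ ?_ p hp
  · intro p q h1 h2
    simp only [map_add, h1, h2]
  · intro r w hw
    simp only [map_smul]
    rw [inter_X_NL Φ y y' hC hX _ _ (e_mem_NL hw)]

theorem inter_X (Φ : Module.End (ZMod 2) W) (y : ZMod 2)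
    (hC : ∀ j, ∀ p ∈ N0, Φ (C j p) = C j (Φ p))
    (hX : ∀ k, X 1 y (Φ (e [k + 1])) = Φ (e [k + 2])) (p : W) (hp : p ∈ N0) :
    Φ (X0 p) = X 1 y (Φ p) := inter_X' Φ y 0 hC hX p hp

theorem inter_aeval (Φ : Module.End (ZMod 2) W) (y y' : ZMod 2)
    (hC : ∀ j, ∀ p ∈ N0, Φ (C j p) = C j (Φ p))
    (hX : ∀ k, X 1 y (Φ (e [k + 1])) = Φ (e [k + 2])) (g : Polynomial (ZMod 2)) (p : W)
    (hp : p ∈ N0) :
    Φ (Polynomial.aeval (X 1 y') g p) = Polynomial.aeval (X 1 y) g (Φ p) := by
  induction g using Polynomial.induction_on' with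
  | add g h hg hh =>
    simp only [map_add, LinearMap.add_apply, hg, hh]
  | monomial n a =>
    have hpow : ∀ j, (X 1 y' ^ j) p ∈ N0 ∧ Φ ((X 1 y' ^ j) p) = (X 1 y ^ j) (Φ p) := by
      intro j
      induction j with
      | zero => exact ⟨by simpa using hp, by simp⟩
      | succ j ihj =>
        refine ⟨pow_mem_sub (fun p hp => X_mem_N0 y' hp) _ _ hp, ?_⟩
        rw [pow_succ', pow_succ', Module.End.mul_apply, Module.End.mul_apply,
          inter_X' Φ y y' hC hX _ ihj.1, ihj.2]
    simp only [Polynomial.aeval_monomial, Module.End.mul_apply, Module.algebraMap_end_apply,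
      map_smul, (hpow n).2]

theorem inter_sL (Φ : Module.End (ZMod 2) W)
    (hC : ∀ j, ∀ p ∈ N0, Φ (C j p) = C j (Φ p)) (b : ZMod 2) (k : ℕ) (p : W) (hp : p ∈ N0) :
    Φ (sL b k p) = sL b k (Φ p) := by
  cases k with
  | zero => exact hC 0 p hp
  | succ k =>
    simp only [sL, LinearMap.sum_apply, LinearMap.smul_apply, map_sum, map_smul]
    exact Finset.sum_congr rfl (fun i _ => by rw [hC _ p hp])

/-- An operator commuting with the left letters on `N0`, with `X` and with the insertions on the
one letter words intertwines the insertions on `N0`. -/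
theorem inter_In' (Φ : Module.End (ZMod 2) W) (y y' : ZMod 2)
    (hC : ∀ j, ∀ p ∈ N0, Φ (C j p) = C j (Φ p))
    (hX : ∀ k, X 1 y (Φ (e [k + 1])) = Φ (e [k + 2]))
    (hI : ∀ m k, In 1 y (m + 1) (Φ (e [k + 1])) = 0) (m : ℕ) (p : W) (hp : p ∈ N0) :
    Φ (In 1 y' m p) = In 1 y m (Φ p) := by
  have key : ∀ p ∈ N0, ∀ m, Φ (In 1 y' m p) = In 1 y m (Φ p) := by
    intro p hp
    refine N0_ind (P := fun p => ∀ m, Φ (In 1 y' m p) = In 1 y m (Φ p)) ?_ ?_ ?_ ?_ p hp
    · intro m; simp
    · intro p q h1 h2 m
      simp only [map_add, h1 m, h2 m]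
    · intro k m
      cases m with
      | zero => rw [In_zero, In_zero, Module.End.one_apply, Module.End.one_apply]
      | succ m => rw [In_single, map_zero, hI]
    · intro j p hp h m
      cases m with
      | zero => rw [In_zero, In_zero, Module.End.one_apply, Module.End.one_apply]
      | succ m =>
        rw [In_C, map_add, inter_sL Φ hC _ _ _ (In_mem_N0 y' _ hp), h, hC j p hp, In_C]
        congr 1
        rw [Io, inter_aeval Φ y y' hC hX _ _ (In_mem_N0 y' _ hp), h]
        rfl
  exact key p hp m

theorem inter_In (Φ : Module.End (ZMod 2) W) (y : ZMod 2)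
    (hC : ∀ j, ∀ p ∈ N0, Φ (C j p) = C j (Φ p))
    (hX : ∀ k, X 1 y (Φ (e [k + 1])) = Φ (e [k + 2]))
    (hI : ∀ m k, In 1 y (m + 1) (Φ (e [k + 1])) = 0) (m : ℕ) (p : W) (hp : p ∈ N0) :
    Φ (I0 m p) = In 1 y m (Φ p) := inter_In' Φ y 0 hC hX hI m p hp

/-! ### The end state does not matter on `N0` -/

theorem X_eq (y y' : ZMod 2) {p : W} (hp : p ∈ N0) : X 1 y' p = X 1 y p := by
  have := inter_X' (1 : Module.End (ZMod 2) W) y y' (fun _ _ _ => rfl)
    (fun k => X_single y k) p hp
  simpa using this

theorem In_eq (y y' : ZMod 2) (m : ℕ) {p : W} (hp : p ∈ N0) : In 1 y' m p = In 1 y m p := by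
  have := inter_In' (1 : Module.End (ZMod 2) W) y y' (fun _ _ _ => rfl)
    (fun k => X_single y k) (fun m k => In_single y m k) m p hp
  simpa using this

theorem I0_eq_I1 (m : ℕ) {p : W} (hp : p ∈ N0) : I0 m p = I1 m p := In_eq 1 0 m hp

/-! ### The shift `S` of the last letter -/

theorem S_e (w : List ℕ) : S (e w : W) = e (shw w) := by
  simp [S, e, Finsupp.mapDomain_single]

theorem shw_append (v : List ℕ) (k : ℕ) : shw (v ++ [k]) = v ++ [k + 1] := by
  induction v with
  | nil => rfl
  | cons i v ih =>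
    cases v with
    | nil => rfl
    | cons j v =>
      rw [List.cons_append, List.cons_append, shw, ← List.cons_append, ih]
      rfl

theorem shw_cons {w : List ℕ} (hw : w ≠ []) (i : ℕ) : shw (i :: w) = i :: shw w := by
  cases w with
  | nil => exact absurd rfl hw
  | cons j w => rfl

theorem S_e_append (v : List ℕ) (k : ℕ) : S (e (v ++ [k]) : W) = e (v ++ [k + 1]) := by
  rw [S_e, shw_append]

/-- `S` commutes with the left letters on the nonempty words. -/
theorem S_C (j : ℕ) {p : W} (hp : p [] = 0) : S (C j p) = C j (S p) := by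
  have h : p ∈ Finsupp.supported (ZMod 2) (ZMod 2) {w : List ℕ | w ≠ []} := by
    intro w hw hne
    subst hne
    exact (Finsupp.mem_support_iff.mp hw) hp
  refine supp_ind (P := fun p => S (C j p) = C j (S p)) (by simp) ?_ ?_ p h
  · intro p q h1 h2
    simp only [map_add, h1, h2]
  · intro r w hw
    simp only [map_smul, C_e, S_e, shw_cons hw]

theorem N0_nil {p : W} (hp : p ∈ N0) : p [] = 0 := by
  by_contra h
  exact absurd rfl (lastpos_ne_nil (mem_N0'.mp hp [] h))

theorem S_C' (j : ℕ) {p : W} (hp : p ∈ N0) : S (C j p) = C j (S p) := S_C j (N0_nil hp)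

theorem S_In (y : ZMod 2) (m : ℕ) {p : W} (hp : p ∈ N0) : S (In 1 y m p) = In 1 y m (S p) := by
  refine inter_In' S y y (fun j p hp => S_C' j hp) ?_ ?_ m p hp
  · intro k
    rw [show ([k + 1] : List ℕ) = [] ++ [k + 1] from rfl,
      show ([k + 2] : List ℕ) = [] ++ [k + 2] from rfl, S_e_append, S_e_append]
    exact X_single y (k + 1)
  · intro m k
    rw [show ([k + 1] : List ℕ) = [] ++ [k + 1] from rfl, S_e_append]
    exact In_single y m (k + 1)

theorem S_I0 (m : ℕ) {p : W} (hp : p ∈ N0) : S (I0 m p) = I0 m (S p) := S_In 0 m hp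

theorem S_X (y : ZMod 2) {p : W} (hp : p ∈ N0) : S (X 1 y p) = X 1 y (S p) := by
  refine inter_X' S y y (fun j p hp => S_C' j hp) ?_ p hp
  intro k
  rw [show ([k + 1] : List ℕ) = [] ++ [k + 1] from rfl,
    show ([k + 2] : List ℕ) = [] ++ [k + 2] from rfl, S_e_append, S_e_append]
  exact X_single y (k + 1)

/-! ### Extraction of a last letter `1` -/

theorem dL_single (k j : ℕ) : dL k (e [j] : W) = if j = k then e [] else 0 := by
  have h : (e [j] : W) = C j (e []) := by rw [C_e]
  rw [h, dL_C, dL_nil, map_zero, zero_add]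
  by_cases hj : j = k
  · rw [if_pos hj, if_pos hj]
    simp [e]
  · rw [if_neg hj, if_neg hj, zero_smul]

theorem dL_C' (k j : ℕ) {p : W} (hp : p [] = 0) : dL k (C j p) = C j (dL k p) := by
  rw [dL_C, hp]; simp

theorem dL1_In (y : ZMod 2) (m : ℕ) {p : W} (hp : p ∈ N0) :
    dL 1 (In 1 y m p) = I0 m (dL 1 p) := by
  refine inter_In' (dL 1) 0 y (fun j p hp => dL_C' 1 j (N0_nil hp)) ?_ ?_ m p hp
  · intro k
    rw [dL_single, dL_single, if_neg (by omega : ¬ (k + 2 = 1))]
    by_cases hk : k + 1 = 1
    · rw [if_pos hk, X_nil, zero_smul]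
    · rw [if_neg hk, map_zero]
  · intro m k
    rw [dL_single]
    by_cases hk : k + 1 = 1
    · rw [if_pos hk, In_nil]
    · rw [if_neg hk, map_zero]

theorem dL1_I0 (m : ℕ) {p : W} (hp : p ∈ N0) : dL 1 (I0 m p) = I0 m (dL 1 p) := dL1_In 0 m hp

/-! ### More on the shift and the decomposition by the last letter -/

theorem lastpos_shw (w : List ℕ) (hw : w ≠ []) : lastpos (shw w) = true := by
  obtain ⟨v, a, rfl⟩ := (List.eq_nil_or_concat' w).resolve_left hw
  rw [shw_append]; exact lastpos_append v a

theorem S_mem_N0' {p : W} (hp : p [] = 0) : S p ∈ N0 := by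
  have h : p ∈ Finsupp.supported (ZMod 2) (ZMod 2) {w : List ℕ | w ≠ []} := by
    intro w hw hne
    subst hne
    exact (Finsupp.mem_support_iff.mp hw) hp
  refine supp_ind (P := fun p => S p ∈ N0) (by simp) ?_ ?_ p h
  · intro p q h1 h2
    rw [map_add]; exact Submodule.add_mem _ h1 h2
  · intro r w hw
    rw [map_smul, S_e]
    exact Submodule.smul_mem _ _ (e_mem_N0 (lastpos_shw w hw))

theorem S_mem_N0 {p : W} (hp : p ∈ N0) : S p ∈ N0 := S_mem_N0' (N0_nil hp)

theorem shw_injective : Function.Injective shw := by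
  intro v w h
  by_cases hv : v = []
  · subst hv
    by_cases hw : w = []
    · exact hw.symm
    · have h1 := lastpos_shw w hw
      rw [← h] at h1
      exact absurd h1 (by simp [shw, lastpos])
  · by_cases hw : w = []
    · subst hw
      have h1 := lastpos_shw v hv
      rw [h] at h1
      exact absurd h1 (by simp [shw, lastpos])
    · obtain ⟨v, a, rfl⟩ := (List.eq_nil_or_concat' v).resolve_left hv
      obtain ⟨w, b, rfl⟩ := (List.eq_nil_or_concat' w).resolve_left hw
      rw [shw_append, shw_append] at h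
      have h2 := List.append_inj' h rfl
      rw [h2.1]
      have h3 : a + 1 = b + 1 := by simpa using h2.2
      have h4 : a = b := by omega
      rw [h4]

theorem S_apply_shw (p : W) (w : List ℕ) : (S p) (shw w) = p w := by
  simp only [S, Finsupp.lmapDomain_apply]
  exact Finsupp.mapDomain_apply shw_injective _ _

theorem S_apply_append (p : W) (v : List ℕ) (k : ℕ) : (S p) (v ++ [k + 1]) = p (v ++ [k]) := by
  rw [← shw_append, S_apply_shw]

theorem S_apply_append_zero (p : W) (v : List ℕ) : (S p) (v ++ [0]) = 0 := by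
  simp only [S, Finsupp.lmapDomain_apply]
  apply Finsupp.mapDomain_of_notMem_range
  rintro ⟨w, hw⟩
  by_cases h : w = []
  · subst h
    exact absurd hw.symm (by simp [shw])
  · have := lastpos_shw w h
    rw [hw, lastpos_append_zero] at this
    exact absurd this (by simp)

theorem S_injective {p q : W} (h : S p = S q) : p = q := by
  ext w
  rw [← S_apply_shw p w, h, S_apply_shw]

theorem shw_length (w : List ℕ) : (shw w).length = w.length := by
  by_cases h : w = []
  · subst h; rfl
  · obtain ⟨v, a, rfl⟩ := (List.eq_nil_or_concat' w).resolve_left h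
    rw [shw_append]; simp

theorem S_mem_L {n : ℕ} {p : W} (hp : p ∈ L (ZMod 2) n) : S p ∈ L (ZMod 2) n := by
  refine L_ind (P := fun p => S p ∈ L (ZMod 2) n) (by simp) ?_ ?_ p hp
  · intro p q h1 h2
    rw [map_add]; exact Submodule.add_mem _ h1 h2
  · intro r w hw
    rw [map_smul, S_e]
    apply Submodule.smul_mem
    have := e_mem_L (R := ZMod 2) (shw w)
    rwa [shw_length, hw] at this

/-- Lowering of the last letter `k + 1 ↦ k` (words with last letter `0` and `[]` go to `0`). -/
def S' : Module.End (ZMod 2) W := Finsupp.lcomapDomain shw shw_injective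

theorem S'_apply (p : W) (w : List ℕ) : (S' p) w = p (shw w) := rfl

theorem S'_S (p : W) : S' (S p) = p := by
  ext w; rw [S'_apply, S_apply_shw]

/-- On `N0` the shift is invertible. -/
theorem S_S' {p : W} (hp : p ∈ N0) : S (S' p) = p := by
  ext w
  by_cases h : w = []
  · subst h
    have h1 : shw [] = ([] : List ℕ) := rfl
    conv_lhs => rw [← h1]
    rw [S_apply_shw, S'_apply, h1]
  · obtain ⟨v, a, rfl⟩ := (List.eq_nil_or_concat' w).resolve_left h
    cases a with
    | zero =>
      rw [S_apply_append_zero]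
      by_contra hne
      have := mem_N0'.mp hp _ (fun h => hne h.symm)
      rw [lastpos_append_zero] at this
      exact absurd this (by simp)
    | succ k =>
      rw [S_apply_append, S'_apply, shw_append]

theorem S'_nil {p : W} (hp : p ∈ N0) : (S' p) [] = 0 := by
  rw [S'_apply]; exact N0_nil hp

theorem S'_mem_L {n : ℕ} {p : W} (hp : p ∈ L (ZMod 2) n) : S' p ∈ L (ZMod 2) n := by
  rw [mem_L] at hp ⊢
  intro w hw
  rw [S'_apply] at hw
  rw [← shw_length]
  exact hp _ hw

/-- If no word of `p ∈ N0` ends with the letter `1`, then `S' p ∈ N0`. -/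
theorem S'_mem_N0 {p : W} (hp : p ∈ N0) (h1 : dL 1 p = 0) : S' p ∈ N0 := by
  rw [mem_N0']
  intro w hw
  have hne : w ≠ [] := by
    rintro rfl
    exact hw (S'_nil hp)
  obtain ⟨v, a, rfl⟩ := (List.eq_nil_or_concat' w).resolve_left hne
  cases a with
  | zero =>
    exfalso
    apply hw
    rw [S'_apply, shw_append, ← dL_apply 1 p v, h1]
    rfl
  | succ k => exact lastpos_append v k

/-- A nonzero element of `N0` is `S^j Y` with `Y ∈ N0` and `dL 1 Y ≠ 0`. -/
theorem exists_S_pow {p : W} (hp : p ∈ N0) (hne : p ≠ 0) :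
    ∃ (j : ℕ) (Y : W), Y ∈ N0 ∧ p = (S ^ j) Y ∧ dL 1 Y ≠ 0 := by
  obtain ⟨w, hw⟩ := Finsupp.ne_iff.mp hne
  have hl := mem_N0'.mp hp w hw
  obtain ⟨v, k, rfl⟩ := (lastpos_iff w).mp hl
  clear hl hne
  induction k generalizing p with
  | zero =>
    refine ⟨0, p, hp, by simp, ?_⟩
    intro h
    apply hw
    have : (dL 1 p) v = 0 := by rw [h]; rfl
    rwa [dL_apply] at this
  | succ k ih =>
    by_cases h1 : dL 1 p = 0
    · have hq := S'_mem_N0 hp h1
      have hqw : (S' p) (v ++ [k + 1]) ≠ (0 : W) (v ++ [k + 1]) := by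
        rw [S'_apply, shw_append]
        exact hw
      obtain ⟨j, Y, hY, hqY, hd⟩ := ih hq hqw
      refine ⟨j + 1, Y, hY, ?_, hd⟩
      rw [pow_succ', Module.End.mul_apply, ← hqY, S_S' hp]
    · exact ⟨0, p, hp, by simp, h1⟩

theorem S_pow_mem_N0 (j : ℕ) {p : W} (hp : p ∈ N0) : (S ^ j) p ∈ N0 :=
  pow_mem_sub (fun _ h => S_mem_N0 h) j p hp

theorem S_pow_In (y : ZMod 2) (m j : ℕ) {p : W} (hp : p ∈ N0) :
    (S ^ j) (In 1 y m p) = In 1 y m ((S ^ j) p) := by
  induction j with
  | zero => simp
  | succ j ih =>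
    rw [pow_succ', Module.End.mul_apply, Module.End.mul_apply, ih, S_In y m (S_pow_mem_N0 j hp)]

/-- Append the letter `k` at the end. -/
def Ap (k : ℕ) : Module.End (ZMod 2) W :=
  Finsupp.lmapDomain (ZMod 2) (ZMod 2) (fun w => w ++ [k])

theorem Ap_e (k : ℕ) (w : List ℕ) : Ap k (e w : W) = e (w ++ [k]) := by
  simp [Ap, e, Finsupp.mapDomain_single]

theorem Ap_apply (k : ℕ) (p : W) (w : List ℕ) : (Ap k p) (w ++ [k]) = p w := by
  simp only [Ap, Finsupp.lmapDomain_apply]
  exact Finsupp.mapDomain_apply (f := fun w : List ℕ => w ++ [k])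
    (fun a b h => by simpa using h) _ _

theorem Ap_apply_ne {k j : ℕ} (h : j ≠ k) (p : W) (w : List ℕ) : (Ap k p) (w ++ [j]) = 0 := by
  simp only [Ap, Finsupp.lmapDomain_apply]
  apply Finsupp.mapDomain_of_notMem_range
  rintro ⟨v, hv⟩
  have := List.append_inj' hv rfl
  exact h (by simpa using this.2.symm)

theorem Ap_apply_nil (k : ℕ) (p : W) : (Ap k p) [] = 0 := by
  simp only [Ap, Finsupp.lmapDomain_apply]
  apply Finsupp.mapDomain_of_notMem_range
  rintro ⟨v, hv⟩
  exact absurd hv (by simp)

theorem Ap_mem_L (k n : ℕ) {p : W} (h : p ∈ L (ZMod 2) n) : Ap k p ∈ L (ZMod 2) (n + 1) := by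
  refine L_ind (P := fun p => Ap k p ∈ L (ZMod 2) (n + 1)) (by simp) ?_ ?_ p h
  · intro p q h1 h2
    rw [map_add]; exact Submodule.add_mem _ h1 h2
  · intro r w hw
    rw [map_smul, Ap_e]
    apply Submodule.smul_mem
    have := e_mem_L (R := ZMod 2) (w ++ [k])
    rwa [List.length_append, List.length_singleton, hw] at this

theorem Ap_mem_N0 (k : ℕ) (p : W) : Ap (k + 1) p ∈ N0 := by
  rw [mem_N0']
  intro w hw
  have hne : w ≠ [] := by
    rintro rfl
    exact hw (Ap_apply_nil _ p)
  obtain ⟨v, a, rfl⟩ := (List.eq_nil_or_concat' w).resolve_left hne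
  by_cases h : a = k + 1
  · subst h; exact lastpos_append v k
  · exact absurd (Ap_apply_ne h p v) hw

theorem Ap1_mem_N0 (p : W) : Ap 1 p ∈ N0 := Ap_mem_N0 0 p

theorem dL_Ap (k : ℕ) (p : W) : dL k (Ap k p) = p := by
  ext w; rw [dL_apply, Ap_apply]

theorem dL_Ap_ne {k j : ℕ} (h : k ≠ j) (p : W) : dL k (Ap j p) = 0 := by
  ext w; rw [dL_apply, Ap_apply_ne h]; rfl

theorem dL1_Ap0 (p : W) : dL 1 (Ap 0 p) = 0 := dL_Ap_ne (by omega) p

theorem dL1_S (p : W) : dL 1 (S p) = dL 0 p := by
  ext w; rw [dL_apply, dL_apply, S_apply_append p w 0]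

theorem dL_S (k : ℕ) (p : W) : dL (k + 1) (S p) = dL k p := by
  ext w; rw [dL_apply, dL_apply, S_apply_append]

/-- Decomposition by the last letter: the last letter `0` part and the rest. -/
theorem decomp0 {p : W} (hp : p [] = 0) : p = Ap 0 (dL 0 p) + S (S' (p - Ap 0 (dL 0 p))) := by
  rw [S_S']
  · abel
  · rw [mem_N0']
    intro w hw
    have hne : w ≠ [] := by
      rintro rfl
      apply hw
      rw [Finsupp.sub_apply, hp, Ap_apply_nil, sub_zero]
    obtain ⟨v, a, rfl⟩ := (List.eq_nil_or_concat' w).resolve_left hne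
    cases a with
    | zero =>
      exfalso
      apply hw
      rw [Finsupp.sub_apply, Ap_apply, dL_apply, sub_self]
    | succ k => exact lastpos_append v k

/-! ### First letters -/

/-- The first letter is kept by the shift of the last letter on words of length `≥ 2`. -/
theorem S_pow_apply_cons (j i : ℕ) (p : W) (v : List ℕ) (k : ℕ) :
    ((S ^ j) p) (i :: (v ++ [k + j])) = p (i :: (v ++ [k])) := by
  induction j generalizing k with
  | zero => simp
  | succ j ih =>
    rw [pow_succ', Module.End.mul_apply]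
    have h1 : i :: (v ++ [k + (j + 1)]) = (i :: v) ++ [(k + j) + 1] := by
      simp [Nat.add_assoc]
    rw [h1, S_apply_append]
    exact ih k

end

end Pool.Agent.ECU
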