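import Pool.Agent.ECU.Defs2

/-!
# Insertion operators over `𝔽₂`: commutation relations
-/

set_option autoImplicit false

namespace Pool.Agent.ECU

open Finset

noncomputable section

/-! ### Induction principles -/

theorem zmod2_cases (r : ZMod 2) : r = 0 ∨ r = 1 := by
  revert r; decide

theorem zmod2_sq (y : ZMod 2) : y * y = y := by
  revert y; decide

theorem zmod2_add_self (y : ZMod 2) : y + y = 0 := by
  revert y; decide

theorem W_add_self (p : W) : p + p = 0 := by
  ext w
  rw [Finsupp.add_apply, zmod2_add_self]; rfl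

theorem P_add_self (g : Polynomial (ZMod 2)) : g + g = 0 := CharTwo.add_self_eq_zero g

theorem pind {P : Polynomial (ZMod 2) → Prop} (h0 : P 0) (hadd : ∀ g h, P g → P h → P (g + h))
    (hX : ∀ k : ℕ, P (Polynomial.X ^ k)) (g : Polynomial (ZMod 2)) : P g := by
  induction g using Polynomial.induction_on' with
  | add g h hg hh => exact hadd g h hg hh
  | monomial k r =>
    rcases zmod2_cases r with h | h
    · subst h; simpa using h0
    · subst h
      have := hX k
      rwa [Polynomial.X_pow_eq_monomial] at this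

theorem W_ind {P : W → Prop} (h0 : P 0) (hadd : ∀ p q, P p → P q → P (p + q))
    (he : ∀ w, P (e w)) (p : W) : P p := by
  refine T_ind h0 hadd ?_ p
  intro r w
  rcases zmod2_cases r with h | h
  · subst h; simpa using h0
  · subst h; simpa using he w

/-- Structural induction. -/
theorem W_ind' {P : W → Prop} (h0 : P 0) (hadd : ∀ p q, P p → P q → P (p + q))
    (hnil : P (e [])) (hC : ∀ k p, P p → P (C k p)) (p : W) : P p := by
  refine W_ind h0 hadd ?_ p
  intro w
  induction w with
  | nil => exact hnil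
  | cons k w ih => rw [← C_e]; exact hC k _ ih

/-! ### Evaluation of polynomials in operators -/

theorem av_add (U : Module.End (ZMod 2) W) (g h : Polynomial (ZMod 2)) (p : W) :
    Polynomial.aeval U (g + h) p = Polynomial.aeval U g p + Polynomial.aeval U h p := by
  rw [map_add]; rfl

theorem av_mul (U : Module.End (ZMod 2) W) (g h : Polynomial (ZMod 2)) (p : W) :
    Polynomial.aeval U (g * h) p = Polynomial.aeval U g (Polynomial.aeval U h p) := by
  rw [map_mul]; rfl

theorem av_pow (U : Module.End (ZMod 2) W) (k : ℕ) (p : W) :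
    Polynomial.aeval U (Polynomial.X ^ k : Polynomial (ZMod 2)) p = (U ^ k) p := by
  rw [map_pow, Polynomial.aeval_X]

theorem av_X (U : Module.End (ZMod 2) W) (p : W) :
    Polynomial.aeval U (Polynomial.X : Polynomial (ZMod 2)) p = U p := by
  rw [Polynomial.aeval_X]

theorem av_one (U : Module.End (ZMod 2) W) (p : W) :
    Polynomial.aeval U (1 : Polynomial (ZMod 2)) p = p := by
  rw [map_one]; rfl

theorem av_zero (U : Module.End (ZMod 2) W) (p : W) :
    Polynomial.aeval U (0 : Polynomial (ZMod 2)) p = 0 := by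
  rw [map_zero]; rfl

/-! ### The operators `E g` -/

/-- `E` as a linear map in `g`. -/
def EL : Polynomial (ZMod 2) →ₗ[ZMod 2] (W →ₗ[ZMod 2] W) where
  toFun := E
  map_add' g h := by
    rw [E, Polynomial.sum_add_index]
    · rfl
    · intro i; simp
    · intro i a b; rw [add_smul]
  map_smul' r g := by
    rw [E, Polynomial.sum_smul_index' _ _ _ (fun i => by simp)]
    simp only [RingHom.id_apply, smul_assoc]
    rw [E, Polynomial.smul_sum]

theorem EL_apply (g : Polynomial (ZMod 2)) : EL g = E g := rfl

theorem E_add' (g h : Polynomial (ZMod 2)) : E (g + h) = E g + E h := EL.map_add g h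

theorem E_add (g h : Polynomial (ZMod 2)) (p : W) : E (g + h) p = E g p + E h p := by
  rw [E_add']; rfl

theorem E_zero' : E 0 = 0 := EL.map_zero

theorem E_zero (p : W) : E 0 p = 0 := by rw [E_zero']; rfl

theorem E_monomial (k : ℕ) (r : ZMod 2) : E (Polynomial.monomial k r) = r • C (k + 1) := by
  rw [E, Polynomial.sum_monomial_index]
  simp

theorem E_X (k : ℕ) : E (Polynomial.X ^ k) = C (k + 1) := by
  rw [Polynomial.X_pow_eq_monomial, E_monomial, one_smul]

theorem E_one : E 1 = C 1 := by
  have := E_X 0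
  rwa [pow_zero] at this

theorem E_apply_nil (g : Polynomial (ZMod 2)) (p : W) : (E g p) [] = 0 := by
  induction g using pind with
  | h0 => rw [E_zero]; rfl
  | hadd g h hg hh => rw [E_add, Finsupp.add_apply, hg, hh, add_zero]
  | hX k => rw [E_X, C_apply_nil]

theorem E_apply_zero (g : Polynomial (ZMod 2)) (p : W) (w : List ℕ) : (E g p) (0 :: w) = 0 := by
  induction g using pind with
  | h0 => rw [E_zero]; rfl
  | hadd g h hg hh => rw [E_add, Finsupp.add_apply, hg, hh, add_zero]
  | hX k => rw [E_X, C_apply_cons, if_neg (by omega)]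

theorem E_mem_L {n : ℕ} (g : Polynomial (ZMod 2)) {p : W} (hp : p ∈ L (ZMod 2) n) :
    E g p ∈ L (ZMod 2) (n + 1) := by
  induction g using pind with
  | h0 => rw [E_zero]; exact Submodule.zero_mem _
  | hadd g h hg hh => rw [E_add]; exact Submodule.add_mem _ hg hh
  | hX k => rw [E_X]; exact C_mem_L hp

theorem X_E (y : ZMod 2) (g : Polynomial (ZMod 2)) (p : W) : X 1 y (E g p) =
    E (Polynomial.X * g) p +
      C 0 (Polynomial.aeval (X 1 y) (Polynomial.X * (Polynomial.X + 1) * g) p) := by
  induction g using pind with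
  | h0 => simp [E_zero]
  | hadd g h hg hh =>
    rw [E_add, map_add, hg, hh, mul_add Polynomial.X g h,
      mul_add (Polynomial.X * (Polynomial.X + 1)) g h, E_add, av_add, (C 0).map_add]
    abel
  | hX k =>
    have h1 : (Polynomial.X * (Polynomial.X + 1) * Polynomial.X ^ k : Polynomial (ZMod 2)) =
        Polynomial.X ^ (k + 1 + 1) + Polynomial.X ^ (k + 1) := by ring
    rw [E_X, X_C, h1, ← pow_succ', E_X, av_add, av_pow, av_pow,
      pow_succ' (X 1 y) (k + 1), Module.End.mul_apply, one_smul]

theorem sL_zero (b : ZMod 2) : sL b 0 = C 0 := rfl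

theorem sL_E (b : ZMod 2) (k : ℕ) :
    sL b (k + 1) = E ((Polynomial.X + Polynomial.C b) ^ k) := by
  rw [add_pow, ← EL_apply, map_sum]
  show ∑ i ∈ range (k + 1), ((k.choose i : ZMod 2) * b ^ (k - i)) • C (i + 1) = _
  apply Finset.sum_congr rfl
  intro i _
  have : (Polynomial.X ^ i * Polynomial.C b ^ (k - i) * (k.choose i : Polynomial (ZMod 2)) :
      Polynomial (ZMod 2)) = Polynomial.monomial i ((k.choose i : ZMod 2) * b ^ (k - i)) := by
    rw [← Polynomial.C_mul_X_pow_eq_monomial, Polynomial.C_mul, Polynomial.C_pow,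
      Polynomial.C_eq_natCast]
    ring
  rw [this, EL_apply, E_monomial]

theorem sg_E (g : Polynomial (ZMod 2)) (p : W) :
    sig (E g p) = E (g.comp (Polynomial.X + 1)) (sig p) := by
  induction g using pind with
  | h0 => simp [E_zero]
  | hadd g h hg hh => rw [E_add, map_add, hg, hh, Polynomial.add_comp, E_add]
  | hX k =>
    rw [E_X, sg_C, sL_E, Polynomial.pow_comp, Polynomial.X_comp, Polynomial.C_1]

theorem iota_one (k : ℕ) : iota (1 : ZMod 2) (k + 1) =
    Polynomial.X * (Polynomial.X + 1) * ((Polynomial.X ^ k).comp (Polynomial.X + 1) +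
      Polynomial.X ^ k) := by
  rw [iota, Polynomial.pow_comp, Polynomial.X_comp, add_pow, sum_range_succ, Polynomial.C_1]
  congr 1
  rw [Nat.sub_self, pow_zero, Nat.choose_self, Nat.cast_one, mul_one, mul_one, add_assoc,
    P_add_self, add_zero]
  apply Finset.sum_congr rfl
  intro i _
  rw [one_pow, one_pow, mul_one, mul_one, Polynomial.C_eq_natCast, mul_comm]

theorem In_E (y : ZMod 2) (m : ℕ) (g : Polynomial (ZMod 2)) (p : W) : In 1 y (m + 1) (E g p) =
    E (g.comp (Polynomial.X + Polynomial.C ((m + 1 : ℕ) : ZMod 2))) (In 1 y (m + 1) p) +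
      Polynomial.aeval (X 1 y) (Polynomial.X * (Polynomial.X + 1) *
        (g.comp (Polynomial.X + 1) + g)) (In 1 y m p) := by
  induction g using pind with
  | h0 => simp [E_zero]
  | hadd g h hg hh =>
    rw [E_add, map_add, hg, hh, Polynomial.add_comp, E_add, Polynomial.add_comp]
    have : (Polynomial.X * (Polynomial.X + 1) * (g.comp (Polynomial.X + 1) +
        h.comp (Polynomial.X + 1) + (g + h)) : Polynomial (ZMod 2)) =
        Polynomial.X * (Polynomial.X + 1) * (g.comp (Polynomial.X + 1) + g) +
        Polynomial.X * (Polynomial.X + 1) * (h.comp (Polynomial.X + 1) + h) := by ring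
    rw [this, map_add, LinearMap.add_apply]
    abel
  | hX k =>
    rw [E_X, In_C, mul_one, sL_E, Io, iota_one, Polynomial.pow_comp, Polynomial.X_comp,
      Polynomial.pow_comp, Polynomial.X_comp]

/-! ### Constant terms -/

theorem X_apply_nil (y : ZMod 2) (p : W) : (X 1 y p) [] = y * p [] := by
  induction p using W_ind' with
  | h0 => simp
  | hadd p q hp hq => rw [map_add, Finsupp.add_apply, hp, hq, Finsupp.add_apply, mul_add]
  | hnil => rw [X_nil]; simp
  | hC k p _ =>
    rcases k with _ | k
    · rw [X_C0, Finsupp.add_apply, C_apply_nil, C_apply_nil, C_apply_nil]; simp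
    · rw [X_C, Finsupp.add_apply, C_apply_nil, C_apply_nil, C_apply_nil]; simp

theorem aeval_comm {A U V : Module.End (ZMod 2) W} (h : ∀ p, A (U p) = V (A p))
    (g : Polynomial (ZMod 2)) (p : W) :
    A (Polynomial.aeval U g p) = Polynomial.aeval V g (A p) := by
  induction g using pind with
  | h0 => simp
  | hadd g h hg hh =>
    rw [av_add, av_add, map_add, hg, hh]
  | hX k =>
    rw [av_pow, av_pow]
    induction k with
    | zero => rfl
    | succ k ih =>
      rw [pow_succ', pow_succ', Module.End.mul_apply, Module.End.mul_apply, h, ih]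

theorem aeval_mem_L (y : ZMod 2) (g : Polynomial (ZMod 2)) {n : ℕ} {p : W}
    (hp : p ∈ L (ZMod 2) n) : Polynomial.aeval (X 1 y) g p ∈ L (ZMod 2) n := by
  induction g using pind with
  | h0 => simp
  | hadd g h hg hh =>
    rw [av_add]
    exact Submodule.add_mem _ hg hh
  | hX k =>
    rw [av_pow]
    exact pow_mem_of_pres (fun p hp => X_mem_L 1 y hp) k p hp

/-- `u = x (x + 1)`. -/
def u : Polynomial (ZMod 2) := Polynomial.X * (Polynomial.X + 1)

theorem aeval_u (U : Module.End (ZMod 2) W) (p : W) : Polynomial.aeval U u p = U (U p) + U p := by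
  rw [u, av_mul, av_X, av_add, av_X, av_one, map_add]

theorem u_nil (y : ZMod 2) : Polynomial.aeval (X 1 y) u (e []) = 0 := by
  rw [aeval_u, X_nil, map_smul, X_nil, smul_smul, zmod2_sq, W_add_self]

theorem u_C0 (y : ZMod 2) (p : W) :
    Polynomial.aeval (X 1 y) u (C 0 p) = C 2 p + C 1 (X 1 y p) := by
  have h1 : X 1 y (C 1 p) = C 2 p + C 0 (X 1 y (X 1 y p) + X 1 y p) := by
    have := X_C 1 y 0 p
    rw [zero_add, pow_one, one_smul] at this
    exact this
  rw [aeval_u]
  simp only [X_C0, one_smul, map_add, h1]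
  have h2 := W_add_self (C 0 (X 1 y (X 1 y p)))
  have h3 := W_add_self (C 0 (X 1 y p))
  have h4 := W_add_self (C 0 p)
  have h5 := W_add_self (C 1 p)
  linear_combination (norm := module) h2 + h3 + h3 + h4 + h5

theorem u_E (y : ZMod 2) (g : Polynomial (ZMod 2)) (p : W) :
    Polynomial.aeval (X 1 y) u (E g p) =
      E (u * g) p + C 1 (Polynomial.aeval (X 1 y) (u * g) p) := by
  have h1 := X_E y (Polynomial.X * g) p
  have h2 := X_E y g p
  have e1 : (Polynomial.X * (Polynomial.X + 1) * (Polynomial.X * g) : Polynomial (ZMod 2)) =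
      Polynomial.X * (u * g) := by rw [u]; ring
  have e2 : (Polynomial.X * (Polynomial.X * g) : Polynomial (ZMod 2)) + Polynomial.X * g =
      u * g := by rw [u]; ring
  rw [e1, av_mul, av_X] at h1
  rw [← u] at h2
  rw [aeval_u]
  have h3 := X_C0 1 y (Polynomial.aeval (X 1 y) (u * g) p)
  rw [one_smul, map_add] at h3
  rw [← e2, E_add, e2, h2, map_add, h1, h3]
  have h4 := W_add_self (C 0 (X 1 y (Polynomial.aeval (X 1 y) (u * g) p)))
  have h5 := W_add_self (C 0 (Polynomial.aeval (X 1 y) (u * g) p))
  linear_combination (norm := module) h4 + h5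

/-- `u(X) p` has no constant term and no word starting with the letter `0`. -/
theorem u_apply (y : ZMod 2) (p : W) : (Polynomial.aeval (X 1 y) u p) [] = 0 ∧
    ∀ w, (Polynomial.aeval (X 1 y) u p) (0 :: w) = 0 := by
  induction p using W_ind' with
  | h0 => simp
  | hadd p q hp hq =>
    rw [map_add]
    refine ⟨?_, fun w => ?_⟩
    · rw [Finsupp.add_apply, hp.1, hq.1, add_zero]
    · rw [Finsupp.add_apply, hp.2, hq.2, add_zero]
  | hnil => rw [u_nil]; exact ⟨rfl, fun w => rfl⟩
  | hC k p _ =>
    rcases k with _ | k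
    · rw [u_C0]
      refine ⟨?_, fun w => ?_⟩
      · rw [Finsupp.add_apply, C_apply_nil, C_apply_nil, add_zero]
      · rw [Finsupp.add_apply, C_apply_cons, C_apply_cons, if_neg (by omega), if_neg (by omega),
          add_zero]
    · rw [← E_X, u_E]
      refine ⟨?_, fun w => ?_⟩
      · rw [Finsupp.add_apply, E_apply_nil, C_apply_nil, add_zero]
      · rw [Finsupp.add_apply, E_apply_zero, C_apply_cons, if_neg (by omega), add_zero]

theorem u_apply_nil (y : ZMod 2) (g : Polynomial (ZMod 2)) (p : W) :
    (Polynomial.aeval (X 1 y) (Polynomial.X * (Polynomial.X + 1) * g) p) [] = 0 := by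
  rw [av_mul]; exact (u_apply y _).1

theorem u_apply_zero (y : ZMod 2) (g : Polynomial (ZMod 2)) (p : W) (w : List ℕ) :
    (Polynomial.aeval (X 1 y) (Polynomial.X * (Polynomial.X + 1) * g) p) (0 :: w) = 0 := by
  rw [av_mul]; exact (u_apply y _).2 w

theorem Io_apply_nil (y : ZMod 2) (k : ℕ) (p : W) : (Io 1 y (k + 1) p) [] = 0 := by
  rw [Io, iota_one]; exact u_apply_nil y _ p

theorem Io_apply_zero (y : ZMod 2) (k : ℕ) (p : W) (w : List ℕ) :
    (Io 1 y (k + 1) p) (0 :: w) = 0 := by
  rw [Io, iota_one]; exact u_apply_zero y _ p w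

/-! ### Lengths -/

theorem sL_mem_L (b : ZMod 2) (k : ℕ) {n : ℕ} {p : W} (hp : p ∈ L (ZMod 2) n) :
    sL b k p ∈ L (ZMod 2) (n + 1) := by
  rcases k with _ | k
  · exact C_mem_L hp
  · rw [sL_E]; exact E_mem_L _ hp

theorem sig_mem_L {n : ℕ} {p : W} (hp : p ∈ L (ZMod 2) n) : sig p ∈ L (ZMod 2) n := by
  refine L_ind (P := fun p => sig p ∈ L (ZMod 2) n) ?_ ?_ ?_ p hp
  · simp
  · intro p q h1 h2; rw [map_add]; exact Submodule.add_mem _ h1 h2
  · intro r w hw
    rw [map_smul]
    apply Submodule.smul_mem
    subst hw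
    clear hp
    induction w with
    | nil => rw [sg_nil]; exact e_mem_L []
    | cons k w ih => rw [← C_e, sg_C]; exact sL_mem_L _ _ ih

theorem dL_mem_L {n k : ℕ} {p : W} (hp : p ∈ L (ZMod 2) (n + 1)) : dL k p ∈ L (ZMod 2) n := by
  rw [mem_L] at hp ⊢
  intro w hw
  rw [dL_apply] at hw
  have := hp _ hw
  rw [List.length_append, List.length_singleton] at this
  omega

theorem mem_H {D : ℕ} {p : W} : p ∈ H D ↔ ∀ w, p w ≠ 0 → w.sum = D := by
  constructor
  · intro h w hw
    exact h (Finsupp.mem_support_iff.mpr hw)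
  · intro h w hw
    exact h w (Finsupp.mem_support_iff.mp hw)

theorem dL_mem_H {D k : ℕ} {p : W} (hp : p ∈ H (D + k)) : dL k p ∈ H D := by
  rw [mem_H] at hp ⊢
  intro w hw
  rw [dL_apply] at hw
  have := hp _ hw
  rw [List.sum_append, List.sum_singleton] at this
  omega

theorem In_e_eq_zero (y : ZMod 2) (w : List ℕ) : ∀ m, w.length < m → In 1 y m (e w) = 0 := by
  induction w with
  | nil =>
    intro m hm
    obtain ⟨m, rfl⟩ : ∃ m', m = m' + 1 := ⟨m - 1, by simp at hm; omega⟩
    exact In_nil 1 y m
  | cons k w ih =>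
    intro m hm
    rw [List.length_cons] at hm
    obtain ⟨m, rfl⟩ : ∃ m', m = m' + 1 := ⟨m - 1, by omega⟩
    rw [← C_e, In_C, ih (m + 1) (by omega), ih m (by omega), map_zero, map_zero, add_zero]

theorem In_eq_zero (y : ZMod 2) {m n : ℕ} {p : W} (hp : p ∈ L (ZMod 2) n) (h : n < m) :
    In 1 y m p = 0 := by
  refine L_ind (P := fun p => In 1 y m p = 0) ?_ ?_ ?_ p hp
  · simp
  · intro p q h1 h2; rw [map_add, h1, h2, add_zero]
  · intro r w hw
    rw [map_smul, In_e_eq_zero y w m (by omega), smul_zero]

theorem In_e_mem_L (y : ZMod 2) (w : List ℕ) : ∀ m n, w.length = n + m →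
    In 1 y m (e w) ∈ L (ZMod 2) n := by
  induction w with
  | nil =>
    intro m n hn
    obtain ⟨rfl, rfl⟩ : n = 0 ∧ m = 0 := by simp at hn; omega
    rw [In_zero]; exact e_mem_L []
  | cons k w ih =>
    intro m n hn
    rw [List.length_cons] at hn
    rcases m with _ | m
    · rw [In_zero]
      have := e_mem_L (R := ZMod 2) (k :: w)
      rw [List.length_cons, hn] at this
      exact this
    · rw [← C_e, In_C]
      refine Submodule.add_mem _ ?_ (aeval_mem_L y _ (ih m n (by omega)))
      rcases n with _ | n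
      · rw [In_e_eq_zero y w (m + 1) (by omega), map_zero]; exact Submodule.zero_mem _
      · exact sL_mem_L _ _ (ih (m + 1) n (by omega))

theorem In_mem_L (y : ZMod 2) {m n : ℕ} {p : W} (hp : p ∈ L (ZMod 2) (n + m)) :
    In 1 y m p ∈ L (ZMod 2) n := by
  refine L_ind (P := fun p => In 1 y m p ∈ L (ZMod 2) n) ?_ ?_ ?_ p hp
  · simp
  · intro p q h1 h2; rw [map_add]; exact Submodule.add_mem _ h1 h2
  · intro r w hw
    rw [map_smul]
    exact Submodule.smul_mem _ _ (In_e_mem_L y w m n hw)

theorem In_repz (y : ZMod 2) (p : W) : ∀ m n : ℕ, (In 1 y m p) (List.replicate n 0) =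
    ((n + m).choose m : ZMod 2) * p (List.replicate (n + m) 0) := by
  induction p using W_ind' with
  | h0 => intro m n; simp
  | hadd p q hp hq =>
    intro m n
    rw [map_add, Finsupp.add_apply, hp, hq, Finsupp.add_apply, mul_add]
  | hnil =>
    intro m n
    rcases m with _ | m
    · rw [In_zero]; simp
    · rw [In_nil]
      rw [show n + (m + 1) = (n + m) + 1 by omega, List.replicate_succ]
      simp [e]
  | hC k p ih =>
    intro m n
    rcases m with _ | m
    · rw [In_zero]; simp
    · rcases k with _ | k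
      · rw [In_C0, Finsupp.add_apply, ih m n]
        rcases n with _ | n
        · rw [List.replicate_zero, C_apply_nil, zero_add, zero_add, zero_add, Nat.choose_self,
            Nat.choose_self, List.replicate_succ, C_apply_cons, if_pos rfl]
        · rw [List.replicate_succ, C_apply_cons, if_pos rfl, ih (m + 1) n,
            show n + 1 + (m + 1) = (n + m + 1) + 1 by omega, List.replicate_succ, C_apply_cons,
            if_pos rfl, Nat.choose_succ_succ (n + m + 1) m,
            show n + (m + 1) = n + m + 1 by omega, show n + 1 + m = n + m + 1 by omega]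
          push_cast
          ring
      · rw [In_C, Finsupp.add_apply, mul_one, sL_E]
        rw [show n + (m + 1) = (n + m) + 1 by omega, List.replicate_succ, C_apply_cons,
          if_neg (by omega), mul_zero]
        rcases n with _ | n
        · rw [List.replicate_zero, E_apply_nil, Io_apply_nil, add_zero]
        · rw [List.replicate_succ, E_apply_zero, Io_apply_zero, add_zero]

/-! ### Commutation with `σ` -/

theorem comp_pow_shift (k : ℕ) (b : ZMod 2) :
    ((Polynomial.X + Polynomial.C b) ^ k : Polynomial (ZMod 2)).comp (Polynomial.X + 1) =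
      (Polynomial.X + Polynomial.C (b + 1)) ^ k := by
  rw [Polynomial.pow_comp, Polynomial.add_comp, Polynomial.X_comp, Polynomial.C_comp,
    Polynomial.C_add, Polynomial.C_1]
  congr 1
  ring

theorem comp_shift_shift (g : Polynomial (ZMod 2)) :
    (g.comp (Polynomial.X + 1)).comp (Polynomial.X + 1) = g := by
  rw [Polynomial.comp_assoc, Polynomial.add_comp, Polynomial.X_comp, Polynomial.one_comp,
    add_assoc, P_add_self, add_zero, Polynomial.comp_X]

theorem sg_C0 (p : W) : sig (C 0 p) = C 0 (sig p) := by rw [sg_C]; rfl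

theorem sig_sL (b : ZMod 2) (k : ℕ) (p : W) : sig (sL b k p) = sL (b + 1) k (sig p) := by
  rcases k with _ | k
  · exact sg_C0 p
  · rw [sL_E, sg_E, comp_pow_shift, sL_E]

theorem sig_sig (p : W) : sig (sig p) = p := by
  induction p using W_ind' with
  | h0 => simp
  | hadd p q hp hq => rw [map_add, map_add, hp, hq]
  | hnil => rw [sg_nil, sg_nil]
  | hC k p ih =>
    rcases k with _ | k
    · rw [sg_C0, sg_C0, ih]
    · rw [← E_X, sg_E, sg_E, comp_shift_shift, ih]

theorem aeval_stable (K : Submodule (ZMod 2) W) {U : Module.End (ZMod 2) W}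
    (hU : ∀ p ∈ K, U p ∈ K) (g : Polynomial (ZMod 2)) (p : W) (hp : p ∈ K) :
    Polynomial.aeval U g p ∈ K := by
  induction g using pind with
  | h0 => simp
  | hadd g h hg hh => rw [av_add]; exact K.add_mem hg hh
  | hX k =>
    rw [av_pow]
    induction k with
    | zero => exact hp
    | succ k ih => rw [pow_succ', Module.End.mul_apply]; exact hU _ ih

theorem aeval_comm_on (K : Submodule (ZMod 2) W) {A U V : Module.End (ZMod 2) W}
    (hU : ∀ p ∈ K, U p ∈ K) (h : ∀ p ∈ K, A (U p) = V (A p))
    (g : Polynomial (ZMod 2)) (p : W) (hp : p ∈ K) :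
    A (Polynomial.aeval U g p) = Polynomial.aeval V g (A p) := by
  induction g using pind with
  | h0 => simp
  | hadd g h hg hh => rw [av_add, map_add, hg, hh, av_add]
  | hX k =>
    induction k with
    | zero => rw [pow_zero, av_one, av_one]
    | succ k ih =>
      rw [pow_succ', av_mul, av_X, h _ (aeval_stable K hU _ p hp), ih, av_mul, av_X]

theorem aeval_shift_on (K : Submodule (ZMod 2) W) {A U V : Module.End (ZMod 2) W}
    (hU : ∀ p ∈ K, U p ∈ K) (h : ∀ p ∈ K, A (U p) = V (A p) + A p)
    (g : Polynomial (ZMod 2)) (p : W) (hp : p ∈ K) :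
    A (Polynomial.aeval U g p) = Polynomial.aeval V (g.comp (Polynomial.X + 1)) (A p) := by
  induction g using pind with
  | h0 => simp
  | hadd g h hg hh => rw [av_add, map_add, hg, hh, Polynomial.add_comp, av_add]
  | hX k =>
    rw [Polynomial.pow_comp, Polynomial.X_comp]
    induction k with
    | zero => rw [pow_zero, pow_zero, av_one, av_one]
    | succ k ih =>
      rw [pow_succ', av_mul, av_X, h _ (aeval_stable K hU _ p hp), ih, pow_succ', av_mul, av_add,
        av_X, av_one]

/-- Induction on the length. -/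
theorem len_ind {P : W → Prop} (h0 : P 0) (hadd : ∀ p q, P p → P q → P (p + q))
    (hnil : P (e [])) (hC : ∀ (n k : ℕ) (p : W), p ∈ L (ZMod 2) n →
      (∀ q ∈ L (ZMod 2) n, P q) → P (C k p)) (p : W) : P p := by
  have key : ∀ n, ∀ q ∈ L (ZMod 2) n, P q := by
    intro n
    induction n with
    | zero =>
      intro q hq
      refine L_ind h0 hadd ?_ q hq
      intro r w hw
      have : w = [] := List.length_eq_zero_iff.mp hw
      subst this
      rcases zmod2_cases r with h | h
      · subst h; simpa using h0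
      · subst h; simpa using hnil
    | succ n ih =>
      intro q hq
      refine L_ind h0 hadd ?_ q hq
      intro r w hw
      rcases w with _ | ⟨k, w⟩
      · simp at hw
      · rcases zmod2_cases r with h | h
        · subst h; simpa using h0
        · subst h
          rw [one_smul, ← C_e]
          refine hC n k _ ?_ ih
          rw [List.length_cons] at hw
          have := e_mem_L (R := ZMod 2) w
          rwa [show w.length = n by omega] at this
  exact W_ind h0 hadd (fun w => key _ _ (e_mem_L w)) p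

theorem u_comp : u.comp (Polynomial.X + 1) = u := by
  rw [u, Polynomial.mul_comp, Polynomial.add_comp, Polynomial.X_comp, Polynomial.one_comp,
    add_assoc, P_add_self 1, add_zero]
  ring

theorem sig_X1 (p : W) : sig (X1 p) = X0 (sig p) + sig p := by
  induction p using len_ind with
  | h0 => simp
  | hadd p q hp hq => rw [map_add, map_add, hp, hq, map_add, map_add]; abel
  | hnil => rw [X_nil, one_smul, sg_nil, X_nil, zero_smul, zero_add]
  | hC n k p hp ih =>
    rcases k with _ | k
    · rw [X_C0, map_add, sg_C0, map_add, ih p hp, sg_C0, X_C0, one_smul, one_smul, sg_C, sL_one]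
      simp only [map_add]
      abel
    · rw [← E_X, X_E, map_add, sg_E, sg_C0, ← u,
        aeval_shift_on (L (ZMod 2) n) (fun q hq => X_mem_L 1 1 hq) ih _ p hp, sg_E, X_E,
        Polynomial.mul_comp, Polynomial.mul_comp, u_comp, Polynomial.X_comp, add_mul, one_mul,
        E_add, ← u]
      abel

theorem sig_aeval (g : Polynomial (ZMod 2)) (p : W) : sig (Polynomial.aeval X1 g p) =
    Polynomial.aeval X0 (g.comp (Polynomial.X + 1)) (sig p) :=
  aeval_shift_on ⊤ (fun _ _ => trivial) (fun p _ => sig_X1 p) g p trivial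

theorem iota_comp (k : ℕ) : (iota (1 : ZMod 2) k).comp (Polynomial.X + 1) = iota 1 k := by
  rcases k with _ | k
  · simp [iota]
  · rw [iota_one, ← u, Polynomial.mul_comp, u_comp, Polynomial.add_comp, comp_shift_shift,
      add_comm (Polynomial.X ^ k : Polynomial (ZMod 2))]

theorem sig_Io (k : ℕ) (p : W) : sig (Io 1 1 k p) = Io 1 0 k (sig p) := by
  rw [Io, Io, sig_aeval, iota_comp]

theorem cast_succ (m : ℕ) : ((m + 1 + 1 : ℕ) : ZMod 2) = (m : ZMod 2) := by
  push_cast
  rw [add_assoc, show (1 : ZMod 2) + 1 = 0 by decide, add_zero]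

theorem In_sL (y : ZMod 2) (m k : ℕ) (b : ZMod 2) (p : W) : In 1 y (m + 1) (sL b k p) =
    sL (b + ((m + 1 : ℕ) : ZMod 2)) k (In 1 y (m + 1) p) + Io 1 y k (In 1 y m p) := by
  rcases k with _ | k
  · rw [sL_zero, In_C0, Io_zero]; rfl
  · rw [sL_E, In_E, sL_E, Io, iota_one]
    have h1 : ((Polynomial.X + Polynomial.C b) ^ k : Polynomial (ZMod 2)).comp
        (Polynomial.X + Polynomial.C ((m + 1 : ℕ) : ZMod 2)) =
        (Polynomial.X + Polynomial.C (b + ((m + 1 : ℕ) : ZMod 2))) ^ k := by
      rw [Polynomial.pow_comp, Polynomial.add_comp, Polynomial.X_comp, Polynomial.C_comp,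
        Polynomial.C_add]
      congr 1
      ring
    rw [h1, comp_pow_shift, Polynomial.pow_comp, Polynomial.X_comp]
    rcases zmod2_cases b with h | h
    · subst h
      simp only [zero_add, Polynomial.C_0, Polynomial.C_1, add_zero]
    · subst h
      rw [show (1 : ZMod 2) + 1 = 0 by decide, Polynomial.C_0, Polynomial.C_1, add_zero,
        add_comm (Polynomial.X ^ k : Polynomial (ZMod 2))]

theorem In_zero_apply (y : ZMod 2) (p : W) : In 1 y 0 p = p := by
  rw [In_zero]; rfl

theorem sig_I1 (m : ℕ) (p : W) : sig (I1 m p) = I0 m (sig p) := by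
  induction p using W_ind' generalizing m with
  | h0 => simp
  | hadd p q hp hq => rw [map_add, map_add, hp, hq, map_add, map_add]
  | hnil =>
    rcases m with _ | m
    · rw [In_zero_apply, In_zero_apply]
    · rw [In_nil, sg_nil, In_nil, map_zero]
  | hC k p ih =>
    rcases m with _ | m
    · rw [In_zero_apply, In_zero_apply]
    · rw [In_C, map_add, mul_one, sig_sL, ih, sig_Io, ih, sg_C, In_sL, add_comm (1 : ZMod 2)]

/-! ### Extraction of a last letter `0` -/

theorem dL0_C0 (p : W) : dL 0 (C 0 p) = C 0 (dL 0 p) + (p []) • e [] := by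
  rw [dL_C, if_pos rfl]

theorem dL0_C (k : ℕ) (p : W) : dL 0 (C (k + 1) p) = C (k + 1) (dL 0 p) := by
  rw [dL_C, if_neg (by omega), zero_smul, add_zero]

theorem dL0_E (g : Polynomial (ZMod 2)) (p : W) : dL 0 (E g p) = E g (dL 0 p) := by
  induction g using pind with
  | h0 => rw [E_zero, E_zero, map_zero]
  | hadd g h hg hh => rw [E_add, map_add, hg, hh, E_add]
  | hX k => rw [E_X, dL0_C]

theorem sig_apply_nil (p : W) : (sig p) [] = p [] := by
  induction p using W_ind' with
  | h0 => simp
  | hadd p q hp hq => rw [map_add, Finsupp.add_apply, hp, hq, Finsupp.add_apply]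
  | hnil => rw [sg_nil]
  | hC k p ih =>
    rcases k with _ | k
    · rw [sg_C0, C_apply_nil, C_apply_nil]
    · rw [← E_X, sg_E, E_apply_nil, E_apply_nil]

theorem dL0_sig (p : W) : dL 0 (sig p) = sig (dL 0 p) := by
  induction p using W_ind' with
  | h0 => simp
  | hadd p q hp hq => rw [map_add, map_add, hp, hq, map_add, map_add]
  | hnil => rw [sg_nil, dL_nil, map_zero]
  | hC k p ih =>
    rcases k with _ | k
    · rw [sg_C0, dL0_C0, ih, dL0_C0, map_add, sg_C0, map_smul, sg_nil, sig_apply_nil]
    · rw [← E_X, sg_E, dL0_E, ih, dL0_E, sg_E]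

theorem dL0_X0 (p : W) : dL 0 (X0 p) = X1 (dL 0 p) := by
  induction p using len_ind with
  | h0 => simp
  | hadd p q hp hq => rw [map_add, map_add, hp, hq, map_add, map_add]
  | hnil => rw [X_nil, zero_smul, map_zero, dL_nil, map_zero]
  | hC n k p hp ih =>
    rcases k with _ | k
    · have h1 := X_C0 1 1 (dL 0 p)
      rw [X_C0, map_add, dL0_C0, dL0_C 0, dL0_C0, map_add X1, h1, map_smul, X_nil,
        Finsupp.add_apply, X_apply_nil, zero_mul, zero_add, map_add (dL 0), ih p hp]
      simp only [one_smul, map_add, zero_add]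
      abel
    · rw [← E_X, X_E, map_add, dL0_E, dL0_C0, u_apply_nil, zero_smul, add_zero,
        aeval_comm_on (L (ZMod 2) n) (fun q hq => X_mem_L 1 0 hq) ih _ p hp, dL0_E, X_E]

theorem dL0_aeval (g : Polynomial (ZMod 2)) (p : W) :
    dL 0 (Polynomial.aeval X0 g p) = Polynomial.aeval X1 g (dL 0 p) :=
  aeval_comm dL0_X0 g p

theorem dL0_sL (b : ZMod 2) (k : ℕ) (p : W) : dL 0 (sL b k p) =
    sL b k (dL 0 p) + (if k = 0 then p [] else 0) • e [] := by
  rcases k with _ | k
  · rw [sL_zero, dL0_C0, if_pos rfl]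
  · rw [sL_E, dL0_E, if_neg (by omega), zero_smul, add_zero]

theorem dL0_apply_nil (p : W) : (dL 0 p) [] = p [0] := rfl

theorem dL0_I0 (m : ℕ) (p : W) : dL 0 (I0 (m + 1) p) =
    I1 (m + 1) (dL 0 p) + dL 0 (sig (I1 m (dL 0 p))) := by
  induction p using W_ind' generalizing m with
  | h0 => simp
  | hadd p q hp hq => simp only [map_add] at hp hq ⊢; rw [hp, hq]; abel
  | hnil => rw [In_nil, dL_nil]; simp
  | hC k p ih =>
    have h3 := In_repz 0 p (m + 1) 0
    have h4 := In_repz 1 (dL 0 p) m 0
    rw [zero_add, Nat.choose_self, Nat.cast_one, one_mul, List.replicate_zero] at h3 h4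
    have h5 : (dL 0 p) (List.replicate m 0) = p (List.replicate (m + 1) 0) := by
      rw [dL_apply, List.replicate_succ']
    rw [In_C, map_add, mul_one, dL0_sL, ih, dL_C]
    have h2 : dL 0 (Io 1 0 k (I0 m p)) = Io 1 1 k (dL 0 (I0 m p)) := by
      rw [Io, dL0_aeval]; rfl
    have h6 : dL 0 (sig (I1 m (C k (dL 0 p) + (if k = 0 then p [] else 0) • e []))) =
        dL 0 (sig (I1 m (C k (dL 0 p)))) := by
      rw [map_add, map_add, map_add, map_smul, map_smul]
      rcases m with _ | m
      · rw [In_zero_apply, In_zero_apply, sg_nil, map_smul, dL_nil, smul_zero, add_zero]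
      · rw [In_nil, map_zero, smul_zero, map_zero, add_zero]
    rw [h2, h6, map_add (I1 (m + 1)), map_smul, In_nil, smul_zero, add_zero, In_C, mul_one]
    have h7 : dL 0 (sig (I1 m (C k (dL 0 p)))) =
        sL (((m + 1 : ℕ) : ZMod 2)) k (dL 0 (sig (I1 m (dL 0 p)))) +
          (if k = 0 then (dL 0 p) (List.replicate m 0) else 0) • e [] +
          (Io 1 1 k (dL 0 (I0 m p)) + Io 1 1 k (I1 m (dL 0 p))) := by
      rcases m with _ | m
      · rw [In_zero_apply, In_zero_apply, In_zero_apply, W_add_self, add_zero, sg_C, dL0_sL,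
          sig_apply_nil, zero_add, Nat.cast_one]
        rfl
      · rw [In_C, mul_one, map_add, map_add, sig_sL, dL0_sL, sig_apply_nil, h4, sig_Io]
        have h8 : dL 0 (Io 1 0 k (sig (I1 m (dL 0 p)))) =
            Io 1 1 k (dL 0 (sig (I1 m (dL 0 p)))) := by
          rw [Io, dL0_aeval]; rfl
        have h9 : dL 0 (I0 (m + 1) p) + I1 (m + 1) (dL 0 p) = dL 0 (sig (I1 m (dL 0 p))) := by
          rw [ih m, add_comm, ← add_assoc, W_add_self, zero_add]
        rw [h8, ← map_add (Io 1 1 k), h9]
        push_cast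
        rfl
    rw [h7, h3, h5, map_add (sL (((m + 1 : ℕ) : ZMod 2)) k)]
    have h9 := W_add_self (Io 1 1 k (I1 m (dL 0 p)))
    linear_combination (norm := module) -h9

theorem G_I0 (m : ℕ) (p : W) : G (I0 (m + 1) p) = I0 (m + 1) (G p) + G (I0 m (G p)) := by
  have h1 : ∀ q, G q = sig (dL 0 q) := fun q => rfl
  rw [h1, dL0_I0, map_add, sig_I1, h1, h1, sig_I1]

theorem G_eq (p : W) : G p = sig (dL 0 p) := rfl

/-! ### `I_m X = (X + m) I_m` -/

theorem comp_add_C (g : Polynomial (ZMod 2)) (b c : ZMod 2) :
    (g.comp (Polynomial.X + Polynomial.C b)).comp (Polynomial.X + Polynomial.C c) =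
      g.comp (Polynomial.X + Polynomial.C (b + c)) := by
  rw [Polynomial.comp_assoc, Polynomial.add_comp, Polynomial.X_comp, Polynomial.C_comp,
    Polynomial.C_add]
  congr 1
  ring

theorem u_comp_C (b : ZMod 2) : u.comp (Polynomial.X + Polynomial.C b) = u := by
  rcases zmod2_cases b with h | h
  · subst h; rw [Polynomial.C_0, add_zero, Polynomial.comp_X]
  · subst h; rw [Polynomial.C_1, u_comp]

/-- A weak form of `In_X` on a submodule implies the polynomial form. -/
theorem In_aeval_on (K : Submodule (ZMod 2) W) (y : ZMod 2) (m : ℕ)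
    (hU : ∀ p ∈ K, X 1 y p ∈ K)
    (h : ∀ p ∈ K, In 1 y m (X 1 y p) = X 1 y (In 1 y m p) + (m : ZMod 2) • In 1 y m p)
    (g : Polynomial (ZMod 2)) (p : W) (hp : p ∈ K) :
    In 1 y m (Polynomial.aeval (X 1 y) g p) = Polynomial.aeval (X 1 y)
      (g.comp (Polynomial.X + Polynomial.C (m : ZMod 2))) (In 1 y m p) := by
  rcases zmod2_cases (m : ZMod 2) with h0 | h0
  · rw [h0, Polynomial.C_0, add_zero, Polynomial.comp_X]
    refine aeval_comm_on K hU (fun q hq => ?_) g p hp
    rw [h q hq, h0, zero_smul, add_zero]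
  · rw [h0, Polynomial.C_1]
    refine aeval_shift_on K hU (fun q hq => ?_) g p hp
    rw [h q hq, h0, one_smul]

theorem In_X (y : ZMod 2) (m : ℕ) (p : W) : In 1 y m (X 1 y p) =
    X 1 y (In 1 y m p) + (m : ZMod 2) • In 1 y m p := by
  induction p using len_ind generalizing m with
  | h0 => simp
  | hadd p q hp hq => simp only [map_add, smul_add]; rw [hp, hq]; abel
  | hnil =>
    rcases m with _ | m
    · rw [In_zero_apply, In_zero_apply, Nat.cast_zero, zero_smul, add_zero]
    · rw [X_nil, map_smul, In_nil]; simp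
  | hC n k p hp ih =>
    rcases m with _ | m
    · rw [In_zero_apply, In_zero_apply, Nat.cast_zero, zero_smul, add_zero]
    · have key := fun m => In_aeval_on (L (ZMod 2) n) y m (fun q hq => X_mem_L 1 y hq)
        (fun q hq => ih q hq m)
      rcases k with _ | k
      · rw [X_C0, map_add, In_C0, In_C1, In_C0, one_smul, map_add (X 1 y), X_C0, one_smul]
        simp only [map_add]
        rw [ih p hp, ih p hp]
        simp only [map_add, map_smul, smul_add]
        push_cast
        module
      · rw [← E_X]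
        generalize (Polynomial.X ^ k : Polynomial (ZMod 2)) = g
        have hm : (((m + 1 : ℕ)) : ZMod 2) = (m : ZMod 2) + 1 := by push_cast; rfl
        have e1 : (Polynomial.X * g).comp
            (Polynomial.X + Polynomial.C (((m + 1 : ℕ)) : ZMod 2)) =
            Polynomial.X * g.comp (Polynomial.X + Polynomial.C (((m + 1 : ℕ)) : ZMod 2)) +
            (((m + 1 : ℕ)) : ZMod 2) • g.comp
              (Polynomial.X + Polynomial.C (((m + 1 : ℕ)) : ZMod 2)) := by
          rw [Polynomial.mul_comp, Polynomial.X_comp, Polynomial.smul_eq_C_mul]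
          ring
        have e2 : u * ((Polynomial.X * g).comp (Polynomial.X + 1) + Polynomial.X * g) +
            u * g.comp (Polynomial.X + Polynomial.C (m : ZMod 2)) =
            Polynomial.X * (u * (g.comp (Polynomial.X + 1) + g)) + (((m + 1 : ℕ)) : ZMod 2) •
              (u * (g.comp (Polynomial.X + 1) + g)) := by
          rw [Polynomial.mul_comp, Polynomial.X_comp, Polynomial.smul_eq_C_mul, hm]
          rcases zmod2_cases (m : ZMod 2) with h0 | h0
          · rw [h0, Polynomial.C_0, add_zero, Polynomial.comp_X, zero_add, Polynomial.C_1]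
            ring
          · rw [h0, show (1 : ZMod 2) + 1 = 0 by decide, Polynomial.C_0, Polynomial.C_1]
            have := P_add_self (u * g.comp (Polynomial.X + 1))
            linear_combination this
        have h1 := key (m + 1) (u * g) p hp
        have h2 := key m (u * g) p hp
        rw [Polynomial.mul_comp, u_comp_C] at h1 h2
        rw [X_E, map_add, In_E, ← u, e1, In_C0, h1, h2, In_E, ← u, map_add (X 1 y), X_E, ← u,
          E_add, ← EL_apply (_ • _), map_smul, EL_apply]
        have e3 := congrArg (fun f => Polynomial.aeval (X 1 y) f (In 1 y m p)) e2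
        rw [av_add, av_add, av_mul _ Polynomial.X, av_X, map_smul] at e3
        rw [LinearMap.smul_apply] at e3 ⊢
        rw [smul_add]
        linear_combination (norm := module) e3

end

end Pool.Agent.ECU
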