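import Pool.Agent.ECU.TS3

/-!
# Insertion operators over `𝔽₂`, `a = 1`: the second key lemma

`TS'`: if `P` is homogeneous and all insertions of `P c₂` are combinations of words in `c₁, c₂`
ending with `c₂`, then `P` is a combination of words in `c₁, c₂`.
-/

set_option autoImplicit false

namespace Pool.Agent.ECU.TS

open Finset Pool.Agent.ECU

noncomputable section

/-- Combinations of words in the letters `0, 1`. -/
def MA : Submodule (ZMod 2) W :=
  Finsupp.supported (ZMod 2) (ZMod 2) {w : List ℕ | ∀ a ∈ w, a ≤ 1}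

/-- Combinations of words in the letters `0, 1` ending with the letter `1`. -/
def MA1 : Submodule (ZMod 2) W :=
  Finsupp.supported (ZMod 2) (ZMod 2) {w : List ℕ | ∃ v, (∀ a ∈ v, a ≤ 1) ∧ w = v ++ [1]}

theorem mem_MA {p : W} : p ∈ MA ↔ ∀ w, p w ≠ 0 → ∀ a ∈ w, a ≤ 1 := mem_supp

theorem mem_MA1 {p : W} : p ∈ MA1 ↔ ∀ w, p w ≠ 0 → ∃ v, (∀ a ∈ v, a ≤ 1) ∧ w = v ++ [1] :=
  mem_supp

theorem MA1_C {j : ℕ} (hj : j ≤ 1) {p : W} (hp : p ∈ MA1) : C j p ∈ MA1 := by
  rw [mem_MA1]
  intro w hw
  rcases w with _ | ⟨a, w⟩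
  · rw [C_apply_nil] at hw; exact absurd rfl hw
  · rw [C_apply_cons] at hw
    split_ifs at hw with h
    · obtain ⟨v, h1, h2⟩ := mem_MA1.mp hp _ hw
      refine ⟨a :: v, ?_, by rw [h2]; rfl⟩
      intro b hb
      rcases List.mem_cons.mp hb with rfl | hb
      · omega
      · exact h1 b hb
    · exact absurd rfl hw

theorem MA_C {j : ℕ} (hj : j ≤ 1) {p : W} (hp : p ∈ MA) : C j p ∈ MA := by
  rw [mem_MA]
  intro w hw
  rcases w with _ | ⟨a, w⟩
  · rw [C_apply_nil] at hw; exact absurd rfl hw
  · rw [C_apply_cons] at hw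
    split_ifs at hw with h
    · intro b hb
      rcases List.mem_cons.mp hb with rfl | hb
      · omega
      · exact mem_MA.mp hp _ hw b hb
    · exact absurd rfl hw

theorem MA1_dF {p : W} (hp : p ∈ MA1) : dF 0 p ∈ MA1 := by
  rw [mem_MA1]
  intro w hw
  rw [dF_apply] at hw
  obtain ⟨v, h1, h2⟩ := mem_MA1.mp hp _ hw
  rcases v with _ | ⟨a, v⟩
  · simp at h2
  · rw [List.cons_append] at h2
    exact ⟨v, fun b hb => h1 b (List.mem_cons_of_mem _ hb), (List.cons.inj h2).2⟩

theorem MA1_In {p : W} (hp : p ∈ MA1) : ∀ m, I0 m p ∈ MA1 := by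
  refine supp_ind (P := fun p => ∀ m, I0 m p ∈ MA1) ?_ ?_ ?_ p hp
  · intro m; rw [map_zero]; exact Submodule.zero_mem _
  · intro p q h1 h2 m
    rw [map_add]; exact Submodule.add_mem _ (h1 m) (h2 m)
  · rintro r w ⟨v, hv, rfl⟩ m
    rw [map_smul]
    apply Submodule.smul_mem
    induction v generalizing m with
    | nil =>
      rcases m with _ | m
      · rw [I0_zero]
        exact Finsupp.single_mem_supported _ _ ⟨[], by simp, rfl⟩
      · have := In_letter m 0
        rw [List.nil_append]
        rw [this]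
        exact Submodule.zero_mem _
    | cons a v ih =>
      have ih' := ih (fun b hb => hv b (List.mem_cons_of_mem _ hb))
      have ha := hv a List.mem_cons_self
      rw [List.cons_append, ← C_e]
      rcases m with _ | m
      · rw [I0_zero]
        refine MA1_C ha ?_
        have := ih' 0
        rwa [I0_zero] at this
      · rcases a with _ | a
        · rw [In_C0]
          exact Submodule.add_mem _ (MA1_C (by omega) (ih' _)) (ih' _)
        · obtain rfl : a = 0 := by omega
          rw [In_C1]
          exact MA1_C le_rfl (ih' _)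

theorem rc_apply (p : W) (w : List ℕ) : (PL.rc 1 p) (w ++ [1]) = p w := by
  have := PL.dL_rc 1 p
  rw [← dL_apply, this]

theorem rc_supp {p : W} {w : List ℕ} (hw : (PL.rc 1 p) w ≠ 0) : ∃ v, w = v ++ [1] ∧ p v ≠ 0 := by
  have h : PL.rc 1 p ∈ Finsupp.supported (ZMod 2) (ZMod 2) {w : List ℕ | ∃ v, w = v ++ [1]} := by
    induction p using W_ind with
    | h0 => simp
    | hadd p q hp hq =>
      rw [map_add]
      have hz : ∀ p : W, PL.rc 1 p ∈ Finsupp.supported (ZMod 2) (ZMod 2)
          {w : List ℕ | ∃ v, w = v ++ [1]} := by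
        intro p
        rw [mem_supp]
        intro w hw
        by_contra h
        apply hw
        rw [PL.rc, Finsupp.lmapDomain_apply]
        apply Finsupp.mapDomain_of_notMem_range
        rintro ⟨v, hv⟩
        exact h ⟨v, hv.symm⟩
      exact Submodule.add_mem _ (hz p) (hz q)
    | he w =>
      rw [PL.rc_e]
      exact Finsupp.single_mem_supported _ _ ⟨w, rfl⟩
  obtain ⟨v, rfl⟩ := mem_supp.mp h w hw
  exact ⟨v, rfl, by rwa [rc_apply] at hw⟩

theorem dF_rc (p : W) : dF 0 (PL.rc 1 p) = PL.rc 1 (dF 0 p) := by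
  induction p using W_ind' with
  | h0 => simp
  | hadd p q hp hq => simp only [map_add]; rw [hp, hq]
  | hnil =>
    rw [PL.rc_e, List.nil_append, ← C_e, dF_C, dF_nil, map_zero, if_neg (by omega)]
  | hC k p _ =>
    rw [PL.rc_C, dF_C, dF_C]
    split_ifs
    · rfl
    · rw [map_zero]

theorem dF_pow_rc (i : ℕ) (p : W) : (dF 0 ^ i) (PL.rc 1 p) = PL.rc 1 ((dF 0 ^ i) p) := by
  induction i with
  | zero => rfl
  | succ i ih => rw [pow_succ', Module.End.mul_apply, ih, dF_rc, Module.End.mul_apply]

theorem pow_dF_apply (i : ℕ) (p : W) (w : List ℕ) :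
    ((dF 0 ^ i) p) w = p (List.replicate i 0 ++ w) := by
  induction i generalizing w with
  | zero => simp
  | succ i ih =>
    rw [pow_succ', Module.End.mul_apply, dF_apply, ih]
    have : List.replicate i 0 ++ 0 :: w = List.replicate (i + 1) 0 ++ w := by
      rw [List.replicate_succ', List.append_assoc]; rfl
    rw [this]

theorem rc_MA1 {p : W} (hp : p ∈ MA) : PL.rc 1 p ∈ MA1 := by
  rw [mem_MA1]
  intro w hw
  obtain ⟨v, rfl, hv⟩ := rc_supp hw
  exact ⟨v, mem_MA.mp hp v hv, rfl⟩

theorem rc_mem_L {n : ℕ} {p : W} (hp : p ∈ L (ZMod 2) n) : PL.rc 1 p ∈ L (ZMod 2) (n + 1) := by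
  rw [mem_L]
  intro w hw
  obtain ⟨v, rfl, hv⟩ := rc_supp hw
  rw [List.length_append, List.length_singleton, mem_L.mp hp v hv]

theorem rc_mem_H {D : ℕ} {p : W} (hp : p ∈ H D) : PL.rc 1 p ∈ H (D + 1) := by
  rw [mem_H]
  intro w hw
  obtain ⟨v, rfl, hv⟩ := rc_supp hw
  rw [List.sum_append, List.sum_singleton, mem_H.mp hp v hv]

theorem rc_LG (p : W) : PL.rc 1 p ∈ LG (0 + 1) := by
  rw [mem_LG]
  intro w hw
  obtain ⟨v, rfl, hv⟩ := rc_supp hw
  exact ⟨v, 1, rfl, le_rfl⟩

/-- The words of `p` with first letter `≥ 2`. -/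
def res2 (p : W) : W := p + C 0 (dF 0 p) + C 1 (dF 1 p)

theorem res2_apply_nil (p : W) : (res2 p) [] = p [] := by
  rw [res2, Finsupp.add_apply, Finsupp.add_apply, C_apply_nil, C_apply_nil, add_zero, add_zero]

theorem res2_apply_cons (p : W) (a : ℕ) (w : List ℕ) :
    (res2 p) (a :: w) = if 2 ≤ a then p (a :: w) else 0 := by
  rw [res2, Finsupp.add_apply, Finsupp.add_apply, C_apply_cons, C_apply_cons, dF_apply, dF_apply]
  rcases a with _ | a
  · rw [if_pos rfl, if_neg (by omega), if_neg (by omega), add_zero, zmod2_add_self]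
  · rcases a with _ | a
    · simp only [zero_add]
      rw [if_neg (by omega), if_pos trivial, if_neg (by omega), add_zero, zmod2_add_self]
    · rw [if_neg (by omega), if_neg (by omega), if_pos (by omega), add_zero, add_zero]

/-- The key lemma, all `m ≥ 1`. -/
theorem TSaux (n : ℕ) : ∀ (D : ℕ) (P : W), P ∈ L (ZMod 2) n → P ∈ H D →
    (∀ m, 1 ≤ m → I0 m (PL.rc 1 P) ∈ MA1) → P ∈ MA := by
  induction n using Nat.strong_induction_on with
  | _ n IH =>
  intro D P hL hH hI
  rcases n with _ | n
  · rw [mem_MA]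
    intro w hw
    have : w = [] := List.length_eq_zero_iff.mp (mem_L.mp hL w hw)
    subst this
    simp
  · -- step (i)
    have step1 : ∀ d i, 1 ≤ i → n + 1 < i + d → (dF 0 ^ i) P ∈ MA := by
      intro d
      induction d with
      | zero =>
        intro i hi h
        rw [mem_MA]
        intro w hw
        rw [pow_dF_apply] at hw
        have h1 := mem_L.mp hL _ hw
        rw [List.length_append, List.length_replicate] at h1
        omega
      | succ d ihd =>
        intro i hi h
        by_cases hN : n + 1 < i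
        · exact ihd i hi (by omega)
        · have h1 := comm_mod (dF 0) dF_In MA1 (fun p hp => MA1_dF hp) (fun m p hp => MA1_In hp m)
            i (PL.rc 1 P) (fun i' hi' => by
              rw [dF_pow_rc]; exact rc_MA1 (ihd i' (by omega) (by omega)))
          obtain ⟨n', hn'⟩ : ∃ n', n' + i = n + 1 := ⟨n + 1 - i, by omega⟩
          refine IH n' (by omega) D _ ?_ ?_ ?_
          · rw [mem_L]
            intro w hw
            rw [pow_dF_apply] at hw
            have hl := mem_L.mp hL _ hw
            rw [List.length_append, List.length_replicate] at hl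
            omega
          · rw [mem_H]
            intro w hw
            rw [pow_dF_apply] at hw
            have hl := mem_H.mp hH _ hw
            rwa [List.sum_append, List.sum_replicate, smul_zero, zero_add] at hl
          · intro m hm
            have h2 : (dF 0 ^ i) (I0 m (PL.rc 1 P)) ∈ MA1 := by
              have h3 := hI m hm
              clear h1 ihd h hN hn' hi
              induction i with
              | zero => exact h3
              | succ i ih =>
                rw [pow_succ', Module.End.mul_apply]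
                exact MA1_dF ih
            have h3 := MA1.add_mem (h1 m) h2
            rw [← dF_pow_rc]
            convert h3 using 1
            linear_combination (norm := (match_scalars <;>
              first | ring1 | (ring_nf; reduce_mod_char) | reduce_mod_char)) (1 : ZMod 2) • (dbl ((dF 0 ^ i) (I0 m (PL.rc 1 P))))
    have hB : dF 0 P ∈ MA := by
      have := step1 (n + 1) 1 le_rfl (by omega)
      rwa [pow_one] at this
    -- step (ii)
    set B := dF 0 P with hBdef
    set q := dF 1 P with hqdef
    set Y := res2 P with hYdef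
    have hYL : Y ∈ L (ZMod 2) (n + 1) := by
      rw [mem_L]
      intro w hw
      rcases w with _ | ⟨a, w⟩
      · rw [res2_apply_nil] at hw
        exact mem_L.mp hL _ hw
      · rw [res2_apply_cons] at hw
        split_ifs at hw with h
        · exact mem_L.mp hL _ hw
        · exact absurd rfl hw
    have hYH : Y ∈ H D := by
      rw [mem_H]
      intro w hw
      rcases w with _ | ⟨a, w⟩
      · rw [res2_apply_nil] at hw
        exact mem_H.mp hH _ hw
      · rw [res2_apply_cons] at hw
        split_ifs at hw with h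
        · exact mem_H.mp hH _ hw
        · exact absurd rfl hw
    have hYF : Y ∈ F2S := by
      rw [mem_F2S]
      intro w hw
      rcases w with _ | ⟨a, w⟩
      · have := mem_L.mp hYL _ hw
        simp at this
      · rw [res2_apply_cons] at hw
        split_ifs at hw with h
        · exact ⟨a - 2, w, by congr 1; omega⟩
        · exact absurd rfl hw
    have hP : P = C 0 B + C 1 q + Y := by
      rw [hYdef, res2]
      linear_combination (norm := (match_scalars <;>
        first | ring1 | (ring_nf; reduce_mod_char) | reduce_mod_char)) (1 : ZMod 2) • (dbl (C 0 (dF 0 P)) + dbl (C 1 (dF 1 P)))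
    have hYdF : dF 0 (PL.rc 1 Y) = 0 := by
      rw [dF_rc]
      have : dF 0 Y = 0 := by
        ext w
        rw [dF_apply, hYdef, res2_apply_cons, if_neg (by omega)]; rfl
      rw [this, map_zero]
    have hrcF : PL.rc 1 Y ∈ F2S := by
      rw [mem_F2S]
      intro w hw
      obtain ⟨v, rfl, hv⟩ := rc_supp hw
      obtain ⟨j, v', rfl⟩ := mem_F2S.mp hYF _ hv
      exact ⟨j, v' ++ [1], rfl⟩
    have hIrc : ∀ m, 1 ≤ m → I0 m (PL.rc 1 Y) ∈ F1S := by
      intro m hm
      rw [mem_F1S]
      intro w hw
      rcases w with _ | ⟨a, w⟩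
      · exfalso; apply hw
        rw [In_apply_nil, LG_rep le_rfl (rc_LG Y)]
      · obtain ⟨m, rfl⟩ : ∃ m', m = m' + 1 := ⟨m - 1, by omega⟩
        rcases a with _ | a
        · exfalso; apply hw
          rw [← dF_apply, dF_In, hYdF, map_zero, map_zero, map_zero, add_zero]; rfl
        · rcases a with _ | a
          · exact ⟨w, rfl⟩
          · exfalso
            have h1 := hI (m + 1) hm
            rw [hP, map_add, map_add, map_add, map_add, PL.rc_C, PL.rc_C, In_C1] at h1
            have h2 := MA1_In (MA1_C (j := 0) (by omega) (rc_MA1 hB)) (m + 1)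
            have h3 := MA1.add_mem h1 h2
            have h4 : I0 (m + 1) (C 0 (PL.rc 1 B)) + C 1 (I0 (m + 1) (PL.rc 1 q)) +
                I0 (m + 1) (PL.rc 1 Y) + I0 (m + 1) (C 0 (PL.rc 1 B)) =
                C 1 (I0 (m + 1) (PL.rc 1 q)) + I0 (m + 1) (PL.rc 1 Y) := by
              linear_combination (norm := (match_scalars <;>
                first | ring1 | (ring_nf; reduce_mod_char) | reduce_mod_char)) (1 : ZMod 2) • (dbl (I0 (m + 1) (C 0 (PL.rc 1 B))))
            rw [h4] at h3
            have h5 : (C 1 (I0 (m + 1) (PL.rc 1 q)) + I0 (m + 1) (PL.rc 1 Y) : W)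
                ((a + 1 + 1) :: w) ≠ 0 := by
              rw [Finsupp.add_apply, C_apply_cons, if_neg (by omega), zero_add]
              exact hw
            obtain ⟨v, hv1, hv2⟩ := mem_MA1.mp h3 _ h5
            rcases v with _ | ⟨b, v⟩
            · have := (List.cons.inj hv2).1
              omega
            · have h6 := (List.cons.inj hv2).1
              have h7 := hv1 b List.mem_cons_self
              omega
    have hY0 : Y = 0 := by
      refine CW n D Y hYL hYH hYF ?_ ?_
      · intro m hm
        have h1 := (F1 (k := 0 + 1) le_rfl m (PL.rc 1 Y) (rc_LG Y)).2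
        rw [zero_add, PL.dL_rc] at h1
        have h3 : (I0 m Y) [] = 0 := by
          rw [In_apply_nil, F2S_rep hYF]
        rw [← h1] at h3 ⊢
        exact dL_F1S _ (hIrc m hm) h3
      · have h1 := F2 0 n D (PL.rc 1 Y) (rc_LG Y) (rc_mem_L hYL) (rc_mem_H hYH) hrcF
        rw [← List.cons_append, rc_apply] at h1
        rw [← h1]
        by_contra h
        obtain ⟨v, hv⟩ := mem_F1S.mp (hIrc (n + 1) (by omega)) _ h
        have := (List.cons.inj hv).1
        omega
    -- step (iii)
    rw [hY0, add_zero] at hP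
    have hqL : q ∈ L (ZMod 2) n := by
      rw [mem_L]
      intro w hw
      have := mem_L.mp hL (1 :: w) hw
      rw [List.length_cons] at this
      omega
    have hqH : q ∈ H (D - 1) := by
      rw [mem_H]
      intro w hw
      have := mem_H.mp hH (1 :: w) hw
      rw [List.sum_cons] at this
      omega
    have hq : q ∈ MA := by
      refine IH n (by omega) (D - 1) q hqL hqH ?_
      intro m hm
      obtain ⟨m, rfl⟩ : ∃ m', m = m' + 1 := ⟨m - 1, by omega⟩
      have h1 := hI (m + 1) hm
      rw [hP, map_add, map_add, PL.rc_C, PL.rc_C, In_C1] at h1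
      have h2 := MA1_In (MA1_C (j := 0) (by omega) (rc_MA1 hB)) (m + 1)
      have h3 := MA1.add_mem h1 h2
      have h4 : I0 (m + 1) (C 0 (PL.rc 1 B)) + C 1 (I0 (m + 1) (PL.rc 1 q)) +
          I0 (m + 1) (C 0 (PL.rc 1 B)) = C 1 (I0 (m + 1) (PL.rc 1 q)) := by
        linear_combination (norm := (match_scalars <;>
          first | ring1 | (ring_nf; reduce_mod_char) | reduce_mod_char)) (1 : ZMod 2) • (dbl (I0 (m + 1) (C 0 (PL.rc 1 B))))
      rw [h4] at h3
      rw [mem_MA1]
      intro w hw
      have h5 : w ≠ [] := by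
        rintro rfl
        apply hw
        rw [In_apply_nil, LG_rep le_rfl (rc_LG q)]
      have h6 : (C 1 (I0 (m + 1) (PL.rc 1 q)) : W) (1 :: w) ≠ 0 := by
        rw [C_apply_cons, if_pos rfl]; exact hw
      obtain ⟨v, hv1, hv2⟩ := mem_MA1.mp h3 _ h6
      rcases v with _ | ⟨b, v⟩
      · exact absurd (List.cons.inj hv2).2 h5
      · exact ⟨v, fun c hc => hv1 c (List.mem_cons_of_mem _ hc), (List.cons.inj hv2).2⟩
    rw [hP]
    exact MA.add_mem (MA_C (by omega) hB) (MA_C le_rfl hq)

/-- The key lemma. -/
theorem TS' (n D : ℕ) (P : W) (hL : P ∈ L (ZMod 2) n) (hH : P ∈ H D)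
    (h : ∀ m, 1 ≤ m → m ≤ n → In 1 0 m (PL.rc 1 P) ∈ MA1) : P ∈ MA := by
  refine TSaux n D P hL hH ?_
  intro m hm
  by_cases hmn : m ≤ n
  · exact h m hm hmn
  · by_cases hmn' : m = n + 1
    · subst hmn'
      rw [I0_scalar (rc_mem_L hL), LG_rep le_rfl (rc_LG P), zero_smul]
      exact MA1.zero_mem
    · rw [In_eq_zero 0 (rc_mem_L hL) (by omega)]
      exact MA1.zero_mem

end

end Pool.Agent.ECU.TS
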