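import Pool.Agent.ECU.Lie
import Pool.Agent.ECU.Ops
import Pool.Agent.ECU.Inter
import Pool.Agent.ECU.TS4

/-!
# The lemma C0
-/

set_option autoImplicit false

namespace Pool.Agent.ECU

open Finset Pool.Agent.ECB

noncomputable section

/-- The statement TS'. -/
def TSp : Prop := ∀ (n D : ℕ) (P : W), P ∈ L (ZMod 2) n → P ∈ H D →
  (∀ m, 1 ≤ m → m ≤ n → ∀ w, (I0 m (Ap 1 P)) w ≠ 0 → ∀ k ∈ w, k ≤ 1) →
  ∀ w, P w ≠ 0 → ∀ k ∈ w, k ≤ 1

theorem rc_eq_Ap (k : ℕ) (P : W) : PL.rc k P = Ap k P := rfl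

/-- TS' (helper11's theorem) in the form used here. -/
theorem tsp : TSp := by
  intro n D P hP hD h
  rw [← TS.mem_MA]
  apply TS.TS' n D P hP hD
  intro m hm hmn
  rw [TS.mem_MA1]
  intro w hw
  have h1 : lastpos w = true := mem_N0'.mp (I0_mem_N0 m (Ap1_mem_N0 P)) w hw
  obtain ⟨v, k, rfl⟩ := (lastpos_iff w).mp h1
  have h2 := h m hm hmn _ hw
  have h3 : k = 0 := by
    have := h2 (k + 1) (by simp)
    omega
  subst h3
  exact ⟨v, fun a ha => h2 a (by simp [ha]), rfl⟩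

theorem smul_e1_ok {c : ZMod 2} {Q : W} (h : Q = c • e [1]) :
    ∀ w, Q w ≠ 0 → ∀ k ∈ w, k ≤ 1 := by
  intro w hw k hk
  rw [h, Finsupp.smul_apply, e, Finsupp.single_apply] at hw
  by_cases h1 : [1] = w
  · subst h1
    simp at hk
    omega
  · rw [if_neg h1, smul_zero] at hw
    exact absurd rfl hw

/-- C0, first convention: the letters are `c₁ ↦ s`, `c_{k+2} ↦ d(x^{k+2} + x^{k+1})`. -/
theorem c0_main (hTS : TSp) {n D : ℕ} {P : W} (hP : P ∈ L (ZMod 2) n) (hD : P ∈ H D)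
    (h : ∀ u v : List (Fin 2), u ≠ [] → v ≠ [] → sh (PL.iotaU P) u v = 0) :
    ∀ w, P w ≠ 0 → ∀ k ∈ w, k ≤ 1 := by
  apply hTS n D P hP hD
  intro m hm _
  obtain ⟨c, hc, _⟩ := PL.In_rc_of_lie hP h m hm
  exact smul_e1_ok hc

theorem sg_Ap1 (P : W) : sg 1 (Ap 1 P) = Ap 1 (sg 1 P) := by
  rw [← rc_eq_Ap, ← rc_eq_Ap]
  have : (sg (1 : ZMod 2)) ∘ₗ (PL.rc 1) = (PL.rc 1) ∘ₗ (sg 1) := by
    apply hom_ext
    intro w
    rw [LinearMap.comp_apply, LinearMap.comp_apply]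
    induction w with
    | nil =>
      rw [sg_nil, PL.rc_e, List.nil_append]
      have : (e [1] : W) = C 1 (e []) := by rw [C_e]
      rw [this, sg_C, sL_one, sg_nil]
    | cons k w ih =>
      rw [← C_e, PL.rc_C, sg_C, sg_C, ih]
      rcases k with _ | k
      · rw [PL.sL_zero, PL.rc_C]
      · simp only [sL, LinearMap.sum_apply, LinearMap.smul_apply, map_sum, map_smul, PL.rc_C]
  exact LinearMap.congr_fun this P

/-- C0, second convention: the letters are `c₁ ↦ s`, `c_{k+2} ↦ d(x (x + 1)^{k+1})`. -/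
theorem c0_main' (hTS : TSp) {n D : ℕ} {P : W} (hP : P ∈ L (ZMod 2) n) (hD : P ∈ H D)
    (h : ∀ u v : List (Fin 2), u ≠ [] → v ≠ [] → sh (PL.iotaU (sg 1 P)) u v = 0) :
    ∀ w, P w ≠ 0 → ∀ k ∈ w, k ≤ 1 := by
  apply hTS n D P hP hD
  intro m hm _
  have hP' : sg 1 P ∈ L (ZMod 2) n := sig_mem_L hP
  obtain ⟨c, hc, _⟩ := PL.In_rc_of_lie hP' h m hm
  have h1 : sig (I0 m (Ap 1 P)) = c • e [1] := by
    rw [I0_eq_I1 m (Ap1_mem_N0 P), sig_I1, ← hc, rc_eq_Ap]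
    show I0 m (sg 1 (Ap 1 P)) = _
    rw [sg_Ap1]
  have h2 : I0 m (Ap 1 P) = c • e [1] := by
    have h3 := congrArg (sg (1 : ZMod 2)) h1
    rw [PL.sg_sg, map_smul] at h3
    rw [h3]
    have : (e [1] : W) = C 1 (e []) := by rw [C_e]
    rw [this, sg_C, sL_one, sg_nil]
  exact smul_e1_ok h2

/-- C0, first convention. -/
theorem c0 {n D : ℕ} {P : W} (hP : P ∈ L (ZMod 2) n) (hD : P ∈ H D)
    (h : ∀ u v : List (Fin 2), u ≠ [] → v ≠ [] → sh (PL.iotaU P) u v = 0) :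
    ∀ w, P w ≠ 0 → ∀ k ∈ w, k ≤ 1 := c0_main tsp hP hD h

/-- C0, second convention. -/
theorem c0' {n D : ℕ} {P : W} (hP : P ∈ L (ZMod 2) n) (hD : P ∈ H D)
    (h : ∀ u v : List (Fin 2), u ≠ [] → v ≠ [] → sh (PL.iotaU (sg 1 P)) u v = 0) :
    ∀ w, P w ≠ 0 → ∀ k ∈ w, k ≤ 1 := c0_main' tsp hP hD h

end

end Pool.Agent.ECU
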