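import Mathlib

/-!
# Insertion operators on words over `𝔽₂`: definitions

`T R` is the module of formal combinations of words in the letters `c₁, c₂, …`; the letter `k : ℕ`
stands for `c_{k+1}`.  For `a y : R` the operator `X a y` satisfies
`X 1 = y`, `X (c₁ P) = c₁ (X + a) P + c₂ P`, `X (c_{k+2} P) = c_{k+3} P + c₁ (X + a) X^{k+1} P`.
`In a y m` is the operator inserting `m` letters `a` (end state `y`).
-/

set_option autoImplicit false

namespace Pool.Agent.ECU

open Finset

variable {R : Type*} [CommRing R]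

/-- Formal combinations of words. -/
abbrev T (R : Type*) [CommRing R] := List ℕ →₀ R

noncomputable section

/-- The word `w`. -/
def e (w : List ℕ) : T R := Finsupp.single w 1

/-- Left multiplication by the letter `k`. -/
def C (k : ℕ) : T R →ₗ[R] T R := Finsupp.lmapDomain R R (List.cons k)

@[simp] theorem C_e (k : ℕ) (w : List ℕ) : C k (e w : T R) = e (k :: w) := by
  simp [C, e, Finsupp.mapDomain_single]

theorem hom_ext {M : Type*} [AddCommGroup M] [Module R M] {f g : T R →ₗ[R] M}
    (h : ∀ w, f (e w) = g (e w)) : f = g := by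
  apply Finsupp.lhom_ext'
  intro w
  apply LinearMap.ext_ring
  exact h w

theorem T_ind {P : T R → Prop} (h0 : P 0) (hadd : ∀ p q, P p → P q → P (p + q))
    (hs : ∀ (r : R) (w : List ℕ), P (r • e w)) (p : T R) : P p := by
  induction p using Finsupp.induction_linear with
  | zero => exact h0
  | add f g hf hg => exact hadd f g hf hg
  | single w r =>
    have := hs r w
    simpa [e] using this

theorem C_apply_cons (k j : ℕ) (p : T R) (w : List ℕ) :
    (C k p) (j :: w) = if j = k then p w else 0 := by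
  by_cases h : j = k
  · subst h
    rw [if_pos rfl]
    simp only [C, Finsupp.lmapDomain_apply]
    exact Finsupp.mapDomain_apply (List.cons_injective) _ _
  · rw [if_neg h]
    simp only [C, Finsupp.lmapDomain_apply]
    apply Finsupp.mapDomain_notin_range
    rintro ⟨v, hv⟩
    exact h (List.cons.inj hv).1.symm

theorem C_apply_nil (k : ℕ) (p : T R) : (C k p) [] = 0 := by
  simp only [C, Finsupp.lmapDomain_apply]
  apply Finsupp.mapDomain_notin_range
  rintro ⟨v, hv⟩
  exact absurd hv (by simp)

/-- One step in the construction of `X`. -/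
def stepX (a y : R) (f : Module.End R (T R)) : Module.End R (T R) :=
  Finsupp.linearCombination R (fun w : List ℕ => match w with
    | [] => y • (e [] : T R)
    | 0 :: w => C 0 (f (e w) + a • e w) + C 1 (e w)
    | (k + 1) :: w => C (k + 2) (e w) + C 0 (f ((f ^ (k + 1)) (e w)) + a • (f ^ (k + 1)) (e w)))

theorem stepX_nil (a y : R) (f : Module.End R (T R)) : stepX a y f (e []) = y • e [] := by
  simp [stepX, e]

theorem stepX_zero (a y : R) (f : Module.End R (T R)) (w : List ℕ) :
    stepX a y f (e (0 :: w)) = C 0 (f (e w) + a • e w) + C 1 (e w) := by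
  simp only [stepX, e, Finsupp.linearCombination_single, one_smul]

theorem stepX_succ (a y : R) (f : Module.End R (T R)) (k : ℕ) (w : List ℕ) :
    stepX a y f (e ((k + 1) :: w)) =
      C (k + 2) (e w) + C 0 (f ((f ^ (k + 1)) (e w)) + a • (f ^ (k + 1)) (e w)) := by
  simp only [stepX, e, Finsupp.linearCombination_single, one_smul]

/-- The approximations of `X`. -/
def Xn (a y : R) : ℕ → Module.End R (T R)
  | 0 => 0
  | n + 1 => stepX a y (Xn a y n)

/-- Combinations of words of length `n`. -/
def L (R : Type*) [CommRing R] (n : ℕ) : Submodule R (T R) :=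
  Finsupp.supported R R {w : List ℕ | w.length = n}

theorem mem_L {n : ℕ} {p : T R} : p ∈ L R n ↔ ∀ w, p w ≠ 0 → w.length = n := by
  constructor
  · intro h w hw
    exact h (Finsupp.mem_support_iff.mpr hw)
  · intro h w hw
    exact h w (Finsupp.mem_support_iff.mp hw)

theorem e_mem_L (w : List ℕ) : (e w : T R) ∈ L R w.length :=
  Finsupp.single_mem_supported R _ rfl

/-- Induction on combinations of words with a property. -/
theorem supp_ind {s : Set (List ℕ)} {P : T R → Prop} (h0 : P 0)
    (hadd : ∀ p q, P p → P q → P (p + q)) (hs : ∀ (r : R), ∀ w ∈ s, P (r • e w)) (p : T R)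
    (hp : p ∈ Finsupp.supported R R s) : P p := by
  have : p = ∑ w ∈ p.support, (p w) • e w := by
    conv_lhs => rw [← Finsupp.sum_single p]
    simp [Finsupp.sum, e]
  rw [this]
  apply Finset.sum_induction _ _ hadd h0
  intro w hw
  exact hs _ w (hp hw)

theorem L_ind {n : ℕ} {P : T R → Prop} (h0 : P 0) (hadd : ∀ p q, P p → P q → P (p + q))
    (hs : ∀ (r : R) (w : List ℕ), w.length = n → P (r • e w)) (p : T R) (hp : p ∈ L R n) : P p :=
  supp_ind h0 hadd (fun r w hw => hs r w hw) p hp

theorem C_mem_L {k n : ℕ} {p : T R} (hp : p ∈ L R n) : C k p ∈ L R (n + 1) := by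
  refine L_ind (P := fun p => C k p ∈ L R (n + 1)) ?_ ?_ ?_ p hp
  · simp
  · intro p q h1 h2
    rw [map_add]; exact Submodule.add_mem _ h1 h2
  · intro r w hw
    rw [map_smul, C_e]
    apply Submodule.smul_mem
    have := e_mem_L (R := R) (k :: w)
    rwa [List.length_cons, hw] at this

theorem pow_mem_of_pres {f : Module.End R (T R)} {n : ℕ} (h : ∀ p ∈ L R n, f p ∈ L R n) (j : ℕ)
    (p : T R) (hp : p ∈ L R n) : (f ^ j) p ∈ L R n := by
  induction j with
  | zero => simpa using hp
  | succ j ih => rw [pow_succ', Module.End.mul_apply]; exact h _ ih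

theorem pow_eq_of_agree {f g : Module.End R (T R)} {n : ℕ} (h : ∀ p ∈ L R n, f p ∈ L R n)
    (hfg : ∀ p ∈ L R n, f p = g p) (j : ℕ) (p : T R) (hp : p ∈ L R n) :
    (f ^ j) p = (g ^ j) p := by
  induction j with
  | zero => rfl
  | succ j ih =>
    rw [pow_succ', pow_succ', Module.End.mul_apply, Module.End.mul_apply, ← ih]
    exact hfg _ (pow_mem_of_pres h j p hp)

theorem Xn_mem (a y : R) (m : ℕ) : ∀ n, ∀ p ∈ L R n, Xn a y m p ∈ L R n := by
  induction m with
  | zero => intro n p _; simp [Xn]
  | succ m ih =>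
    intro n p hp
    refine L_ind (P := fun p => Xn a y (m + 1) p ∈ L R n) ?_ ?_ ?_ p hp
    · simp
    · intro p q h1 h2
      rw [map_add]; exact Submodule.add_mem _ h1 h2
    · intro r w hw
      rw [map_smul]
      apply Submodule.smul_mem
      show stepX a y (Xn a y m) (e w) ∈ L R n
      rcases w with _ | ⟨k, w⟩
      · rw [stepX_nil]
        apply Submodule.smul_mem
        have := e_mem_L (R := R) []
        rwa [show ([] : List ℕ).length = n from hw] at this
      · rw [List.length_cons] at hw
        subst hw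
        have hw := e_mem_L (R := R) w
        rcases k with _ | k
        · rw [stepX_zero]
          exact Submodule.add_mem _ (C_mem_L (Submodule.add_mem _ (ih _ _ hw)
            (Submodule.smul_mem _ _ hw))) (C_mem_L hw)
        · rw [stepX_succ]
          have h1 := pow_mem_of_pres (ih w.length) (k + 1) _ hw
          exact Submodule.add_mem _ (C_mem_L hw) (C_mem_L (Submodule.add_mem _ (ih _ _ h1)
            (Submodule.smul_mem _ _ h1)))

theorem Xn_agree (a y : R) (n : ℕ) : ∀ m, n + 1 ≤ m → ∀ p ∈ L R n,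
    Xn a y m p = Xn a y (n + 1) p := by
  induction n with
  | zero =>
    intro m hm p hp
    obtain ⟨m, rfl⟩ : ∃ m', m = m' + 1 := ⟨m - 1, by omega⟩
    refine L_ind (P := fun p => Xn a y (m + 1) p = Xn a y (0 + 1) p) ?_ ?_ ?_ p hp
    · simp
    · intro p q h1 h2
      rw [map_add, map_add, h1, h2]
    · intro r w hw
      have : w = [] := List.length_eq_zero_iff.mp hw
      subst this
      rw [map_smul, map_smul]
      congr 1
      show stepX a y (Xn a y m) (e []) = stepX a y (Xn a y 0) (e [])
      rw [stepX_nil, stepX_nil]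
  | succ n ih =>
    intro m hm p hp
    obtain ⟨m, rfl⟩ : ∃ m', m = m' + 1 := ⟨m - 1, by omega⟩
    have hm' : n + 1 ≤ m := by omega
    refine L_ind (P := fun p => Xn a y (m + 1) p = Xn a y (n + 1 + 1) p) ?_ ?_ ?_ p hp
    · simp
    · intro p q h1 h2
      rw [map_add, map_add, h1, h2]
    · intro r w hw
      rw [map_smul, map_smul]
      congr 1
      rcases w with _ | ⟨k, w⟩
      · simp at hw
      · rw [List.length_cons] at hw
        have hw' : w.length = n := by omega
        have hwm : (e w : T R) ∈ L R n := hw' ▸ e_mem_L (R := R) w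
        show stepX a y (Xn a y m) (e (k :: w)) = stepX a y (Xn a y (n + 1)) (e (k :: w))
        rcases k with _ | k
        · rw [stepX_zero, stepX_zero, ih m hm' _ hwm]
        · rw [stepX_succ, stepX_succ]
          have h1 : (Xn a y m ^ (k + 1)) (e w) = (Xn a y (n + 1) ^ (k + 1)) (e w) :=
            pow_eq_of_agree (Xn_mem a y m n) (ih m hm') (k + 1) _ hwm
          have h2 := pow_mem_of_pres (Xn_mem a y (n + 1) n) (k + 1) _ hwm
          rw [h1, ih m hm' _ h2]

/-- The operator `X` (`= x·` on `T[x]/T[x](x + y)`). -/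
def X (a y : R) : Module.End R (T R) :=
  Finsupp.linearCombination R (fun w : List ℕ => Xn a y (w.length + 1) (e w))

theorem X_e (a y : R) (w : List ℕ) : X a y (e w) = Xn a y (w.length + 1) (e w) := by
  simp only [X, e, Finsupp.linearCombination_single, one_smul]

theorem X_eq_Xn (a y : R) (n : ℕ) (p : T R) (hp : p ∈ L R n) : X a y p = Xn a y (n + 1) p := by
  refine L_ind (P := fun p => X a y p = Xn a y (n + 1) p) ?_ ?_ ?_ p hp
  · simp
  · intro p q h1 h2
    rw [map_add, map_add, h1, h2]
  · intro r w hw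
    rw [map_smul, map_smul, X_e, hw]

theorem X_mem_L (a y : R) {n : ℕ} {p : T R} (hp : p ∈ L R n) : X a y p ∈ L R n := by
  rw [X_eq_Xn a y n p hp]
  exact Xn_mem a y _ n p hp

theorem X_nil (a y : R) : X a y (e []) = y • e [] := by
  rw [X_e]; exact stepX_nil a y _

theorem X_C0 (a y : R) (p : T R) : X a y (C 0 p) = C 0 (X a y p + a • p) + C 1 p := by
  have : (X a y) ∘ₗ (C 0) = (C 0) ∘ₗ (X a y + a • LinearMap.id) + C 1 := by
    apply hom_ext
    intro w
    simp only [LinearMap.comp_apply, LinearMap.add_apply, LinearMap.smul_apply, LinearMap.id_apply]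
    rw [C_e, X_e, X_e]
    exact stepX_zero a y _ w
  exact LinearMap.congr_fun this p

theorem X_C (a y : R) (k : ℕ) (p : T R) : X a y (C (k + 1) p) =
    C (k + 2) p + C 0 (X a y ((X a y ^ (k + 1)) p) + a • (X a y ^ (k + 1)) p) := by
  have : (X a y) ∘ₗ (C (k + 1)) =
      C (k + 2) + (C 0) ∘ₗ (X a y ∘ₗ (X a y ^ (k + 1)) + a • (X a y ^ (k + 1))) := by
    apply hom_ext
    intro w
    simp only [LinearMap.comp_apply, LinearMap.add_apply, LinearMap.smul_apply]
    have hw := e_mem_L (R := R) w
    have h1 : (X a y ^ (k + 1)) (e w) = (Xn a y (w.length + 1) ^ (k + 1)) (e w) :=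
      pow_eq_of_agree (fun p hp => X_mem_L a y hp) (fun p hp => X_eq_Xn a y _ p hp) (k + 1) _ hw
    have h2 := pow_mem_of_pres (Xn_mem a y (w.length + 1) w.length) (k + 1) _ hw
    rw [C_e, X_e, h1, X_eq_Xn a y _ _ h2]
    exact stepX_succ a y _ k w
  exact LinearMap.congr_fun this p

/-- The letter shifted by `b`: `c_{k+2} ↦ ∑ C(k,i) b^{k-i} c_{i+2}`, `c₁ ↦ c₁`. -/
def sL (b : R) : ℕ → (T R →ₗ[R] T R)
  | 0 => C 0
  | k + 1 => ∑ i ∈ range (k + 1), ((k.choose i : R) * b ^ (k - i)) • C (i + 1)

/-- The algebra map `σ` with shift `b` on words. -/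
def sgw (b : R) : List ℕ → T R
  | [] => e []
  | k :: w => sL b k (sgw b w)

/-- The algebra map `σ`. -/
def sg (b : R) : Module.End R (T R) := Finsupp.linearCombination R (sgw b)

theorem sg_nil (b : R) : sg b (e []) = e [] := by
  simp [sg, e, sgw]

theorem sg_C (b : R) (k : ℕ) (p : T R) : sg b (C k p) = sL b k (sg b p) := by
  have : (sg b) ∘ₗ (C k) = (sL b k) ∘ₗ (sg b) := by
    apply hom_ext
    intro w
    simp only [LinearMap.comp_apply, C_e]
    simp only [sg, e, Finsupp.linearCombination_single, one_smul]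
    rfl
  exact LinearMap.congr_fun this p

/-- The polynomials `ι_k`: `ι₀ = 1`, `ι_{k+1} = x (x + a) ∑_{i<k} C(k,i) a^{k-1-i} x^i`. -/
def iota (a : R) : ℕ → Polynomial R
  | 0 => 1
  | k + 1 => Polynomial.X * (Polynomial.X + Polynomial.C a) *
      ∑ i ∈ range k, Polynomial.C ((k.choose i : R) * a ^ (k - 1 - i)) * Polynomial.X ^ i

/-- The operator `ι_k(X)`. -/
def Io (a y : R) (k : ℕ) : Module.End R (T R) := Polynomial.aeval (X a y) (iota a k)

theorem Io_zero (a y : R) : Io a y 0 = 1 := by simp [Io, iota]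

theorem Io_one (a y : R) : Io a y 1 = 0 := by simp [Io, iota]

/-- The insertion operators on words. -/
def Iw (a y : R) : List ℕ → ℕ → T R
  | [], m => if m = 0 then e [] else 0
  | k :: w, 0 => e (k :: w)
  | k :: w, m + 1 => sL (((m + 1 : ℕ) : R) * a) k (Iw a y w (m + 1)) + Io a y k (Iw a y w m)

/-- The insertion operators. -/
def In (a y : R) (m : ℕ) : Module.End R (T R) :=
  Finsupp.linearCombination R (fun w => Iw a y w m)

theorem In_e (a y : R) (m : ℕ) (w : List ℕ) : In a y m (e w) = Iw a y w m := by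
  simp only [In, e, Finsupp.linearCombination_single, one_smul]

theorem In_nil (a y : R) (m : ℕ) : In a y (m + 1) (e []) = 0 := by
  rw [In_e]; simp [Iw]

theorem In_zero (a y : R) : In a y 0 = 1 := by
  apply hom_ext
  intro w
  rw [In_e]
  cases w <;> simp [Iw]

theorem In_C (a y : R) (m k : ℕ) (p : T R) : In a y (m + 1) (C k p) =
    sL (((m + 1 : ℕ) : R) * a) k (In a y (m + 1) p) + Io a y k (In a y m p) := by
  have : (In a y (m + 1)) ∘ₗ (C k) =
      (sL (((m + 1 : ℕ) : R) * a) k) ∘ₗ (In a y (m + 1)) + (Io a y k) ∘ₗ (In a y m) := by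
    apply hom_ext
    intro w
    simp only [LinearMap.comp_apply, LinearMap.add_apply, C_e, In_e]
    rfl
  exact LinearMap.congr_fun this p

theorem In_C0 (a y : R) (m : ℕ) (p : T R) :
    In a y (m + 1) (C 0 p) = C 0 (In a y (m + 1) p) + In a y m p := by
  rw [In_C, Io_zero]; rfl

theorem sL_one (b : R) : sL b 1 = C 1 := by
  simp [sL]

theorem In_C1 (a y : R) (m : ℕ) (p : T R) :
    In a y (m + 1) (C 1 p) = C 1 (In a y (m + 1) p) := by
  rw [In_C, Io_one, sL_one]; simp

/-- Extraction of the last letter `k`. -/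
def dL (k : ℕ) : Module.End R (T R) :=
  Finsupp.lcomapDomain (fun w => w ++ [k]) (fun a b h => by simpa using h)

theorem dL_apply (k : ℕ) (p : T R) (w : List ℕ) : (dL k p) w = p (w ++ [k]) := rfl

theorem dL_nil (k : ℕ) : dL k (e [] : T R) = 0 := by
  ext w
  rw [dL_apply, e, Finsupp.single_apply]
  simp

theorem dL_C (k j : ℕ) (p : T R) :
    dL k (C j p) = C j (dL k p) + (if j = k then p [] else 0) • e [] := by
  ext w
  rw [dL_apply, Finsupp.add_apply, Finsupp.smul_apply]
  rcases w with _ | ⟨i, w⟩
  · rw [List.nil_append, C_apply_cons, C_apply_nil]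
    by_cases h : k = j
    · subst h; simp [e]
    · rw [if_neg h, if_neg (fun h' => h h'.symm)]; simp
  · rw [List.cons_append, C_apply_cons, C_apply_cons, dL_apply]
    simp [e]

end

end Pool.Agent.ECU
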