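import Pool.Agent.ECU.Defs

/-!
# Insertion operators: the case `R = 𝔽₂`, `a = 1`; further definitions
-/

set_option autoImplicit false

namespace Pool.Agent.ECU

open Finset

noncomputable section

/-- The words over `𝔽₂`. -/
abbrev W := T (ZMod 2)

/-- The operator `X` with `a = 1`, end state `0`. -/
abbrev X0 : Module.End (ZMod 2) W := X 1 0

/-- The operator `X` with `a = 1`, end state `1`. -/
abbrev X1 : Module.End (ZMod 2) W := X 1 1

/-- The insertion operators with `a = 1`, end state `0`. -/
abbrev I0 (m : ℕ) : Module.End (ZMod 2) W := In 1 0 m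

/-- The insertion operators with `a = 1`, end state `1`. -/
abbrev I1 (m : ℕ) : Module.End (ZMod 2) W := In 1 1 m

/-- The substitution `σ` with `a = 1`. -/
abbrev sig : Module.End (ZMod 2) W := sg 1

/-- Left multiplication by the letter combination `∑ g_k c_{k+2}`. -/
def E (g : Polynomial (ZMod 2)) : W →ₗ[ZMod 2] W := g.sum (fun k r => r • C (k + 1))

/-- Bad words: `0ⁿ 1 w`. -/
def bad : List ℕ → Bool
  | [] => false
  | 0 :: w => bad w
  | 1 :: _ => true
  | (_ + 2) :: _ => false

/-- The span of the bad words. -/
def B : Submodule (ZMod 2) W := Finsupp.supported (ZMod 2) (ZMod 2) {w | bad w = true}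

/-- Homogeneous combinations: words with sum `D`. -/
def H (D : ℕ) : Submodule (ZMod 2) W := Finsupp.supported (ZMod 2) (ZMod 2) {w | w.sum = D}

/-- The words with last letter `≥ 1`. -/
def lastpos : List ℕ → Bool
  | [] => false
  | [0] => false
  | [_ + 1] => true
  | _ :: j :: w => lastpos (j :: w)

/-- The span of the words with last letter `≥ 1`. -/
def N0 : Submodule (ZMod 2) W := Finsupp.supported (ZMod 2) (ZMod 2) {w | lastpos w = true}

/-- Shift of the last letter `k ↦ k + 1`. -/
def shw : List ℕ → List ℕ
  | [] => []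
  | [k] => [k + 1]
  | i :: j :: w => i :: shw (j :: w)

/-- Shift of the last letter, as an operator. -/
def S : Module.End (ZMod 2) W := Finsupp.lmapDomain (ZMod 2) (ZMod 2) shw

/-- `G = σ ∘ (extraction of the last letter c₁)`. -/
def G : Module.End (ZMod 2) W := sig ∘ₗ dL 0

/-- All letters are zero. -/
def allz : List ℕ → Bool
  | [] => true
  | 0 :: w => allz w
  | (_ + 1) :: _ => false

/-- Exactly one letter is nonzero. -/
def one : List ℕ → Bool
  | [] => false
  | 0 :: w => one w
  | (_ + 1) :: w => allz w

/-- Exactly one letter is nonzero, followed by an even number of letters. -/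
def le : List ℕ → Bool
  | [] => false
  | 0 :: w => le w
  | (_ + 1) :: w => allz w && decide (Even w.length)

/-- The sum of the coefficients over the words satisfying `f`. -/
def Fu (f : List ℕ → Bool) : W →ₗ[ZMod 2] ZMod 2 :=
  Finsupp.linearCombination (ZMod 2) (fun w => if f w then 1 else 0)

/-- The functional `ℓ`: `[k] ↦ 1` for `k ≠ 1`, all other words `↦ 0`. -/
def ell : W →ₗ[ZMod 2] ZMod 2 :=
  Fu (fun w => match w with
    | [k] => decide (k ≠ 1)
    | _ => false)

/-- Left multiplication by `ad(c₁)^j(c₂)`. -/
def mop : ℕ → Module.End (ZMod 2) W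
  | 0 => C 1
  | j + 1 => C 0 ∘ₗ mop j + mop j ∘ₗ C 0

end

end Pool.Agent.ECU
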