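import Pool.Agent.ECU.Defs

/-!
# Left multiplication by `e(g)` for polynomials `g`

Over `𝔽₂` with `a = 1`.  `E g` is left multiplication by `e(g)`, where `e(x^k)` is the letter `k + 1`.
With `u = x² + x`:
`X (E g P) = E (x g) P + C 0 ((u g)(X) P)`, `σ (E g P) = E (g(x+1)) (σ P)`,
`I_{m+1} (E g P) = E (g(x+m+1)) (I_{m+1} P) + (u (g(x+1) + g))(X) (I_m P)`.
`rc k` appends the letter `k` at the end.
-/

set_option autoImplicit false

namespace Pool.Agent.ECU.PL

open Finset

noncomputable section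

/-- The variable. -/
abbrev px : Polynomial (ZMod 2) := Polynomial.X

/-- The polynomial `u = x² + x`. -/
def pu : Polynomial (ZMod 2) := px ^ 2 + px

/-- The shift of the variable by `c`. -/
def shp (c : ZMod 2) (g : Polynomial (ZMod 2)) : Polynomial (ZMod 2) :=
  g.comp (px + Polynomial.C c)

theorem zcases (c : ZMod 2) : c = 0 ∨ c = 1 := by
  revert c; decide

theorem add_self_T (p : T (ZMod 2)) : p + p = 0 := by
  ext w
  exact CharTwo.add_self_eq_zero _

theorem add_self_P (p : Polynomial (ZMod 2)) : p + p = 0 := CharTwo.add_self_eq_zero p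

/-- Induction on polynomials over `𝔽₂`. -/
theorem poly_ind {P : Polynomial (ZMod 2) → Prop} (h0 : P 0) (hadd : ∀ p q, P p → P q → P (p + q))
    (hX : ∀ k, P (px ^ k)) (g : Polynomial (ZMod 2)) : P g := by
  induction g using Polynomial.induction_on' with
  | add p q hp hq => exact hadd p q hp hq
  | monomial n a =>
    rcases zcases a with rfl | rfl
    · simpa using h0
    · have := hX n
      rwa [px, ← Polynomial.monomial_one_right_eq_X_pow] at this

theorem shp_add (c : ZMod 2) (g h : Polynomial (ZMod 2)) : shp c (g + h) = shp c g + shp c h :=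
  Polynomial.add_comp

theorem shp_mul (c : ZMod 2) (g h : Polynomial (ZMod 2)) : shp c (g * h) = shp c g * shp c h :=
  Polynomial.mul_comp _ _ _

@[simp] theorem shp_zero_right (c : ZMod 2) : shp c 0 = 0 := Polynomial.zero_comp

@[simp] theorem shp_one_right (c : ZMod 2) : shp c 1 = 1 := Polynomial.one_comp

@[simp] theorem shp_zero_left (g : Polynomial (ZMod 2)) : shp 0 g = g := by
  simp [shp]

theorem shp_px (c : ZMod 2) : shp c px = px + Polynomial.C c := by
  simp [shp]

theorem shp_pow (c : ZMod 2) (g : Polynomial (ZMod 2)) (k : ℕ) : shp c (g ^ k) = (shp c g) ^ k :=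
  Polynomial.pow_comp _ _ _

theorem shp_shp (b c : ZMod 2) (g : Polynomial (ZMod 2)) : shp b (shp c g) = shp (b + c) g := by
  simp only [shp, Polynomial.comp_assoc, Polynomial.add_comp, Polynomial.X_comp,
    Polynomial.C_comp, map_add]
  congr 1
  ring

theorem shp_pu (c : ZMod 2) : shp c pu = pu := by
  rcases zcases c with rfl | rfl
  · simp
  · rw [pu, shp_add, shp_pow, shp_px, map_one]
    have h : (px + 1) ^ 2 + (px + 1) = px ^ 2 + px + (px + px) + (1 + 1) := by ring
    rw [h, add_self_P, add_self_P]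
    ring

/-- Left multiplication by `e(g)`. -/
def E : Polynomial (ZMod 2) →ₗ[ZMod 2] Module.End (ZMod 2) (T (ZMod 2)) :=
  (Polynomial.basisMonomials (ZMod 2)).constr (ZMod 2) (fun k => (C (k + 1) : T (ZMod 2) →ₗ[ZMod 2] _))

theorem E_pow (k : ℕ) : E (px ^ k) = C (k + 1) := by
  have h : px ^ k = Polynomial.basisMonomials (ZMod 2) k := by
    rw [Polynomial.coe_basisMonomials]
    exact (Polynomial.monomial_one_right_eq_X_pow k).symm
  rw [h]
  exact Module.Basis.constr_basis _ _ _ _

theorem E_one : E 1 = C 1 := by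
  have := E_pow 0
  rwa [pow_zero] at this

theorem E_px : E px = C 2 := by
  have := E_pow 1
  rwa [pow_one] at this

theorem sL_succ (b : ZMod 2) (k : ℕ) : sL b (k + 1) = E (shp b (px ^ k)) := by
  rw [shp_pow, shp_px, add_pow, map_sum]
  simp only [sL]
  apply Finset.sum_congr rfl
  intro i _
  have h : px ^ i * (Polynomial.C b) ^ (k - i) * ((k.choose i : ℕ) : Polynomial (ZMod 2)) =
      ((k.choose i : ZMod 2) * b ^ (k - i)) • px ^ i := by
    rw [Polynomial.smul_eq_C_mul, map_mul, map_pow, map_natCast]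
    ring
  rw [h, map_smul, E_pow]

theorem sL_zero (b : ZMod 2) : sL b 0 = C 0 := rfl

theorem X_E (y : ZMod 2) (g : Polynomial (ZMod 2)) (p : T (ZMod 2)) :
    X 1 y (E g p) = E (px * g) p + C 0 (Polynomial.aeval (X (1 : ZMod 2) y) (pu * g) p) := by
  refine poly_ind (P := fun g => X 1 y (E g p) = E (px * g) p +
    C 0 (Polynomial.aeval (X (1 : ZMod 2) y) (pu * g) p)) ?_ ?_ ?_ g
  · simp
  · intro g h hg hh
    simp only [map_add, LinearMap.add_apply, mul_add, hg, hh]
    abel
  · intro k
    rw [E_pow, X_C, ← pow_succ', E_pow, pu]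
    congr 2
    have h : (px ^ 2 + px) * px ^ k = px ^ (k + 2) + px ^ (k + 1) := by ring
    rw [h, map_add, map_pow, map_pow, Polynomial.aeval_X, LinearMap.add_apply, one_smul,
      pow_succ' (X (1 : ZMod 2) y) (k + 1), Module.End.mul_apply]

theorem sg_E (g : Polynomial (ZMod 2)) (p : T (ZMod 2)) :
    sg 1 (E g p) = E (shp 1 g) (sg 1 p) := by
  refine poly_ind (P := fun g => sg 1 (E g p) = E (shp 1 g) (sg 1 p)) ?_ ?_ ?_ g
  · simp
  · intro g h hg hh
    simp only [map_add, LinearMap.add_apply, shp_add, hg, hh]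
  · intro k
    rw [E_pow, sg_C, sL_succ]

theorem sg_C0 (p : T (ZMod 2)) : sg 1 (C 0 p) = C 0 (sg 1 p) := by
  rw [sg_C]; rfl

theorem sg_sg (p : T (ZMod 2)) : sg 1 (sg 1 p) = p := by
  have : (sg (1 : ZMod 2)) ∘ₗ (sg 1) = LinearMap.id := by
    apply hom_ext
    intro w
    rw [LinearMap.comp_apply, LinearMap.id_apply]
    induction w with
    | nil => rw [sg_nil, sg_nil]
    | cons k w ih =>
      rw [← C_e]
      rcases k with _ | k
      · rw [sg_C0, sg_C0, ih]
      · rw [← E_pow, sg_E, sg_E, ih, shp_shp]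
        have : (1 + 1 : ZMod 2) = 0 := by decide
        rw [this, shp_zero_left]
  exact LinearMap.congr_fun this p

theorem iota_succ (k : ℕ) : iota (1 : ZMod 2) (k + 1) = pu * (shp 1 (px ^ k) + px ^ k) := by
  rw [iota, shp_pow, shp_px, map_one, add_pow, Finset.sum_range_succ]
  have h : px ^ k * 1 ^ (k - k) * ((k.choose k : ℕ) : Polynomial (ZMod 2)) = px ^ k := by
    simp
  rw [h, add_assoc, add_self_P, add_zero]
  have h2 : Polynomial.X * (Polynomial.X + 1) = pu := by
    rw [pu]; ring
  rw [h2]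
  congr 1
  apply Finset.sum_congr rfl
  intro i _
  simp only [one_pow, mul_one, map_natCast]
  ring

theorem In_E (y : ZMod 2) (m : ℕ) (g : Polynomial (ZMod 2)) (p : T (ZMod 2)) :
    In 1 y (m + 1) (E g p) = E (shp ((m + 1 : ℕ) : ZMod 2) g) (In 1 y (m + 1) p) +
      Polynomial.aeval (X (1 : ZMod 2) y) (pu * (shp 1 g + g)) (In 1 y m p) := by
  refine poly_ind (P := fun g => In 1 y (m + 1) (E g p) =
    E (shp ((m + 1 : ℕ) : ZMod 2) g) (In 1 y (m + 1) p) +
      Polynomial.aeval (X (1 : ZMod 2) y) (pu * (shp 1 g + g)) (In 1 y m p)) ?_ ?_ ?_ g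
  · simp
  · intro g h hg hh
    have e1 : pu * (shp 1 (g + h) + (g + h)) = pu * (shp 1 g + g) + pu * (shp 1 h + h) := by
      rw [shp_add]; ring
    rw [e1, map_add, shp_add, map_add, map_add, LinearMap.add_apply, LinearMap.add_apply,
      LinearMap.add_apply, map_add, hg, hh]
    abel
  · intro k
    rw [E_pow, In_C, mul_one, sL_succ, Io, iota_succ]

/-- Right multiplication by the letter `k`. -/
def rc (k : ℕ) : T (ZMod 2) →ₗ[ZMod 2] T (ZMod 2) :=
  Finsupp.lmapDomain (ZMod 2) (ZMod 2) (fun w => w ++ [k])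

@[simp] theorem rc_e (k : ℕ) (w : List ℕ) : rc k (e w) = e (w ++ [k]) := by
  simp [rc, e, Finsupp.mapDomain_single]

theorem rc_C (k j : ℕ) (p : T (ZMod 2)) : rc k (C j p) = C j (rc k p) := by
  have : (rc k) ∘ₗ (C j) = (C j) ∘ₗ (rc k) := by
    apply hom_ext
    intro w
    simp
  exact LinearMap.congr_fun this p

theorem dL_rc (k : ℕ) (p : T (ZMod 2)) : dL k (rc k p) = p := by
  have : (dL k) ∘ₗ (rc k) = LinearMap.id := by
    apply hom_ext
    intro w
    rw [LinearMap.comp_apply, LinearMap.id_apply, rc_e]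
    ext v
    rw [dL_apply, e, e, Finsupp.single_apply, Finsupp.single_apply]
    simp
  exact LinearMap.congr_fun this p

end

end Pool.Agent.ECU.PL
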