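import Pool.Agent.ECU.Defs2
import Pool.Agent.ECU.Poly

/-!
# The coefficient of `c₃` after insertion of all but one letter
-/

set_option autoImplicit false

namespace Pool.Agent.ECU

open Finset

noncomputable section

/-- `t^k ↦ [k]`. -/
def yf : Polynomial (ZMod 2) →ₗ[ZMod 2] W :=
  Polynomial.lsum (fun k => LinearMap.toSpanSingleton (ZMod 2) W (e [k]))

theorem yf_pow (k : ℕ) : yf (Polynomial.X ^ k) = e [k] := by
  rw [yf, Polynomial.lsum_apply, ← Polynomial.monomial_one_right_eq_X_pow,
    Polynomial.sum_monomial_index]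
  · simp
  · simp

theorem yf_apply (g : Polynomial (ZMod 2)) (k : ℕ) : (yf g) [k] = g.coeff k := by
  refine PL.poly_ind (P := fun g => (yf g) [k] = g.coeff k) ?_ ?_ ?_ g
  · simp
  · intro p q hp hq
    rw [map_add, Finsupp.add_apply, hp, hq, Polynomial.coeff_add]
  · intro j
    rw [PL.px, yf_pow, Polynomial.coeff_X_pow, e, Finsupp.single_apply]
    simp only [List.cons.injEq, and_true]
    exact if_congr (eq_comm) rfl rfl

theorem X_pow_nil (y : ZMod 2) (k : ℕ) :
    ((X (1 : ZMod 2) y) ^ k) (e []) = y ^ k • (e [] : W) := by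
  induction k with
  | zero => simp
  | succ k ih => rw [pow_succ', Module.End.mul_apply, ih, map_smul, X_nil, smul_smul, pow_succ]

theorem X_single (y : ZMod 2) (k : ℕ) : X (1 : ZMod 2) y (e [k + 1]) = e [k + 2] := by
  have h := X_C (1 : ZMod 2) y k (e [])
  rw [C_e, C_e, X_pow_nil, map_smul, X_nil, smul_smul, one_smul, ← add_smul] at h
  rw [h]
  have : y ^ (k + 1) * y + y ^ (k + 1) = 0 := by
    rcases PL.zcases y with rfl | rfl
    · simp
    · simp; decide
  rw [this]
  simp

theorem X_yf (y : ZMod 2) (g : Polynomial (ZMod 2)) :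
    X (1 : ZMod 2) y (yf (Polynomial.X * g)) = yf (Polynomial.X * (Polynomial.X * g)) := by
  refine PL.poly_ind (P := fun g => X (1 : ZMod 2) y (yf (Polynomial.X * g)) =
    yf (Polynomial.X * (Polynomial.X * g))) ?_ ?_ ?_ g
  · simp
  · intro p q hp hq
    rw [mul_add, map_add, map_add, hp, hq, ← map_add]
    congr 1
    ring
  · intro k
    rw [PL.px, ← pow_succ', ← pow_succ', yf_pow, yf_pow, X_single]

theorem aeval_yf (y : ZMod 2) (q g : Polynomial (ZMod 2)) :
    (Polynomial.aeval (X (1 : ZMod 2) y) q) (yf (Polynomial.X * g)) =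
      yf (Polynomial.X * (q * g)) := by
  refine PL.poly_ind (P := fun q => (Polynomial.aeval (X (1 : ZMod 2) y) q)
    (yf (Polynomial.X * g)) = yf (Polynomial.X * (q * g))) ?_ ?_ ?_ q
  · simp
  · intro p q hp hq
    rw [map_add, LinearMap.add_apply, hp, hq, ← map_add]
    congr 1
    ring
  · intro k
    rw [PL.px, map_pow, Polynomial.aeval_X]
    induction k with
    | zero => simp
    | succ k ih =>
      rw [pow_succ', Module.End.mul_apply, ih, X_yf]
      congr 1
      ring

/-- The product of the `ι` of the letters. -/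
def pio : List ℕ → Polynomial (ZMod 2)
  | [] => 1
  | k :: w => iota 1 k * pio w

theorem iota_eval (y : ZMod 2) (k : ℕ) :
    (iota (1 : ZMod 2) (k + 1)).eval y = 0 := by
  rw [iota, Polynomial.eval_mul, Polynomial.eval_mul, Polynomial.eval_add, Polynomial.eval_X,
    Polynomial.eval_C]
  have : y * (y + 1) = 0 := by
    rcases PL.zcases y with rfl | rfl <;> decide
  rw [this, zero_mul]

/-- More insertions than letters give zero. -/
theorem In_gt (y : ZMod 2) (w : List ℕ) : ∀ m, w.length < m → In (1 : ZMod 2) y m (e w) = 0 := by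
  induction w with
  | nil =>
    intro m hm
    obtain ⟨m, rfl⟩ : ∃ m', m = m' + 1 := ⟨m - 1, by simp at hm; omega⟩
    exact In_nil 1 y m
  | cons k w ih =>
    intro m hm
    rw [List.length_cons] at hm
    obtain ⟨m, rfl⟩ : ∃ m', m = m' + 1 := ⟨m - 1, by omega⟩
    rw [← C_e, In_C, ih (m + 1) (by omega), ih m (by omega)]
    simp

theorem aeval_nil (y : ZMod 2) (q : Polynomial (ZMod 2)) :
    (Polynomial.aeval (X (1 : ZMod 2) y) q) (e []) = (q.eval y) • (e [] : W) := by
  refine PL.poly_ind (P := fun q => (Polynomial.aeval (X (1 : ZMod 2) y) q) (e []) =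
    (q.eval y) • (e [] : W)) ?_ ?_ ?_ q
  · simp
  · intro p q hp hq
    rw [map_add, LinearMap.add_apply, hp, hq, Polynomial.eval_add, add_smul]
  · intro k
    rw [PL.px, map_pow, Polynomial.aeval_X, X_pow_nil, Polynomial.eval_pow, Polynomial.eval_X]

/-- Inserting as many letters as there are. -/
theorem In_all (y : ZMod 2) (w : List ℕ) :
    In (1 : ZMod 2) y w.length (e w) = ((pio w).eval y) • (e [] : W) := by
  induction w with
  | nil => rw [List.length_nil, In_zero]; simp [pio]
  | cons k w ih =>
    rw [List.length_cons, ← C_e, In_C, In_gt y w _ (by omega), ih, map_smul, Io, aeval_nil,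
      map_zero, zero_add, smul_smul, pio, Polynomial.eval_mul, mul_comm]

theorem pio_append (v w : List ℕ) : pio (v ++ w) = pio v * pio w := by
  induction v with
  | nil => simp [pio]
  | cons k v ih => rw [List.cons_append, pio, pio, ih, mul_assoc]

theorem In_all_last (y : ZMod 2) (v : List ℕ) (k : ℕ) :
    In (1 : ZMod 2) y (v.length + 1) (e (v ++ [k + 1])) = 0 := by
  have h := In_all y (v ++ [k + 1])
  rw [List.length_append, List.length_singleton] at h
  rw [h, pio_append, Polynomial.eval_mul]
  simp [pio, iota_eval]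

theorem In_but_one (y : ZMod 2) (v : List ℕ) (k : ℕ) :
    In (1 : ZMod 2) y v.length (e (v ++ [k + 1])) =
      yf (Polynomial.X * (pio v * Polynomial.X ^ k)) := by
  induction v with
  | nil =>
    rw [List.length_nil, In_zero]
    simp only [List.nil_append, Module.End.one_apply, pio, one_mul]
    rw [← pow_succ', yf_pow]
  | cons i v ih =>
    rw [List.length_cons, List.cons_append, ← C_e, In_C, In_all_last, ih, map_zero, zero_add, Io,
      aeval_yf, pio, mul_assoc]

theorem iota_coeff_zero (k : ℕ) : (iota (1 : ZMod 2) k).coeff 0 = if k = 0 then 1 else 0 := by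
  rcases k with _ | k
  · simp [iota]
  · rw [Polynomial.coeff_zero_eq_eval_zero, iota_eval]; simp

theorem iota_two (j : ℕ) : ∃ q : Polynomial (ZMod 2),
    iota (1 : ZMod 2) (j + 2) = Polynomial.X * q ∧ q.coeff 0 = 1 := by
  refine ⟨(Polynomial.X + Polynomial.C 1) * ∑ i ∈ range (j + 1),
    Polynomial.C (((j + 1).choose i : ZMod 2) * 1 ^ (j + 1 - 1 - i)) * Polynomial.X ^ i, ?_, ?_⟩
  · rw [iota, mul_assoc]
  · rw [Polynomial.mul_coeff_zero, Polynomial.finsetSum_coeff, Finset.sum_eq_single 0]
    · simp
    · intro i _ hi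
      rw [Polynomial.mul_coeff_zero, Polynomial.coeff_X_pow, if_neg (fun h => hi h.symm), mul_zero]
    · simp

theorem pio_coeff_zero (v : List ℕ) : (pio v).coeff 0 = if allz v then 1 else 0 := by
  induction v with
  | nil => simp [pio, allz]
  | cons k v ih =>
    rw [pio, Polynomial.mul_coeff_zero, iota_coeff_zero, ih]
    rcases k with _ | k
    · rw [if_pos rfl, one_mul]; rfl
    · simp [allz]

/-- The coefficient of `c₃` after insertion of all but one letter. -/
theorem coeff_two (y : ZMod 2) (j k : ℕ) (v : List ℕ) :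
    (In (1 : ZMod 2) y (v.length + 1) (e ((j + 2) :: v ++ [k + 1]))) [2] =
      if k = 0 ∧ allz v = true then 1 else 0 := by
  have h := In_but_one y ((j + 2) :: v) k
  rw [List.length_cons] at h
  rw [h, yf_apply, pio]
  obtain ⟨q, hq, hq0⟩ := iota_two j
  rw [hq]
  have e1 : Polynomial.X * (Polynomial.X * q * pio v * Polynomial.X ^ k) =
      (q * pio v * Polynomial.X ^ k) * Polynomial.X ^ 2 := by ring
  rw [e1, Polynomial.coeff_mul_X_pow (q * pio v * Polynomial.X ^ k) 2 0,
    Polynomial.mul_coeff_zero, Polynomial.mul_coeff_zero, hq0, pio_coeff_zero]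
  rcases k with _ | k
  · simp
  · simp

end

end Pool.Agent.ECU
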