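import Pool.Agent.ECU.Ops
import Pool.Agent.ECU.Poly

/-!
# Insertion operators over `𝔽₂`, `a = 1`: stripping letters

`dF k` strips a first letter `k`, `dL k` a last letter `k`.  `dF 0` and `dL 0` both satisfy
`A I_{m+1} = (I_{m+1} + A I_m) A` (end state `0`).
-/

set_option autoImplicit false

namespace Pool.Agent.ECU.TS

open Finset Pool.Agent.ECU

noncomputable section

theorem dbl (p : W) : p + p = 0 := W_add_self p

theorem eq_of_add_eq_zero {p q : W} (h : p + q = 0) : p = q := by
  have : p + q + q = q := by rw [h, zero_add]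
  rwa [add_assoc, dbl, add_zero] at this

/-- Stripping the first letter `k`. -/
def dF (k : ℕ) : Module.End (ZMod 2) W :=
  Finsupp.lcomapDomain (List.cons k) List.cons_injective

theorem dF_apply (k : ℕ) (p : W) (w : List ℕ) : (dF k p) w = p (k :: w) := rfl

theorem dF_nil (k : ℕ) : dF k (e [] : W) = 0 := by
  ext w
  rw [dF_apply, e, Finsupp.single_apply]
  simp

theorem dF_C (k j : ℕ) (p : W) : dF k (C j p) = if j = k then p else 0 := by
  ext w
  rw [dF_apply, C_apply_cons]
  by_cases h : k = j
  · subst h; simp
  · rw [if_neg h, if_neg (fun h' => h h'.symm)]; rfl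

theorem e_nil_nil : (e [] : W) [] = 1 := by simp [e]

theorem e_cons_nil (k : ℕ) (w : List ℕ) : (e (k :: w) : W) [] = 0 := by simp [e]

theorem In_apply_nil (y : ZMod 2) (m : ℕ) (p : W) :
    (In 1 y m p) [] = p (List.replicate m 0) := by
  have := In_repz y p m 0
  rwa [zero_add, Nat.choose_self, Nat.cast_one, one_mul, List.replicate_zero] at this

theorem dF_Io (y : ZMod 2) (k : ℕ) (p : W) : dF 0 (Io 1 y (k + 1) p) = 0 := by
  ext w
  rw [dF_apply, Io_apply_zero]; rfl

theorem dF_sL (b : ZMod 2) (k : ℕ) (p : W) : dF 0 (sL b (k + 1) p) = 0 := by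
  ext w
  rw [dF_apply, sL_E, E_apply_zero]; rfl

/-- Stripping a first letter `0`. -/
theorem dF_In (m : ℕ) (p : W) :
    dF 0 (I0 (m + 1) p) = I0 (m + 1) (dF 0 p) + dF 0 (I0 m (dF 0 p)) := by
  induction p using W_ind with
  | h0 => simp
  | hadd p q hp hq =>
    simp only [map_add] at hp hq ⊢
    rw [hp, hq]; abel
  | he w =>
    rcases w with _ | ⟨k, w⟩
    · rw [In_nil, dF_nil]; simp
    · rcases k with _ | k
      · rw [← C_e, In_C0, map_add, dF_C, dF_C, if_pos rfl, if_pos rfl]
      · rw [← C_e, In_C, map_add, dF_Io, dF_sL, dF_C, if_neg (by omega)]; simp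

/-! ### Comparison of the two end states -/

theorem DE (n : ℕ) : ∀ p ∈ L (ZMod 2) n, (X1 p + X0 p = C 0 (dL 0 p) + p [] • e []) ∧
    (∀ g, Polynomial.aeval X1 (u * g) p + Polynomial.aeval X0 (u * g) p = E g (dL 0 p)) := by
  induction n with
  | zero =>
    intro p hp
    refine L_ind (P := fun p => (X1 p + X0 p = C 0 (dL 0 p) + p [] • e []) ∧
    (∀ g, Polynomial.aeval X1 (u * g) p + Polynomial.aeval X0 (u * g) p = E g (dL 0 p)))
      ?_ ?_ ?_ p hp
    · simp
    · rintro p q ⟨h1, h2⟩ ⟨h3, h4⟩
      constructor
      · simp only [map_add, Finsupp.add_apply, add_smul]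
        linear_combination (norm := module) h1 + h3
      · intro g
        have h5 := h2 g
        have h6 := h4 g
        simp only [map_add]
        linear_combination (norm := module) h5 + h6
    · intro r w hw
      have : w = [] := List.length_eq_zero_iff.mp hw
      subst this
      simp only [map_smul, dL_nil, X_nil, map_zero, smul_zero, Finsupp.smul_apply, e_nil_nil]
      constructor
      · simp
      · intro g
        rw [← smul_add, mul_comm u g, av_mul, av_mul, u_nil, u_nil]
        simp
  | succ n ih =>
    have hE' : ∀ p ∈ L (ZMod 2) (n + 1), X1 p + X0 p = C 0 (dL 0 p) + p [] • e [] := by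
      intro p hp
      refine L_ind (P := fun p => X1 p + X0 p = C 0 (dL 0 p) + p [] • e []) ?_ ?_ ?_ p hp
      · simp
      · intro p q h1 h2
        simp only [map_add, Finsupp.add_apply, add_smul] at h1 h2 ⊢
        linear_combination (norm := module) h1 + h2
      · intro r w hw
        rcases w with _ | ⟨k, w⟩
        · simp at hw
        · rw [List.length_cons] at hw
          have hw' : w.length = n := by omega
          have hwm : (e w : W) ∈ L (ZMod 2) n := hw' ▸ e_mem_L (R := ZMod 2) w
          rw [Finsupp.smul_apply, e_cons_nil, smul_zero, zero_smul, add_zero]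
          simp only [map_smul]
          rw [← smul_add]
          congr 1
          rcases k with _ | k
          · rw [← C_e, X_C0, X_C0, dL_C, if_pos rfl, ← (ih _ hwm).1]
            simp only [map_add, one_smul]
            have h1 := dbl (C 0 (e w : W))
            have h2 := dbl (C 1 (e w : W))
            linear_combination (norm := module) h1 + h2
          · have h3 := (ih _ hwm).2 (Polynomial.X ^ k)
            rw [← C_e, ← E_X, dL0_E, ← h3, X_E, X_E, map_add, u]
            have h1 := dbl (E (Polynomial.X * Polynomial.X ^ k) (e w : W))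
            linear_combination (norm := module) h1
    intro p hp
    refine ⟨hE' p hp, ?_⟩
    intro g
    induction g using pind with
    | h0 => simp [E_zero]
    | hadd g h hg hh =>
      rw [mul_add, map_add, map_add, E_add]
      simp only [LinearMap.add_apply]
      linear_combination (norm := module) hg + hh
    | hX k =>
      induction k generalizing p with
      | zero =>
        rw [pow_zero, mul_one, E_one]
        refine L_ind (P := fun p => Polynomial.aeval X1 u p + Polynomial.aeval X0 u p =
          C 1 (dL 0 p)) ?_ ?_ ?_ p hp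
        · simp
        · intro p q h1 h2
          simp only [map_add] at h1 h2 ⊢
          linear_combination (norm := module) h1 + h2
        · intro r w hw
          rcases w with _ | ⟨k, w⟩
          · simp at hw
          · rw [List.length_cons] at hw
            have hw' : w.length = n := by omega
            have hwm : (e w : W) ∈ L (ZMod 2) n := hw' ▸ e_mem_L (R := ZMod 2) w
            simp only [map_smul]
            rw [← smul_add]
            congr 1
            rcases k with _ | k
            · rw [← C_e, u_C0, u_C0, dL_C, if_pos rfl, ← (ih _ hwm).1, map_add]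
              have h1 := dbl (C 2 (e w : W))
              linear_combination (norm := module) h1
            · have h3 := (ih _ hwm).2 (Polynomial.X ^ k)
              rw [← C_e, ← E_X, dL0_E, ← h3, u_E, u_E, map_add]
              have h1 := dbl (E (u * Polynomial.X ^ k) (e w : W))
              linear_combination (norm := module) h1
      | succ k ihk =>
        have h1 := ihk p hp
        have h2 := hE' _ (aeval_mem_L 0 (u * Polynomial.X ^ k) hp)
        have h5 := u_apply_nil 0 (Polynomial.X ^ k) p
        rw [← u] at h5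
        rw [dL0_aeval, h5, zero_smul, add_zero] at h2
        have h3 : Polynomial.aeval X1 (u * Polynomial.X ^ k) p =
            Polynomial.aeval X0 (u * Polynomial.X ^ k) p + E (Polynomial.X ^ k) (dL 0 p) := by
          have := dbl (Polynomial.aeval X0 (u * Polynomial.X ^ k) p)
          linear_combination (norm := module) h1 - this
        have e1 : u * Polynomial.X ^ (k + 1) = Polynomial.X * (u * Polynomial.X ^ k) := by ring
        rw [e1, av_mul _ Polynomial.X, av_mul _ Polynomial.X, av_X, av_X, h3, map_add, X_E, ← u,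
          ← pow_succ']
        have h6 := dbl (C 0 (Polynomial.aeval X1 (u * Polynomial.X ^ k) (dL 0 p)))
        linear_combination (norm := module) h2 + h6

theorem DP (g : Polynomial (ZMod 2)) (p : W) :
    Polynomial.aeval X1 (u * g) p + Polynomial.aeval X0 (u * g) p = E g (dL 0 p) := by
  induction p using W_ind with
  | h0 => simp
  | hadd p q hp hq =>
    simp only [map_add] at hp hq ⊢
    linear_combination (norm := module) hp + hq
  | he w => exact (DE _ _ (e_mem_L w)).2 g

theorem Io_diff (k : ℕ) (p : W) :
    Io 1 1 k p + Io 1 0 k p = sL 1 k (dL 0 p) + sL 0 k (dL 0 p) := by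
  rcases k with _ | k
  · rw [Io_zero, Io_zero, sL_zero, sL_zero, dbl, dbl]
  · rw [Io, Io, iota_one, ← u, DP, sL_E, sL_E, E_add, Polynomial.pow_comp, Polynomial.X_comp,
      Polynomial.C_1, Polynomial.C_0, add_zero]

theorem sL_diff (m k : ℕ) (p : W) : sL (((m + 1 : ℕ) : ZMod 2)) k p + sL ((m : ℕ) : ZMod 2) k p =
    sL 1 k p + sL 0 k p := by
  rcases zmod2_cases (m : ZMod 2) with h | h
  · have : ((m + 1 : ℕ) : ZMod 2) = 1 := by push_cast; rw [h, zero_add]
    rw [this, h]
  · have : ((m + 1 : ℕ) : ZMod 2) = 0 := by
      push_cast; rw [h]; decide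
    rw [this, h, add_comm]

theorem sL_zero' (k : ℕ) (p : W) : sL 0 k p = C k p := by
  rcases k with _ | k
  · rfl
  · rw [sL_E, Polynomial.C_0, add_zero, E_X]

theorem I0_zero (p : W) : I0 0 p = p := In_zero_apply 0 p

/-- `I_m (c_k P) = σ^m(c_k) I_m P + ι_k(X) I_{m-1} P`, all `m`. -/
theorem dL0_In_C (m k : ℕ) (p : W) : dL 0 (I0 (m + 1) (C k p)) =
    sL (((m + 1 : ℕ) : ZMod 2)) k (dL 0 (I0 (m + 1) p)) +
      (if k = 0 then (I0 (m + 1) p) [] else 0) • e [] + Io 1 1 k (dL 0 (I0 m p)) := by
  rw [In_C, map_add, mul_one, dL0_sL, Io, dL0_aeval]; rfl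

/-- Stripping a last letter `0`. -/
theorem dL_In (m : ℕ) (p : W) :
    dL 0 (I0 (m + 1) p) = I0 (m + 1) (dL 0 p) + dL 0 (I0 m (dL 0 p)) := by
  induction p using W_ind' generalizing m with
  | h0 => simp
  | hadd p q hp hq =>
    simp only [map_add] at hp hq ⊢
    rw [hp, hq]; abel
  | hnil => rw [In_nil, dL_nil]; simp
  | hC k p ih =>
    have h1 : dL 0 (C k p) = C k (dL 0 p) + (if k = 0 then p [] else 0) • e [] := by
      rw [dL_C]
    have h2 : I0 (m + 1) (dL 0 (C k p)) = I0 (m + 1) (C k (dL 0 p)) := by
      rw [h1, map_add, map_smul, In_nil, smul_zero, add_zero]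
    have h3 : dL 0 (I0 m (dL 0 (C k p))) = dL 0 (I0 m (C k (dL 0 p))) := by
      rw [h1, map_add, map_add, map_smul, map_smul]
      rcases m with _ | m
      · simp only [I0_zero, dL_nil, smul_zero, add_zero]
      · rw [In_nil, map_zero, smul_zero, add_zero]
    have h1' : dL 0 (C k (dL 0 p)) = C k (dL 0 (dL 0 p)) +
        (if k = 0 then (dL 0 p) [] else 0) • e [] := by
      rw [dL_C]
    have h4 : (I0 (m + 1) p) [] = (I0 m (dL 0 p)) [] := by
      rw [In_apply_nil, In_apply_nil, dL_apply, List.replicate_succ']
    rw [dL0_In_C, ih m, h2, h3, In_C, mul_one, h4, map_add]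
    have h5 := sL_diff m k (dL 0 (I0 m (dL 0 p)))
    have h6 := Io_diff k (I0 m (dL 0 p))
    rcases m with _ | m
    · simp only [I0_zero] at *
      rw [h1']
      rw [Nat.cast_zero, sL_zero' k] at h5
      rw [sL_zero' k] at h6
      linear_combination (norm := (match_scalars <;>
        first | ring1 | (ring_nf; reduce_mod_char) | reduce_mod_char)) (1 : ZMod 2) • (h5 + h6)
    · rw [dL0_In_C]
      have h7 : dL 0 (I0 (m + 1) p) = I0 (m + 1) (dL 0 p) + dL 0 (I0 m (dL 0 p)) := ih m
      rw [h7, map_add (Io 1 1 k)]
      linear_combination (norm := (match_scalars <;>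
        first | ring1 | (ring_nf; reduce_mod_char) | reduce_mod_char)) (1 : ZMod 2) • (h5 + h6)

end

end Pool.Agent.ECU.TS
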