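import Pool.Agent.ECU.TS1

/-!
# Insertion operators over `𝔽₂`, `a = 1`: words with last letter `≥ k`
-/

set_option autoImplicit false

namespace Pool.Agent.ECU.TS

open Finset Pool.Agent.ECU

noncomputable section

/-! ### Powers -/

theorem comm_mod (A : Module.End (ZMod 2) W)
    (hA : ∀ m p, A (I0 (m + 1) p) = I0 (m + 1) (A p) + A (I0 m (A p)))
    (M0 : Submodule (ZMod 2) W) (hMA : ∀ p ∈ M0, A p ∈ M0)
    (hMI : ∀ m, ∀ p ∈ M0, I0 m p ∈ M0) (i : ℕ) :
    ∀ Q, (∀ i', i < i' → (A ^ i') Q ∈ M0) → ∀ m, (A ^ i) (I0 m Q) + I0 m ((A ^ i) Q) ∈ M0 := by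
  induction i with
  | zero =>
    intro Q _ m
    rw [pow_zero, Module.End.one_apply, Module.End.one_apply, dbl]
    exact M0.zero_mem
  | succ i ih =>
    intro Q hQ m
    have hQ' : ∀ i', i < i' → (A ^ i') (A Q) ∈ M0 := by
      intro i' hi'
      have := hQ (i' + 1) (by omega)
      rwa [pow_succ, Module.End.mul_apply] at this
    rcases m with _ | m
    · rw [I0_zero, I0_zero, dbl]
      exact M0.zero_mem
    · have h1 := ih (A Q) hQ' (m + 1)
      have h2 := ih (A Q) hQ' m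
      have h3 : A (I0 m ((A ^ (i + 1)) Q)) ∈ M0 := by
        have h4 : A ((A ^ (i + 1)) Q) ∈ M0 := by
          have := hQ (i + 2) (by omega)
          rwa [pow_succ', Module.End.mul_apply] at this
        rcases m with _ | m
        · rw [I0_zero]; exact h4
        · rw [hA]
          exact M0.add_mem (hMI _ _ h4) (hMA _ (hMI _ _ h4))
      have h5 : (A ^ (i + 1)) Q = (A ^ i) (A Q) := by
        rw [pow_succ, Module.End.mul_apply]
      rw [h5] at h3 ⊢
      have h6 : (A ^ (i + 1)) (I0 (m + 1) Q) = (A ^ i) (I0 (m + 1) (A Q)) +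
          A ((A ^ i) (I0 m (A Q))) := by
        rw [pow_succ, Module.End.mul_apply, hA, map_add, ← Module.End.mul_apply (A ^ i) A,
          ← pow_succ, pow_succ', Module.End.mul_apply]
      have h7 := hMA _ h2
      rw [map_add] at h7
      have h8 := M0.add_mem h1 (M0.add_mem h7 h3)
      convert h8 using 1
      rw [h6]
      linear_combination (norm := (match_scalars <;>
        first | ring1 | (ring_nf; reduce_mod_char) | reduce_mod_char)) (1 : ZMod 2) • (dbl (A (I0 m ((A ^ i) (A Q)))))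

/-! ### Words with last letter `≥ k` -/

/-- Combinations of nonempty words with last letter `≥ k`. -/
def LG (k : ℕ) : Submodule (ZMod 2) W :=
  Finsupp.supported (ZMod 2) (ZMod 2) {w : List ℕ | ∃ v l, w = v ++ [l] ∧ k ≤ l}

theorem mem_supp {s : Set (List ℕ)} {p : W} :
    p ∈ Finsupp.supported (ZMod 2) (ZMod 2) s ↔ ∀ w, p w ≠ 0 → w ∈ s := by
  constructor
  · intro h w hw
    exact h (Finsupp.mem_support_iff.mpr hw)
  · intro h w hw
    exact h w (Finsupp.mem_support_iff.mp hw)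

theorem mem_LG {k : ℕ} {p : W} : p ∈ LG k ↔ ∀ w, p w ≠ 0 → ∃ v l, w = v ++ [l] ∧ k ≤ l :=
  mem_supp

theorem LG_nil {k : ℕ} {p : W} (hp : p ∈ LG k) : p [] = 0 := by
  by_contra h
  obtain ⟨v, l, h1, _⟩ := mem_LG.mp hp [] h
  simp at h1

theorem LG_C {k : ℕ} (j : ℕ) {p : W} (hp : p ∈ LG k) : C j p ∈ LG k := by
  rw [mem_LG]
  intro w hw
  rcases w with _ | ⟨a, w⟩
  · rw [C_apply_nil] at hw; exact absurd rfl hw
  · rw [C_apply_cons] at hw
    split_ifs at hw with h
    · obtain ⟨v, l, rfl, h2⟩ := mem_LG.mp hp w hw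
      exact ⟨a :: v, l, rfl, h2⟩
    · exact absurd rfl hw

theorem LG_sL {k : ℕ} (b : ZMod 2) (j : ℕ) {p : W} (hp : p ∈ LG k) : sL b j p ∈ LG k := by
  rcases j with _ | j
  · exact LG_C 0 hp
  · rw [sL, LinearMap.sum_apply]
    apply Submodule.sum_mem
    intro i _
    rw [LinearMap.smul_apply]
    exact Submodule.smul_mem _ _ (LG_C _ hp)

theorem dLk_C {k : ℕ} (j : ℕ) {p : W} (hp : p ∈ LG k) : dL k (C j p) = C j (dL k p) := by
  rw [dL_C, LG_nil hp, ite_self, zero_smul, add_zero]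

theorem dLk_sL {k : ℕ} (b : ZMod 2) (j : ℕ) {p : W} (hp : p ∈ LG k) :
    dL k (sL b j p) = sL b j (dL k p) := by
  rcases j with _ | j
  · exact dLk_C 0 hp
  · rw [sL, LinearMap.sum_apply, map_sum, LinearMap.sum_apply]
    apply Finset.sum_congr rfl
    intro i _
    rw [LinearMap.smul_apply, map_smul, dLk_C _ hp, LinearMap.smul_apply]

/-- Induction for `LG k`. -/
theorem LG_ind {k : ℕ} {P : W → Prop} (h0 : P 0) (hadd : ∀ p q, P p → P q → P (p + q))
    (hb : ∀ l, k ≤ l → P (e [l]))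
    (hC : ∀ (j : ℕ) (w : List ℕ), e w ∈ LG k → P (e w) → P (C j (e w)))
    (p : W) (hp : p ∈ LG k) : P p := by
  refine supp_ind h0 hadd ?_ p hp
  rintro r w ⟨v, l, rfl, hl⟩
  rcases zmod2_cases r with h | h
  · subst h; simpa using h0
  · subst h
    rw [one_smul]
    clear hp
    induction v with
    | nil => exact hb l hl
    | cons j v ih =>
      rw [List.cons_append, ← C_e]
      refine hC j _ ?_ ih
      exact Finsupp.single_mem_supported _ _ ⟨v, l, rfl, hl⟩

theorem e_LG {k l : ℕ} (v : List ℕ) (h : k ≤ l) : (e (v ++ [l]) : W) ∈ LG k :=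
  Finsupp.single_mem_supported _ _ ⟨v, l, rfl, h⟩

theorem X0_nil : X0 (e []) = 0 := by rw [X_nil, zero_smul]

theorem X0_letter (l : ℕ) : X0 (e [l + 1]) = e [l + 2] := by
  rw [← C_e, X_C, pow_succ, Module.End.mul_apply, X0_nil]
  simp

theorem X0_pow_letter (i l : ℕ) : (X0 ^ i) (e [l + 1]) = e [l + 1 + i] := by
  induction i with
  | zero => rfl
  | succ i ih =>
    rw [pow_succ', Module.End.mul_apply, ih, show l + 1 + i = (l + i) + 1 by omega, X0_letter]
    congr 2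
    omega

theorem dLk_letter {k l : ℕ} (h : l ≠ k) : dL k (e [l] : W) = 0 := by
  rw [← C_e, dL_C, if_neg h, dL_nil, map_zero, zero_smul, add_zero]

theorem X0_LG {k : ℕ} (hk : 1 ≤ k) (n : ℕ) : ∀ p ∈ L (ZMod 2) n, p ∈ LG k →
    X0 p ∈ LG k ∧ dL k (X0 p) = X0 (dL k p) := by
  induction n with
  | zero =>
    intro p hp hp2
    have : p = 0 := by
      ext w
      by_contra hw
      have h1 := (mem_L.mp hp) w hw
      have : w = [] := List.length_eq_zero_iff.mp h1
      subst this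
      exact hw (LG_nil hp2)
    subst this
    simp
  | succ n ih =>
    have hK : ∀ p ∈ L (ZMod 2) n ⊓ LG k, X0 p ∈ L (ZMod 2) n ⊓ LG k := by
      rintro p ⟨h1, h2⟩
      exact ⟨X_mem_L _ _ h1, (ih p h1 h2).1⟩
    intro p hp hp2
    have hp3 : p ∈ Finsupp.supported (ZMod 2) (ZMod 2)
        ({w : List ℕ | w.length = n + 1} ∩ {w : List ℕ | ∃ v l, w = v ++ [l] ∧ k ≤ l}) := by
      rw [mem_supp]
      intro w hw
      exact ⟨mem_L.mp hp w hw, mem_LG.mp hp2 w hw⟩
    refine supp_ind (P := fun p => X0 p ∈ LG k ∧ dL k (X0 p) = X0 (dL k p)) ?_ ?_ ?_ p hp3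
    · simp
    · rintro p q ⟨h1, h2⟩ ⟨h3, h4⟩
      rw [map_add, map_add, map_add, map_add, h2, h4]
      exact ⟨Submodule.add_mem _ h1 h3, rfl⟩
    · rintro r w ⟨hw, v, l, rfl, hl⟩
      simp only [map_smul]
      have hw' : (v ++ [l]).length = n + 1 := hw
      rw [List.length_append, List.length_singleton] at hw'
      suffices h : X0 (e (v ++ [l])) ∈ LG k ∧ dL k (X0 (e (v ++ [l]))) = X0 (dL k (e (v ++ [l])))
        from ⟨Submodule.smul_mem _ _ h.1, by rw [h.2]⟩
      rcases v with _ | ⟨j, v⟩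
      · obtain ⟨l, rfl⟩ : ∃ l', l = l' + 1 := ⟨l - 1, by omega⟩
        rw [List.nil_append, X0_letter, dLk_letter (by omega)]
        refine ⟨e_LG [] (by omega), ?_⟩
        by_cases h : l + 1 = k
        · rw [← C_e, dL_C, if_pos h, dL_nil, map_zero, zero_add, map_smul, X0_nil, smul_zero]
        · rw [dLk_letter h, map_zero]
      · rw [List.length_cons] at hw'
        have h1 : (e (v ++ [l]) : W) ∈ L (ZMod 2) n := by
          have := e_mem_L (R := ZMod 2) (v ++ [l])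
          rwa [List.length_append, List.length_singleton, show v.length + 1 = n by omega] at this
        have h2 := e_LG (k := k) v hl
        rw [List.cons_append, ← C_e]
        obtain ⟨h3, h4⟩ := ih _ h1 h2
        rcases j with _ | j
        · rw [X_C0, one_smul, map_add (C 0)]
          refine ⟨Submodule.add_mem _ (Submodule.add_mem _ (LG_C _ h3) (LG_C _ h2)) (LG_C _ h2), ?_⟩
          rw [map_add, map_add, dLk_C 0 h3, dLk_C 0 h2, dLk_C 1 h2, h4, X_C0, one_smul, map_add]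
        · rw [← E_X, X_E, map_add, E_X, ← pow_succ', E_X, dLk_C _ h2]
          have h5 := aeval_stable _ hK (Polynomial.X * (Polynomial.X + 1) * Polynomial.X ^ j) _
            ⟨h1, h2⟩
          rw [dLk_C 0 h5.2, aeval_comm_on _ hK (fun q hq => (ih q hq.1 hq.2).2) _ _ ⟨h1, h2⟩,
            dLk_C _ h2, ← E_X, ← E_X, X_E, ← pow_succ']
          refine ⟨Submodule.add_mem _ ?_ (LG_C _ h5.2), rfl⟩
          rw [E_X]; exact LG_C _ h2

theorem X0_mem_LG {k : ℕ} (hk : 1 ≤ k) (p : W) (hp : p ∈ LG k) : X0 p ∈ LG k := by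
  refine supp_ind (P := fun p => X0 p ∈ LG k) ?_ ?_ ?_ p hp
  · simp
  · intro p q h1 h2; rw [map_add]; exact Submodule.add_mem _ h1 h2
  · rintro r w ⟨v, l, rfl, hl⟩
    rw [map_smul]
    exact Submodule.smul_mem _ _ (X0_LG hk _ _ (e_mem_L _) (e_LG v hl)).1

theorem dLk_X0 {k : ℕ} (hk : 1 ≤ k) (p : W) (hp : p ∈ LG k) : dL k (X0 p) = X0 (dL k p) := by
  refine supp_ind (P := fun p => dL k (X0 p) = X0 (dL k p)) ?_ ?_ ?_ p hp
  · simp
  · intro p q h1 h2; simp only [map_add] at h1 h2 ⊢; rw [h1, h2]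
  · rintro r w ⟨v, l, rfl, hl⟩
    simp only [map_smul]
    rw [(X0_LG hk _ _ (e_mem_L _) (e_LG v hl)).2]

theorem aeval_LG {k : ℕ} (hk : 1 ≤ k) (g : Polynomial (ZMod 2)) {p : W} (hp : p ∈ LG k) :
    Polynomial.aeval X0 g p ∈ LG k :=
  aeval_stable _ (X0_mem_LG hk) g p hp

theorem dLk_aeval {k : ℕ} (hk : 1 ≤ k) (g : Polynomial (ZMod 2)) {p : W} (hp : p ∈ LG k) :
    dL k (Polynomial.aeval X0 g p) = Polynomial.aeval X0 g (dL k p) :=
  aeval_comm_on _ (X0_mem_LG hk) (dLk_X0 hk) g p hp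

theorem Io_nil (y : ZMod 2) (k : ℕ) : Io 1 y (k + 1) (e []) = 0 := by
  rw [Io, iota_one, ← u, mul_comm, av_mul, u_nil, map_zero]

theorem In_letter (m l : ℕ) : I0 (m + 1) (e [l + 1]) = 0 := by
  rw [← C_e, In_C, In_nil, map_zero, zero_add]
  rcases m with _ | m
  · rw [I0_zero, Io_nil]
  · rw [In_nil, map_zero]

/-- `(F1)` -/
theorem F1 {k : ℕ} (hk : 1 ≤ k) (m : ℕ) (p : W) (hp : p ∈ LG k) :
    I0 m p ∈ LG k ∧ dL k (I0 m p) = I0 m (dL k p) := by
  revert m
  refine LG_ind (P := fun p => ∀ m, I0 m p ∈ LG k ∧ dL k (I0 m p) = I0 m (dL k p))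
    ?_ ?_ ?_ ?_ p hp
  · simp
  · intro p q h1 h2 m
    simp only [map_add]
    rw [(h1 m).2, (h2 m).2]
    exact ⟨Submodule.add_mem _ (h1 m).1 (h2 m).1, rfl⟩
  · intro l hl m
    obtain ⟨l, rfl⟩ : ∃ l', l = l' + 1 := ⟨l - 1, by omega⟩
    rcases m with _ | m
    · rw [I0_zero, I0_zero]
      exact ⟨e_LG [] hl, rfl⟩
    · rw [In_letter]
      refine ⟨Submodule.zero_mem _, ?_⟩
      rw [map_zero, ← C_e, dL_C, dL_nil, map_zero, zero_add, map_smul, In_nil, smul_zero]
  · intro j w hw h m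
    rcases m with _ | m
    · rw [I0_zero, I0_zero]
      exact ⟨LG_C _ hw, rfl⟩
    · rw [In_C, map_add, mul_one, dLk_C _ hw, In_C, mul_one, dLk_sL _ _ (h _).1, (h _).2, Io,
        dLk_aeval hk _ (h m).1, (h m).2]
      exact ⟨Submodule.add_mem _ (LG_sL _ _ (h _).1) (aeval_LG hk _ (h m).1), rfl⟩

end

end Pool.Agent.ECU.TS
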