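import Pool.Agent.ECU.TS2

/-!
# Insertion operators over `𝔽₂`, `a = 1`: the first key lemma

`CW`: a homogeneous combination of words of length `N ≥ 1` with first letters `≥ 2`, all of whose
insertions have only words with first letter `1`, and without the word `D 0 ⋯ 0`, is zero.
-/

set_option autoImplicit false

namespace Pool.Agent.ECU.TS

open Finset Pool.Agent.ECU

noncomputable section

/-! ### The coefficient of a one-letter word -/

theorem coeff_aeval {k : ℕ} (g : Polynomial (ZMod 2)) (q : W) (hq : q ∈ LG (k + 1))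
    (hq1 : q ∈ L (ZMod 2) 1) : (Polynomial.aeval X0 g q) [k + 2] =
      g.coeff 0 * q [k + 2] + g.coeff 1 * q [k + 1] := by
  have hp3 : q ∈ Finsupp.supported (ZMod 2) (ZMod 2)
      ({w : List ℕ | w.length = 1} ∩ {w : List ℕ | ∃ v l, w = v ++ [l] ∧ k + 1 ≤ l}) := by
    rw [mem_supp]
    intro w hw
    exact ⟨mem_L.mp hq1 w hw, mem_LG.mp hq w hw⟩
  refine supp_ind (P := fun q => (Polynomial.aeval X0 g q) [k + 2] =
      g.coeff 0 * q [k + 2] + g.coeff 1 * q [k + 1]) ?_ ?_ ?_ q hp3
  · simp
  · intro p q h1 h2
    rw [map_add, Finsupp.add_apply, h1, h2, Finsupp.add_apply, Finsupp.add_apply]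
    ring
  · rintro r w ⟨hw, v, l, rfl, hl⟩
    have hv : v = [] := by
      have : (v ++ [l]).length = 1 := hw
      rw [List.length_append, List.length_singleton] at this
      exact List.length_eq_zero_iff.mp (by omega)
    subst hv
    rw [map_smul, Finsupp.smul_apply, Finsupp.smul_apply, Finsupp.smul_apply, smul_eq_mul,
      smul_eq_mul, smul_eq_mul, List.nil_append]
    suffices h : (Polynomial.aeval X0 g (e [l])) [k + 2] =
        g.coeff 0 * (e [l] : W) [k + 2] + g.coeff 1 * (e [l] : W) [k + 1] by
      rw [h]; ring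
    obtain ⟨l, rfl⟩ : ∃ l', l = l' + 1 := ⟨l - 1, by omega⟩
    induction g using pind with
    | h0 => simp
    | hadd g h hg hh =>
      rw [av_add, Finsupp.add_apply, hg, hh, Polynomial.coeff_add, Polynomial.coeff_add]
      ring
    | hX i =>
      rw [av_pow, X0_pow_letter, Polynomial.coeff_X_pow, Polynomial.coeff_X_pow]
      simp only [e, Finsupp.single_apply, List.cons.injEq, and_true]
      rcases i with _ | i
      · simp
      · rcases i with _ | i
        · have h1 : (l + 1 + (0 + 1) = k + 2) ↔ (l + 1 = k + 1) := by omega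
          simp [h1]
        · have h1 : ¬ (l + 1 + (i + 1 + 1) = k + 2) := by omega
          rw [if_neg h1]
          simp

theorem coeff_iota_zero (j : ℕ) : (iota (1 : ZMod 2) (j + 1)).coeff 0 = 0 := by
  rw [iota_one, mul_assoc, Polynomial.coeff_X_mul_zero]

theorem coeff_iota_one (j : ℕ) : (iota (1 : ZMod 2) (j + 2)).coeff 1 = 1 := by
  rw [iota_one, mul_assoc]
  have := Polynomial.coeff_X_mul ((Polynomial.X + 1) * ((Polynomial.X ^ (j + 1)).comp
    (Polynomial.X + 1) + Polynomial.X ^ (j + 1)) : Polynomial (ZMod 2)) 0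
  rw [zero_add] at this
  rw [this, Polynomial.coeff_zero_eq_eval_zero]
  simp

theorem L0_eq {p : W} (hp : p ∈ L (ZMod 2) 0) : p = p [] • e [] := by
  ext w
  rcases w with _ | ⟨a, w⟩
  · rw [Finsupp.smul_apply, e_nil_nil, smul_eq_mul, mul_one]
  · rw [Finsupp.smul_apply]
    have h1 : p (a :: w) = 0 := by
      by_contra h
      have := mem_L.mp hp _ h
      simp at this
    rw [h1]
    simp [e]

theorem I0_scalar {n : ℕ} {p : W} (hp : p ∈ L (ZMod 2) n) :
    I0 n p = p (List.replicate n 0) • e [] := by
  have : I0 n p ∈ L (ZMod 2) 0 := In_mem_L 0 (by rwa [zero_add])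
  rw [L0_eq this, In_apply_nil]

theorem LG_mono {k l : ℕ} (h : k ≤ l) : LG l ≤ LG k := by
  intro p hp
  rw [mem_LG] at hp ⊢
  intro w hw
  obtain ⟨v, a, h1, h2⟩ := hp w hw
  exact ⟨v, a, h1, h.trans h2⟩

theorem LG_rep {k n : ℕ} (hk : 1 ≤ k) {p : W} (hp : p ∈ LG k) : p (List.replicate n 0) = 0 := by
  by_contra h
  obtain ⟨v, l, h1, h2⟩ := mem_LG.mp hp _ h
  have : l ∈ List.replicate n 0 := by rw [h1]; simp
  have := List.eq_of_mem_replicate this
  omega

/-- `(F2)`, one first letter. -/
theorem F2' (k N j : ℕ) (q : W) (hq : q ∈ LG (k + 1)) (hL : q ∈ L (ZMod 2) (N + 1)) :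
    (I0 (N + 1) (C (j + 2) q)) [k + 2] = q (List.replicate N 0 ++ [k + 1]) := by
  have h1 : I0 (N + 1) q = 0 := by
    rw [I0_scalar hL, LG_rep (by omega) hq, zero_smul]
  have h2 := F1 (k := k + 1) (by omega) N q hq
  have h3 : I0 N q ∈ L (ZMod 2) 1 := In_mem_L 0 (by rwa [add_comm])
  rw [In_C, h1, map_zero, zero_add, Io, coeff_aeval _ _ h2.1 h3, coeff_iota_zero, coeff_iota_one,
    zero_mul, zero_add, one_mul]
  have h4 : (I0 N q) [k + 1] = (dL (k + 1) (I0 N q)) [] := rfl
  rw [h4, h2.2, In_apply_nil, dL_apply]

/-- Combinations of words with first letter `≥ 2`. -/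
def F2S : Submodule (ZMod 2) W :=
  Finsupp.supported (ZMod 2) (ZMod 2) {w : List ℕ | ∃ j v, w = (j + 2) :: v}

/-- Combinations of words with first letter `1`. -/
def F1S : Submodule (ZMod 2) W :=
  Finsupp.supported (ZMod 2) (ZMod 2) {w : List ℕ | ∃ v, w = 1 :: v}

theorem mem_F2S {p : W} : p ∈ F2S ↔ ∀ w, p w ≠ 0 → ∃ j v, w = (j + 2) :: v := mem_supp

theorem mem_F1S {p : W} : p ∈ F1S ↔ ∀ w, p w ≠ 0 → ∃ v, w = 1 :: v := mem_supp

theorem H_nil_iff {D : ℕ} {w : List ℕ} : (e w : W) ∈ H D ↔ w.sum = D := by
  rw [mem_H]
  constructor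
  · intro h; exact h w (by simp [e])
  · intro h v hv
    have : w = v := by
      by_contra h'
      apply hv
      simp [e, h']
    rw [← this]; exact h

/-- `(F2)` -/
theorem F2 (k N D : ℕ) (X : W) (hX : X ∈ LG (k + 1)) (hL : X ∈ L (ZMod 2) (N + 2))
    (hH : X ∈ H (D + (k + 1))) (hF : X ∈ F2S) :
    (I0 (N + 1) X) [k + 2] = X (D :: (List.replicate N 0 ++ [k + 1])) := by
  have hp3 : X ∈ Finsupp.supported (ZMod 2) (ZMod 2) {w : List ℕ |
      w.length = N + 2 ∧ (∃ v l, w = v ++ [l] ∧ k + 1 ≤ l) ∧ w.sum = D + (k + 1) ∧
      ∃ j v, w = (j + 2) :: v} := by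
    rw [mem_supp]
    intro w hw
    exact ⟨mem_L.mp hL w hw, mem_LG.mp hX w hw, mem_H.mp hH w hw, mem_F2S.mp hF w hw⟩
  refine supp_ind (P := fun X => (I0 (N + 1) X) [k + 2] =
    X (D :: (List.replicate N 0 ++ [k + 1]))) ?_ ?_ ?_ X hp3
  · simp
  · intro p q h1 h2
    rw [map_add, Finsupp.add_apply, h1, h2, Finsupp.add_apply]
  · rintro r w ⟨h1, ⟨v, l, h2, h3⟩, h4, ⟨j, v', h5⟩⟩
    rw [map_smul, Finsupp.smul_apply, Finsupp.smul_apply]
    congr 1
    rcases v with _ | ⟨a, v⟩
    · rw [h2] at h1
      simp at h1
    · rw [List.cons_append] at h2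
      rw [h2, List.length_cons] at h1
      obtain ⟨rfl, rfl⟩ : a = j + 2 ∧ v ++ [l] = v' := by
        rw [h2] at h5
        exact List.cons.inj h5
      subst h2
      have hq : (e (v ++ [l]) : W) ∈ L (ZMod 2) (N + 1) := by
        have := e_mem_L (R := ZMod 2) (v ++ [l])
        rwa [show (v ++ [l]).length = N + 1 by omega] at this
      rw [← C_e, F2' k N j _ (e_LG v h3) hq, C_apply_cons]
      split_ifs with h
      · rfl
      · simp only [e, Finsupp.single_apply]
        rw [if_neg]
        intro h6
        rw [h6, List.sum_cons] at h4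
        simp at h4
        omega

/-! ### The condition `(CW)` -/

theorem dL_F1S (k : ℕ) {p : W} (hp : p ∈ F1S) (h : (dL k p) [] = 0) : dL k p ∈ F1S := by
  rw [mem_F1S]
  intro w hw
  rcases w with _ | ⟨a, w⟩
  · exact absurd h hw
  · rw [dL_apply] at hw
    obtain ⟨v, hv⟩ := mem_F1S.mp hp _ hw
    rw [List.cons_append] at hv
    exact ⟨w, by rw [(List.cons.inj hv).1]⟩

theorem F2S_rep {n : ℕ} {p : W} (hp : p ∈ F2S) : p (List.replicate n 0) = 0 := by
  by_contra h
  obtain ⟨j, v, hv⟩ := mem_F2S.mp hp _ h
  rcases n with _ | n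
  · simp at hv
  · rw [List.replicate_succ] at hv
    have := (List.cons.inj hv).1
    omega

theorem pow_dL0_apply (i : ℕ) (p : W) (w : List ℕ) :
    ((dL 0 ^ i) p) w = p (w ++ List.replicate i 0) := by
  induction i generalizing w with
  | zero => simp
  | succ i ih =>
    rw [pow_succ', Module.End.mul_apply, dL_apply, ih, List.append_assoc]
    rfl

theorem CW (N : ℕ) : ∀ (D : ℕ) (X : W), X ∈ L (ZMod 2) (N + 1) → X ∈ H D → X ∈ F2S →
    (∀ m, 1 ≤ m → I0 m X ∈ F1S) → X (D :: List.replicate N 0) = 0 → X = 0 := by
  induction N using Nat.strong_induction_on with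
  | _ N IH =>
  intro D X hL hH hF hI hX
  rcases N with _ | N
  · ext w
    by_contra hw
    have h1 : w.length = 1 := mem_L.mp hL w hw
    have h2 := mem_H.mp hH w hw
    obtain ⟨a, rfl⟩ := List.length_eq_one_iff.mp h1
    rw [List.sum_singleton] at h2
    subst h2
    exact hw hX
  · -- step 1
    have step1 : ∀ d i, 1 ≤ i → N + 2 ≤ i + d → (dL 0 ^ i) X = 0 := by
      intro d
      induction d with
      | zero =>
        intro i hi h
        ext w
        rw [pow_dL0_apply]
        by_contra hw
        have h1 := mem_L.mp hL _ hw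
        rw [List.length_append, List.length_replicate] at h1
        have : w = [] := List.length_eq_zero_iff.mp (by omega)
        subst this
        exact hw (F2S_rep hF)
      | succ d ihd =>
        intro i hi h
        by_cases hN : N + 2 ≤ i
        · exact ihd i hi (by omega)
        · have h1 := comm_mod (dL 0) dL_In ⊥ (fun p hp => by
            rw [Submodule.mem_bot] at hp ⊢; rw [hp, map_zero]) (fun m p hp => by
            rw [Submodule.mem_bot] at hp ⊢; rw [hp, map_zero]) i X (fun i' hi' => by
            rw [Submodule.mem_bot]; exact ihd i' (by omega) (by omega))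
          have h2 : ∀ m, I0 m ((dL 0 ^ i) X) = (dL 0 ^ i) (I0 m X) := by
            intro m
            exact (eq_of_add_eq_zero ((Submodule.mem_bot (ZMod 2)).mp (h1 m))).symm
          have hrep : ∀ w, w ++ List.replicate i 0 ≠ [] := by
            intro w hw
            have := congrArg List.length hw
            simp at this
            omega
          have hfF : (dL 0 ^ i) X ∈ F2S := by
            rw [mem_F2S]
            intro w hw
            rw [pow_dL0_apply] at hw
            obtain ⟨j, v, hv⟩ := mem_F2S.mp hF _ hw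
            have hl := mem_L.mp hL _ hw
            rcases w with _ | ⟨a, w⟩
            · rw [List.nil_append, List.length_replicate] at hl
              omega
            · rw [List.cons_append] at hv
              exact ⟨j, w, by rw [(List.cons.inj hv).1]⟩
          obtain ⟨N', hN'⟩ : ∃ N', N' + 1 + i = N + 2 := ⟨N + 1 - i, by omega⟩
          refine IH N' (by omega) D _ ?_ ?_ hfF ?_ ?_
          · rw [mem_L]
            intro w hw
            rw [pow_dL0_apply] at hw
            have hl := mem_L.mp hL _ hw
            rw [List.length_append, List.length_replicate] at hl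
            omega
          · rw [mem_H]
            intro w hw
            rw [pow_dL0_apply] at hw
            have hl := mem_H.mp hH _ hw
            rwa [List.sum_append, List.sum_replicate, smul_zero, add_zero] at hl
          · intro m hm
            have h3 : (I0 m ((dL 0 ^ i) X)) [] = 0 := by
              rw [In_apply_nil, F2S_rep hfF]
            rw [h2] at h3 ⊢
            rw [mem_F1S]
            intro w hw
            rcases w with _ | ⟨a, w⟩
            · exact absurd h3 hw
            · rw [pow_dL0_apply] at hw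
              obtain ⟨v, hv⟩ := mem_F1S.mp (hI m hm) _ hw
              rw [List.cons_append] at hv
              exact ⟨w, by rw [(List.cons.inj hv).1]⟩
          · rw [pow_dL0_apply, List.cons_append, ← List.replicate_add,
              show N' + i = N + 1 by omega]
            exact hX
    -- step 2
    have step2 : ∀ k, dL k X = 0 := by
      intro k
      induction k using Nat.strong_induction_on with
      | _ k ihk =>
      rcases k with _ | k
      · have := step1 (N + 1) 1 le_rfl (by omega)
        rwa [pow_one] at this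
      · have hLG : X ∈ LG (k + 1) := by
          rw [mem_LG]
          intro w hw
          rcases List.eq_nil_or_concat w with rfl | ⟨v, l, hv⟩
          · have := mem_L.mp hL _ hw
            simp at this
          · rw [List.concat_eq_append] at hv
            refine ⟨v, l, hv, ?_⟩
            by_contra hlt
            have h1 := ihk l (by omega)
            apply hw
            rw [hv, ← dL_apply, h1]; rfl
        have hcomm := fun m => F1 (k := k + 1) (by omega) m X hLG
        have hYF : dL (k + 1) X ∈ F2S := by
          rw [mem_F2S]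
          intro w hw
          rw [dL_apply] at hw
          obtain ⟨j, v, hv⟩ := mem_F2S.mp hF _ hw
          have hl := mem_L.mp hL _ hw
          rcases w with _ | ⟨a, w⟩
          · simp at hl
          · rw [List.cons_append] at hv
            exact ⟨j, w, by rw [(List.cons.inj hv).1]⟩
        by_cases hD : k + 1 ≤ D
        · obtain ⟨D', rfl⟩ : ∃ D', D = D' + (k + 1) := ⟨D - (k + 1), by omega⟩
          refine IH N (by omega) D' _ (dL_mem_L hL) (dL_mem_H hH) hYF ?_ ?_
          · intro m hm
            have h3 : (I0 m (dL (k + 1) X)) [] = 0 := by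
              rw [In_apply_nil, F2S_rep hYF]
            rw [← (hcomm m).2] at h3 ⊢
            exact dL_F1S _ (hI m hm) h3
          · rw [dL_apply, List.cons_append, ← F2 k N D' X hLG hL hH hF]
            by_contra h
            obtain ⟨v, hv⟩ := mem_F1S.mp (hI (N + 1) (by omega)) _ h
            have := (List.cons.inj hv).1
            omega
        · ext w
          rw [dL_apply]
          by_contra hw
          have := mem_H.mp hH _ hw
          rw [List.sum_append, List.sum_singleton] at this
          omega
    ext w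
    rcases List.eq_nil_or_concat w with rfl | ⟨v, l, hv⟩
    · by_contra hw
      have := mem_L.mp hL _ hw
      simp at this
    · rw [List.concat_eq_append] at hv
      rw [hv, ← dL_apply, step2]; rfl

end

end Pool.Agent.ECU.TS
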