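import Pool.Agent.ECU.Poly

/-!
# The insertion operators and the operator `X`

`In_X`: `I_m (X P) = (X + m) (I_m P)`.
-/

set_option autoImplicit false

namespace Pool.Agent.ECU.PL

open Finset

noncomputable section

theorem two_P : (2 : Polynomial (ZMod 2)) = 0 := CharTwo.two_eq_zero

theorem mem_aeval {n : ℕ} (y : ZMod 2) {p : T (ZMod 2)} (hp : p ∈ L (ZMod 2) n)
    (q : Polynomial (ZMod 2)) : Polynomial.aeval (X (1 : ZMod 2) y) q p ∈ L (ZMod 2) n := by
  refine poly_ind (P := fun q => Polynomial.aeval (X (1 : ZMod 2) y) q p ∈ L (ZMod 2) n)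
    ?_ ?_ ?_ q
  · simp
  · intro g h hg hh
    rw [map_add, LinearMap.add_apply]
    exact Submodule.add_mem _ hg hh
  · intro k
    rw [map_pow, Polynomial.aeval_X]
    exact pow_mem_of_pres (fun p hp => X_mem_L 1 y hp) k p hp

theorem aeval_px_mul (y : ZMod 2) (q : Polynomial (ZMod 2)) (p : T (ZMod 2)) :
    Polynomial.aeval (X (1 : ZMod 2) y) (px * q) p =
      X 1 y (Polynomial.aeval (X (1 : ZMod 2) y) q p) := by
  rw [map_mul, Polynomial.aeval_X, Module.End.mul_apply]

theorem In_aeval_of {n : ℕ} {y : ZMod 2}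
    (h : ∀ p ∈ L (ZMod 2) n, ∀ m : ℕ, In 1 y m (X 1 y p) =
      X 1 y (In 1 y m p) + ((m : ℕ) : ZMod 2) • In 1 y m p)
    (q : Polynomial (ZMod 2)) (m : ℕ) (p : T (ZMod 2)) (hp : p ∈ L (ZMod 2) n) :
    In 1 y m (Polynomial.aeval (X (1 : ZMod 2) y) q p) =
      Polynomial.aeval (X (1 : ZMod 2) y) (shp (m : ZMod 2) q) (In 1 y m p) := by
  refine poly_ind (P := fun q => In 1 y m (Polynomial.aeval (X (1 : ZMod 2) y) q p) =
      Polynomial.aeval (X (1 : ZMod 2) y) (shp (m : ZMod 2) q) (In 1 y m p)) ?_ ?_ ?_ q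
  · simp
  · intro g h hg hh
    rw [map_add, LinearMap.add_apply, map_add, hg, hh, shp_add, map_add, LinearMap.add_apply]
  · intro k
    induction k with
    | zero => simp
    | succ k ih =>
      rw [pow_succ' px k, aeval_px_mul, h _ (mem_aeval y hp _) m, ih, shp_mul, shp_px, add_mul,
        map_add, LinearMap.add_apply, aeval_px_mul, map_mul, Polynomial.aeval_C,
        Module.End.mul_apply, Module.algebraMap_end_apply]

theorem In_X_step {n : ℕ} {y : ZMod 2}
    (h : ∀ p ∈ L (ZMod 2) n, ∀ m : ℕ, In 1 y m (X 1 y p) =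
      X 1 y (In 1 y m p) + ((m : ℕ) : ZMod 2) • In 1 y m p)
    (k m : ℕ) (p : T (ZMod 2)) (hp : p ∈ L (ZMod 2) n) :
    In 1 y m (X 1 y (C k p)) =
      X 1 y (In 1 y m (C k p)) + ((m : ℕ) : ZMod 2) • In 1 y m (C k p) := by
  rcases m with _ | m
  · simp [In_zero]
  · rcases k with _ | k
    · rw [X_C0, one_smul, map_add, In_C0, In_C1, In_C0, map_add, map_add, map_add, map_add, X_C0,
        h p hp (m + 1), h p hp m, one_smul]
      rcases zcases ((m : ℕ) : ZMod 2) with hm | hm
      · have hm1 : ((m + 1 : ℕ) : ZMod 2) = 1 := by rw [Nat.cast_succ, hm, zero_add]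
        rw [hm, hm1]
        simp only [one_smul, zero_smul, map_add]
        have a1 := add_self_T (C 0 (In 1 y (m + 1) p))
        abel
      · have hm1 : ((m + 1 : ℕ) : ZMod 2) = 0 := by rw [Nat.cast_succ, hm]; decide
        rw [hm, hm1]
        simp only [one_smul, zero_smul, map_add]
        have a1 := add_self_T (In 1 y m p)
        have : X 1 y (In 1 y m p) + In 1 y m p + In 1 y m p = X 1 y (In 1 y m p) := by
          rw [add_assoc, a1, add_zero]
        rw [this, map_zero, add_zero]
        abel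
    · rw [← E_pow, X_E, map_add, In_E, In_C0, In_E, map_add, X_E,
        In_aeval_of h _ (m + 1) p hp, In_aeval_of h _ m p hp, ← aeval_px_mul, smul_add]
      generalize px ^ k = g
      have e1 : shp ((m + 1 : ℕ) : ZMod 2) (px * g) = px * shp ((m + 1 : ℕ) : ZMod 2) g +
          ((m + 1 : ℕ) : ZMod 2) • shp ((m + 1 : ℕ) : ZMod 2) g := by
        rw [shp_mul, shp_px, add_mul, Polynomial.smul_eq_C_mul]
      have e2 : shp ((m + 1 : ℕ) : ZMod 2) (pu * g) = pu * shp ((m + 1 : ℕ) : ZMod 2) g := by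
        rw [shp_mul, shp_pu]
      have e3 : pu * (shp 1 (px * g) + px * g) + shp (m : ZMod 2) (pu * g) =
          px * (pu * (shp 1 g + g)) + ((m + 1 : ℕ) : ZMod 2) • (pu * (shp 1 g + g)) := by
        rw [shp_mul, shp_mul, shp_pu, shp_px, map_one]
        rcases zcases ((m : ℕ) : ZMod 2) with hm | hm
        · have hm1 : ((m + 1 : ℕ) : ZMod 2) = 1 := by rw [Nat.cast_succ, hm, zero_add]
          rw [hm, hm1, shp_zero_left, one_smul]
          ring
        · have hm1 : ((m + 1 : ℕ) : ZMod 2) = 0 := by rw [Nat.cast_succ, hm]; decide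
          rw [hm, hm1, zero_smul]
          linear_combination (pu * shp 1 g) * two_P
      have e4 : ∀ v : T (ZMod 2),
          Polynomial.aeval (X (1 : ZMod 2) y) (pu * (shp 1 (px * g) + px * g)) v +
          Polynomial.aeval (X (1 : ZMod 2) y) (shp (m : ZMod 2) (pu * g)) v =
          Polynomial.aeval (X (1 : ZMod 2) y) (px * (pu * (shp 1 g + g))) v +
          ((m + 1 : ℕ) : ZMod 2) • Polynomial.aeval (X (1 : ZMod 2) y) (pu * (shp 1 g + g)) v := by
        intro v
        rw [← LinearMap.add_apply, ← map_add, e3, map_add, LinearMap.add_apply, map_smul,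
          LinearMap.smul_apply]
      have e5 := e4 (In 1 y m p)
      rw [e1, e2, map_add, LinearMap.add_apply, map_smul, LinearMap.smul_apply]
      generalize Polynomial.aeval (X (1 : ZMod 2) y) (pu * (shp 1 (px * g) + px * g))
        (In 1 y m p) = t1 at e5 ⊢
      generalize Polynomial.aeval (X (1 : ZMod 2) y) (shp (m : ZMod 2) (pu * g))
        (In 1 y m p) = t2 at e5 ⊢
      have e6 : t1 = Polynomial.aeval (X (1 : ZMod 2) y) (px * (pu * (shp 1 g + g)))
          (In 1 y m p) + ((m + 1 : ℕ) : ZMod 2) •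
          Polynomial.aeval (X (1 : ZMod 2) y) (pu * (shp 1 g + g)) (In 1 y m p) - t2 := by
        rw [← e5]; abel
      rw [e6]
      abel

theorem In_X_L (y : ZMod 2) (n : ℕ) : ∀ p ∈ L (ZMod 2) n, ∀ m : ℕ, In 1 y m (X 1 y p) =
      X 1 y (In 1 y m p) + ((m : ℕ) : ZMod 2) • In 1 y m p := by
  induction n with
  | zero =>
    intro p hp m
    refine L_ind (P := fun p => In 1 y m (X 1 y p) =
      X 1 y (In 1 y m p) + ((m : ℕ) : ZMod 2) • In 1 y m p) ?_ ?_ ?_ p hp
    · simp
    · intro p q h1 h2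
      simp only [map_add, smul_add, h1, h2]
      abel
    · intro r w hw
      have : w = [] := List.length_eq_zero_iff.mp hw
      subst this
      rcases m with _ | m
      · simp [In_zero]
      · simp only [map_smul, X_nil, In_nil, smul_zero, map_zero, add_zero]
  | succ n ih =>
    intro p hp m
    refine L_ind (P := fun p => In 1 y m (X 1 y p) =
      X 1 y (In 1 y m p) + ((m : ℕ) : ZMod 2) • In 1 y m p) ?_ ?_ ?_ p hp
    · simp
    · intro p q h1 h2
      simp only [map_add, smul_add, h1, h2]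
      abel
    · intro r w hw
      rcases w with _ | ⟨k, w⟩
      · simp at hw
      · rw [List.length_cons] at hw
        have hw' : w.length = n := by omega
        have hwm : (e w : T (ZMod 2)) ∈ L (ZMod 2) n := hw' ▸ e_mem_L (R := ZMod 2) w
        have := In_X_step ih k m (e w) hwm
        rw [C_e] at this
        simp only [map_smul, this, smul_add]
        rw [smul_comm]

/-- `I_m (X P) = (X + m) (I_m P)`. -/
theorem In_X (y : ZMod 2) (m : ℕ) (p : T (ZMod 2)) : In 1 y m (X 1 y p) =
    X 1 y (In 1 y m p) + ((m : ℕ) : ZMod 2) • In 1 y m p := by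
  refine T_ind (P := fun p => In 1 y m (X 1 y p) =
    X 1 y (In 1 y m p) + ((m : ℕ) : ZMod 2) • In 1 y m p) ?_ ?_ ?_ p
  · simp
  · intro p q h1 h2
    simp only [map_add, smul_add, h1, h2]
    abel
  · intro r w
    have := In_X_L y w.length (e w) (e_mem_L (R := ZMod 2) w) m
    simp only [map_smul, this, smul_add]
    rw [smul_comm]

end

end Pool.Agent.ECU.PL
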